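import Pool.Agent.Helper88.Gam.Num

/-!
# Values of the Gamma function

For `th = (16 + j) / 96`, `j = 0, ..., 8` (from `1/6` to `1/4`): bounds of `Gamma (1 - th)`,
`Gamma (1 + 2 th)`, `Gamma (1 + 3 th)` with relative error at most `4e-8`.
-/

open Finset

namespace Pool.Agent.Helper88.Gam

theorem g_80_96 : (0.94065585 : ℝ) ≤ Real.Gamma (1 + 80 / 96) ∧
    Real.Gamma (1 + 80 / 96) ≤ 0.94065587 := by
  have h1 := gam_lo 80 96 20 1260115623 94065585 (10 ^ 8) 9295409152 (by norm_num) (by norm_num)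
    (by norm_num) (by norm_num) (by norm_num) (by norm_num [Finset.prod_range_succ, Nat.factorial])
  have h2 := gam_hi 80 96 20 1260115624 94065587 (10 ^ 8) 9289650176 (by norm_num) (by norm_num)
    (by norm_num) (by norm_num) (by norm_num) (by norm_num)
    (by norm_num [Finset.prod_range_succ, Nat.factorial])
  push_cast at h1 h2
  constructor
  · refine le_trans (le_of_eq ?_) h1
    norm_num
  · refine le_trans h2 (le_of_eq ?_)
    norm_num

theorem one_sub_0 : (1.12878702 : ℝ) ≤ Real.Gamma (1 - 16 / 96) ∧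
    Real.Gamma (1 - 16 / 96) ≤ 1.12878705 := by
  have h : Real.Gamma (1 - 16 / 96) = Real.Gamma (1 + 80 / 96) * (96 / 80) := by
    rw [show (1 : ℝ) + 80 / 96 = (1 - 16 / 96) + 1 by norm_num,
      Real.Gamma_add_one (by norm_num)]
    field_simp
    norm_num
  obtain ⟨h1, h2⟩ := g_80_96
  rw [h]
  constructor <;> norm_num at h1 h2 ⊢ <;> linarith

theorem g_79_96 : (0.93766705 : ℝ) ≤ Real.Gamma (1 + 79 / 96) ∧
    Real.Gamma (1 + 79 / 96) ≤ 0.93766707 := by
  have h1 := gam_lo 79 96 20 1220580041 93766705 (10 ^ 8) 9290793041 (by norm_num) (by norm_num)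
    (by norm_num) (by norm_num) (by norm_num) (by norm_num [Finset.prod_range_succ, Nat.factorial])
  have h2 := gam_hi 79 96 20 1220580042 93766707 (10 ^ 8) 9285014575 (by norm_num) (by norm_num)
    (by norm_num) (by norm_num) (by norm_num) (by norm_num)
    (by norm_num [Finset.prod_range_succ, Nat.factorial])
  push_cast at h1 h2
  constructor
  · refine le_trans (le_of_eq ?_) h1
    norm_num
  · refine le_trans h2 (le_of_eq ?_)
    norm_num

theorem one_sub_1 : (1.13944350 : ℝ) ≤ Real.Gamma (1 - 17 / 96) ∧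
    Real.Gamma (1 - 17 / 96) ≤ 1.13944353 := by
  have h : Real.Gamma (1 - 17 / 96) = Real.Gamma (1 + 79 / 96) * (96 / 79) := by
    rw [show (1 : ℝ) + 79 / 96 = (1 - 17 / 96) + 1 by norm_num,
      Real.Gamma_add_one (by norm_num)]
    field_simp
    norm_num
  obtain ⟨h1, h2⟩ := g_79_96
  rw [h]
  constructor <;> norm_num at h1 h2 ⊢ <;> linarith

theorem g_78_96 : (0.93476129 : ℝ) ≤ Real.Gamma (1 + 78 / 96) ∧
    Real.Gamma (1 + 78 / 96) ≤ 0.93476132 := by
  have h1 := gam_lo 78 96 20 1182290944 93476129 (10 ^ 8) 9286177608 (by norm_num) (by norm_num)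
    (by norm_num) (by norm_num) (by norm_num) (by norm_num [Finset.prod_range_succ, Nat.factorial])
  have h2 := gam_hi 78 96 20 1182290945 93476132 (10 ^ 8) 9280380600 (by norm_num) (by norm_num)
    (by norm_num) (by norm_num) (by norm_num) (by norm_num)
    (by norm_num [Finset.prod_range_succ, Nat.factorial])
  push_cast at h1 h2
  constructor
  · refine le_trans (le_of_eq ?_) h1
    norm_num
  · refine le_trans h2 (le_of_eq ?_)
    norm_num

theorem one_sub_2 : (1.15047543 : ℝ) ≤ Real.Gamma (1 - 18 / 96) ∧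
    Real.Gamma (1 - 18 / 96) ≤ 1.15047548 := by
  have h : Real.Gamma (1 - 18 / 96) = Real.Gamma (1 + 78 / 96) * (96 / 78) := by
    rw [show (1 : ℝ) + 78 / 96 = (1 - 18 / 96) + 1 by norm_num,
      Real.Gamma_add_one (by norm_num)]
    field_simp
    norm_num
  obtain ⟨h1, h2⟩ := g_78_96
  rw [h]
  constructor <;> norm_num at h1 h2 ⊢ <;> linarith

theorem g_77_96 : (0.93193840 : ℝ) ≤ Real.Gamma (1 + 77 / 96) ∧
    Real.Gamma (1 + 77 / 96) ≤ 0.93193843 := by
  have h1 := gam_lo 77 96 20 1145208847 93193840 (10 ^ 8) 9281562859 (by norm_num) (by norm_num)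
    (by norm_num) (by norm_num) (by norm_num) (by norm_num [Finset.prod_range_succ, Nat.factorial])
  have h2 := gam_hi 77 96 20 1145208848 93193843 (10 ^ 8) 9275748245 (by norm_num) (by norm_num)
    (by norm_num) (by norm_num) (by norm_num) (by norm_num)
    (by norm_num [Finset.prod_range_succ, Nat.factorial])
  push_cast at h1 h2
  constructor
  · refine le_trans (le_of_eq ?_) h1
    norm_num
  · refine le_trans h2 (le_of_eq ?_)
    norm_num

theorem one_sub_3 : (1.16189722 : ℝ) ≤ Real.Gamma (1 - 19 / 96) ∧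
    Real.Gamma (1 - 19 / 96) ≤ 1.16189727 := by
  have h : Real.Gamma (1 - 19 / 96) = Real.Gamma (1 + 77 / 96) * (96 / 77) := by
    rw [show (1 : ℝ) + 77 / 96 = (1 - 19 / 96) + 1 by norm_num,
      Real.Gamma_add_one (by norm_num)]
    field_simp
    norm_num
  obtain ⟨h1, h2⟩ := g_77_96
  rw [h]
  constructor <;> norm_num at h1 h2 ⊢ <;> linarith

theorem g_76_96 : (0.92919824 : ℝ) ≤ Real.Gamma (1 + 76 / 96) ∧
    Real.Gamma (1 + 76 / 96) ≤ 0.92919826 := by
  have h1 := gam_lo 76 96 20 1109295520 92919824 (10 ^ 8) 9276948800 (by norm_num) (by norm_num)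
    (by norm_num) (by norm_num) (by norm_num) (by norm_num [Finset.prod_range_succ, Nat.factorial])
  have h2 := gam_hi 76 96 20 1109295521 92919826 (10 ^ 8) 9271117504 (by norm_num) (by norm_num)
    (by norm_num) (by norm_num) (by norm_num) (by norm_num)
    (by norm_num [Finset.prod_range_succ, Nat.factorial])
  push_cast at h1 h2
  constructor
  · refine le_trans (le_of_eq ?_) h1
    norm_num
  · refine le_trans h2 (le_of_eq ?_)
    norm_num

theorem one_sub_4 : (1.17372409 : ℝ) ≤ Real.Gamma (1 - 20 / 96) ∧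
    Real.Gamma (1 - 20 / 96) ≤ 1.17372412 := by
  have h : Real.Gamma (1 - 20 / 96) = Real.Gamma (1 + 76 / 96) * (96 / 76) := by
    rw [show (1 : ℝ) + 76 / 96 = (1 - 20 / 96) + 1 by norm_num,
      Real.Gamma_add_one (by norm_num)]
    field_simp
    norm_num
  obtain ⟨h1, h2⟩ := g_76_96
  rw [h]
  constructor <;> norm_num at h1 h2 ⊢ <;> linarith

theorem g_75_96 : (0.92654066 : ℝ) ≤ Real.Gamma (1 + 75 / 96) ∧
    Real.Gamma (1 + 75 / 96) ≤ 0.92654068 := by
  have h1 := gam_lo 75 96 20 1074513947 92654066 (10 ^ 8) 9272335437 (by norm_num) (by norm_num)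
    (by norm_num) (by norm_num) (by norm_num) (by norm_num [Finset.prod_range_succ, Nat.factorial])
  have h2 := gam_hi 75 96 20 1074513948 92654068 (10 ^ 8) 9266488371 (by norm_num) (by norm_num)
    (by norm_num) (by norm_num) (by norm_num) (by norm_num)
    (by norm_num [Finset.prod_range_succ, Nat.factorial])
  push_cast at h1 h2
  constructor
  · refine le_trans (le_of_eq ?_) h1
    norm_num
  · refine le_trans h2 (le_of_eq ?_)
    norm_num

theorem one_sub_5 : (1.18597204 : ℝ) ≤ Real.Gamma (1 - 21 / 96) ∧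
    Real.Gamma (1 - 21 / 96) ≤ 1.18597208 := by
  have h : Real.Gamma (1 - 21 / 96) = Real.Gamma (1 + 75 / 96) * (96 / 75) := by
    rw [show (1 : ℝ) + 75 / 96 = (1 - 21 / 96) + 1 by norm_num,
      Real.Gamma_add_one (by norm_num)]
    field_simp
    norm_num
  obtain ⟨h1, h2⟩ := g_75_96
  rw [h]
  constructor <;> norm_num at h1 h2 ⊢ <;> linarith

theorem g_74_96 : (0.92396556 : ℝ) ≤ Real.Gamma (1 + 74 / 96) ∧
    Real.Gamma (1 + 74 / 96) ≤ 0.92396559 := by
  have h1 := gam_lo 74 96 20 1040828295 92396556 (10 ^ 8) 9267722776 (by norm_num) (by norm_num)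
    (by norm_num) (by norm_num) (by norm_num) (by norm_num [Finset.prod_range_succ, Nat.factorial])
  have h2 := gam_hi 74 96 20 1040828296 92396559 (10 ^ 8) 9261860840 (by norm_num) (by norm_num)
    (by norm_num) (by norm_num) (by norm_num) (by norm_num)
    (by norm_num [Finset.prod_range_succ, Nat.factorial])
  push_cast at h1 h2
  constructor
  · refine le_trans (le_of_eq ?_) h1
    norm_num
  · refine le_trans h2 (le_of_eq ?_)
    norm_num

theorem one_sub_6 : (1.19865802 : ℝ) ≤ Real.Gamma (1 - 22 / 96) ∧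
    Real.Gamma (1 - 22 / 96) ≤ 1.19865807 := by
  have h : Real.Gamma (1 - 22 / 96) = Real.Gamma (1 + 74 / 96) * (96 / 74) := by
    rw [show (1 : ℝ) + 74 / 96 = (1 - 22 / 96) + 1 by norm_num,
      Real.Gamma_add_one (by norm_num)]
    field_simp
    norm_num
  obtain ⟨h1, h2⟩ := g_74_96
  rw [h]
  constructor <;> norm_num at h1 h2 ⊢ <;> linarith

theorem g_73_96 : (0.92147287 : ℝ) ≤ Real.Gamma (1 + 73 / 96) ∧
    Real.Gamma (1 + 73 / 96) ≤ 0.92147289 := by
  have h1 := gam_lo 73 96 20 1008203866 92147287 (10 ^ 8) 9263110823 (by norm_num) (by norm_num)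
    (by norm_num) (by norm_num) (by norm_num) (by norm_num [Finset.prod_range_succ, Nat.factorial])
  have h2 := gam_hi 73 96 20 1008203867 92147289 (10 ^ 8) 9257234905 (by norm_num) (by norm_num)
    (by norm_num) (by norm_num) (by norm_num) (by norm_num)
    (by norm_num [Finset.prod_range_succ, Nat.factorial])
  push_cast at h1 h2
  constructor
  · refine le_trans (le_of_eq ?_) h1
    norm_num
  · refine le_trans h2 (le_of_eq ?_)
    norm_num

theorem one_sub_7 : (1.21179993 : ℝ) ≤ Real.Gamma (1 - 23 / 96) ∧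
    Real.Gamma (1 - 23 / 96) ≤ 1.21179997 := by
  have h : Real.Gamma (1 - 23 / 96) = Real.Gamma (1 + 73 / 96) * (96 / 73) := by
    rw [show (1 : ℝ) + 73 / 96 = (1 - 23 / 96) + 1 by norm_num,
      Real.Gamma_add_one (by norm_num)]
    field_simp
    norm_num
  obtain ⟨h1, h2⟩ := g_73_96
  rw [h]
  constructor <;> norm_num at h1 h2 ⊢ <;> linarith

theorem g_72_96 : (0.91906251 : ℝ) ≤ Real.Gamma (1 + 72 / 96) ∧
    Real.Gamma (1 + 72 / 96) ≤ 0.91906254 := by
  have h1 := gam_lo 72 96 20 976607068 91906251 (10 ^ 8) 9258499584 (by norm_num) (by norm_num)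
    (by norm_num) (by norm_num) (by norm_num) (by norm_num [Finset.prod_range_succ, Nat.factorial])
  have h2 := gam_hi 72 96 20 976607069 91906254 (10 ^ 8) 9252610560 (by norm_num) (by norm_num)
    (by norm_num) (by norm_num) (by norm_num) (by norm_num)
    (by norm_num [Finset.prod_range_succ, Nat.factorial])
  push_cast at h1 h2
  constructor
  · refine le_trans (le_of_eq ?_) h1
    norm_num
  · refine le_trans h2 (le_of_eq ?_)
    norm_num

theorem one_sub_8 : (1.22541668 : ℝ) ≤ Real.Gamma (1 - 24 / 96) ∧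
    Real.Gamma (1 - 24 / 96) ≤ 1.22541672 := by
  have h : Real.Gamma (1 - 24 / 96) = Real.Gamma (1 + 72 / 96) * (96 / 72) := by
    rw [show (1 : ℝ) + 72 / 96 = (1 - 24 / 96) + 1 by norm_num,
      Real.Gamma_add_one (by norm_num)]
    field_simp
    norm_num
  obtain ⟨h1, h2⟩ := g_72_96
  rw [h]
  constructor <;> norm_num at h1 h2 ⊢ <;> linarith

theorem g_16_48 : (0.89297950 : ℝ) ≤ Real.Gamma (1 + 16 / 48) ∧
    Real.Gamma (1 + 16 / 48) ≤ 0.89297953 := by
  have h1 := gam_lo 16 48 20 274424877 89297950 (10 ^ 8) 1134338048 (by norm_num) (by norm_num)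
    (by norm_num) (by norm_num) (by norm_num) (by norm_num [Finset.prod_range_succ, Nat.factorial])
  have h2 := gam_hi 16 48 20 274424878 89297953 (10 ^ 8) 1133608960 (by norm_num) (by norm_num)
    (by norm_num) (by norm_num) (by norm_num) (by norm_num)
    (by norm_num [Finset.prod_range_succ, Nat.factorial])
  push_cast at h1 h2
  constructor
  · refine le_trans (le_of_eq ?_) h1
    norm_num
  · refine le_trans h2 (le_of_eq ?_)
    norm_num

theorem one_add_2_0 : (0.89297950 : ℝ) ≤ Real.Gamma (1 + 2 * (16 / 96)) ∧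
    Real.Gamma (1 + 2 * (16 / 96)) ≤ 0.89297953 := by
  have h : (1 : ℝ) + 2 * (16 / 96) = 1 + 16 / 48 := by norm_num
  rw [h]
  exact g_16_48

theorem g_16_32 : (0.88622691 : ℝ) ≤ Real.Gamma (1 + 16 / 32) ∧
    Real.Gamma (1 + 16 / 32) ≤ 0.88622694 := by
  have h1 := gam_lo 16 32 20 455521678 88622691 (10 ^ 8) 338817024 (by norm_num) (by norm_num)
    (by norm_num) (by norm_num) (by norm_num) (by norm_num [Finset.prod_range_succ, Nat.factorial])
  have h2 := gam_hi 16 32 20 455521679 88622694 (10 ^ 8) 338595840 (by norm_num) (by norm_num)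
    (by norm_num) (by norm_num) (by norm_num) (by norm_num)
    (by norm_num [Finset.prod_range_succ, Nat.factorial])
  push_cast at h1 h2
  constructor
  · refine le_trans (le_of_eq ?_) h1
    norm_num
  · refine le_trans h2 (le_of_eq ?_)
    norm_num

theorem one_add_3_0 : (0.88622691 : ℝ) ≤ Real.Gamma (1 + 3 * (16 / 96)) ∧
    Real.Gamma (1 + 3 * (16 / 96)) ≤ 0.88622694 := by
  have h : (1 : ℝ) + 3 * (16 / 96) = 1 + 16 / 32 := by norm_num
  rw [h]
  exact g_16_32

theorem g_17_48 : (0.89073682 : ℝ) ≤ Real.Gamma (1 + 17 / 48) ∧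
    Real.Gamma (1 + 17 / 48) ≤ 0.89073685 := by
  have h1 := gam_lo 17 48 20 292349565 89073682 (10 ^ 8) 1135482607 (by norm_num) (by norm_num)
    (by norm_num) (by norm_num) (by norm_num) (by norm_num [Finset.prod_range_succ, Nat.factorial])
  have h2 := gam_hi 17 48 20 292349566 89073685 (10 ^ 8) 1134750545 (by norm_num) (by norm_num)
    (by norm_num) (by norm_num) (by norm_num) (by norm_num)
    (by norm_num [Finset.prod_range_succ, Nat.factorial])
  push_cast at h1 h2
  constructor
  · refine le_trans (le_of_eq ?_) h1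
    norm_num
  · refine le_trans h2 (le_of_eq ?_)
    norm_num

theorem one_add_2_1 : (0.89073682 : ℝ) ≤ Real.Gamma (1 + 2 * (17 / 96)) ∧
    Real.Gamma (1 + 2 * (17 / 96)) ≤ 0.89073685 := by
  have h : (1 : ℝ) + 2 * (17 / 96) = 1 + 17 / 48 := by norm_num
  rw [h]
  exact g_17_48

theorem g_17_32 : (0.88763944 : ℝ) ≤ Real.Gamma (1 + 17 / 32) ∧
    Real.Gamma (1 + 17 / 32) ≤ 0.88763947 := by
  have h1 := gam_lo 17 32 20 501002086 88763944 (10 ^ 8) 339327375 (by norm_num) (by norm_num)
    (by norm_num) (by norm_num) (by norm_num) (by norm_num [Finset.prod_range_succ, Nat.factorial])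
  have h2 := gam_hi 17 32 20 501002087 88763947 (10 ^ 8) 339105777 (by norm_num) (by norm_num)
    (by norm_num) (by norm_num) (by norm_num) (by norm_num)
    (by norm_num [Finset.prod_range_succ, Nat.factorial])
  push_cast at h1 h2
  constructor
  · refine le_trans (le_of_eq ?_) h1
    norm_num
  · refine le_trans h2 (le_of_eq ?_)
    norm_num

theorem one_add_3_1 : (0.88763944 : ℝ) ≤ Real.Gamma (1 + 3 * (17 / 96)) ∧
    Real.Gamma (1 + 3 * (17 / 96)) ≤ 0.88763947 := by
  have h : (1 : ℝ) + 3 * (17 / 96) = 1 + 17 / 32 := by norm_num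
  rw [h]
  exact g_17_32

theorem g_18_48 : (0.88891356 : ℝ) ≤ Real.Gamma (1 + 18 / 48) ∧
    Real.Gamma (1 + 18 / 48) ≤ 0.88891359 := by
  have h1 := gam_lo 18 48 20 311451555 88891356 (10 ^ 8) 1136627640 (by norm_num) (by norm_num)
    (by norm_num) (by norm_num) (by norm_num) (by norm_num [Finset.prod_range_succ, Nat.factorial])
  have h2 := gam_hi 18 48 20 311451556 88891359 (10 ^ 8) 1135892808 (by norm_num) (by norm_num)
    (by norm_num) (by norm_num) (by norm_num) (by norm_num)
    (by norm_num [Finset.prod_range_succ, Nat.factorial])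
  push_cast at h1 h2
  constructor
  · refine le_trans (le_of_eq ?_) h1
    norm_num
  · refine le_trans h2 (le_of_eq ?_)
    norm_num

theorem one_add_2_2 : (0.88891356 : ℝ) ≤ Real.Gamma (1 + 2 * (18 / 96)) ∧
    Real.Gamma (1 + 2 * (18 / 96)) ≤ 0.88891359 := by
  have h : (1 : ℝ) + 2 * (18 / 96) = 1 + 18 / 48 := by norm_num
  rw [h]
  exact g_18_48

theorem g_18_32 : (0.88984437 : ℝ) ≤ Real.Gamma (1 + 18 / 32) ∧
    Real.Gamma (1 + 18 / 32) ≤ 0.88984440 := by
  have h1 := gam_lo 18 32 20 551049119 88984437 (10 ^ 8) 339838008 (by norm_num) (by norm_num)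
    (by norm_num) (by norm_num) (by norm_num) (by norm_num [Finset.prod_range_succ, Nat.factorial])
  have h2 := gam_hi 18 32 20 551049120 88984440 (10 ^ 8) 339616200 (by norm_num) (by norm_num)
    (by norm_num) (by norm_num) (by norm_num) (by norm_num)
    (by norm_num [Finset.prod_range_succ, Nat.factorial])
  push_cast at h1 h2
  constructor
  · refine le_trans (le_of_eq ?_) h1
    norm_num
  · refine le_trans h2 (le_of_eq ?_)
    norm_num

theorem one_add_3_2 : (0.88984437 : ℝ) ≤ Real.Gamma (1 + 3 * (18 / 96)) ∧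
    Real.Gamma (1 + 3 * (18 / 96)) ≤ 0.88984440 := by
  have h : (1 : ℝ) + 3 * (18 / 96) = 1 + 18 / 32 := by norm_num
  rw [h]
  exact g_18_32

theorem g_19_48 : (0.88749868 : ℝ) ≤ Real.Gamma (1 + 19 / 48) ∧
    Real.Gamma (1 + 19 / 48) ≤ 0.88749871 := by
  have h1 := gam_lo 19 48 20 331808590 88749868 (10 ^ 8) 1137773141 (by norm_num) (by norm_num)
    (by norm_num) (by norm_num) (by norm_num) (by norm_num [Finset.prod_range_succ, Nat.factorial])
  have h2 := gam_hi 19 48 20 331808591 88749871 (10 ^ 8) 1137035755 (by norm_num) (by norm_num)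
    (by norm_num) (by norm_num) (by norm_num) (by norm_num)
    (by norm_num [Finset.prod_range_succ, Nat.factorial])
  push_cast at h1 h2
  constructor
  · refine le_trans (le_of_eq ?_) h1
    norm_num
  · refine le_trans h2 (le_of_eq ?_)
    norm_num

theorem one_add_2_3 : (0.88749868 : ℝ) ≤ Real.Gamma (1 + 2 * (19 / 96)) ∧
    Real.Gamma (1 + 2 * (19 / 96)) ≤ 0.88749871 := by
  have h : (1 : ℝ) + 2 * (19 / 96) = 1 + 19 / 48 := by norm_num
  rw [h]
  exact g_19_48

theorem g_19_32 : (0.89282670 : ℝ) ≤ Real.Gamma (1 + 19 / 32) ∧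
    Real.Gamma (1 + 19 / 32) ≤ 0.89282673 := by
  have h1 := gam_lo 19 32 20 606123832 89282670 (10 ^ 8) 340348917 (by norm_num) (by norm_num)
    (by norm_num) (by norm_num) (by norm_num) (by norm_num [Finset.prod_range_succ, Nat.factorial])
  have h2 := gam_hi 19 32 20 606123833 89282673 (10 ^ 8) 340127115 (by norm_num) (by norm_num)
    (by norm_num) (by norm_num) (by norm_num) (by norm_num)
    (by norm_num [Finset.prod_range_succ, Nat.factorial])
  push_cast at h1 h2
  constructor
  · refine le_trans (le_of_eq ?_) h1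
    norm_num
  · refine le_trans h2 (le_of_eq ?_)
    norm_num

theorem one_add_3_3 : (0.89282670 : ℝ) ≤ Real.Gamma (1 + 3 * (19 / 96)) ∧
    Real.Gamma (1 + 3 * (19 / 96)) ≤ 0.89282673 := by
  have h : (1 : ℝ) + 3 * (19 / 96) = 1 + 19 / 32 := by norm_num
  rw [h]
  exact g_19_32

theorem g_20_48 : (0.88648209 : ℝ) ≤ Real.Gamma (1 + 20 / 48) ∧
    Real.Gamma (1 + 20 / 48) ≤ 0.88648212 := by
  have h1 := gam_lo 20 48 20 353503575 88648209 (10 ^ 8) 1138919104 (by norm_num) (by norm_num)
    (by norm_num) (by norm_num) (by norm_num) (by norm_num [Finset.prod_range_succ, Nat.factorial])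
  have h2 := gam_hi 20 48 20 353503576 88648212 (10 ^ 8) 1138179392 (by norm_num) (by norm_num)
    (by norm_num) (by norm_num) (by norm_num) (by norm_num)
    (by norm_num [Finset.prod_range_succ, Nat.factorial])
  push_cast at h1 h2
  constructor
  · refine le_trans (le_of_eq ?_) h1
    norm_num
  · refine le_trans h2 (le_of_eq ?_)
    norm_num

theorem one_add_2_4 : (0.88648209 : ℝ) ≤ Real.Gamma (1 + 2 * (20 / 96)) ∧
    Real.Gamma (1 + 2 * (20 / 96)) ≤ 0.88648212 := by
  have h : (1 : ℝ) + 2 * (20 / 96) = 1 + 20 / 48 := by norm_num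
  rw [h]
  exact g_20_48

theorem g_20_32 : (0.89657427 : ℝ) ≤ Real.Gamma (1 + 20 / 32) ∧
    Real.Gamma (1 + 20 / 32) ≤ 0.89657430 := by
  have h1 := gam_lo 20 32 20 666734083 89657427 (10 ^ 8) 340860096 (by norm_num) (by norm_num)
    (by norm_num) (by norm_num) (by norm_num) (by norm_num [Finset.prod_range_succ, Nat.factorial])
  have h2 := gam_hi 20 32 20 666734084 89657430 (10 ^ 8) 340638528 (by norm_num) (by norm_num)
    (by norm_num) (by norm_num) (by norm_num) (by norm_num)
    (by norm_num [Finset.prod_range_succ, Nat.factorial])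
  push_cast at h1 h2
  constructor
  · refine le_trans (le_of_eq ?_) h1
    norm_num
  · refine le_trans h2 (le_of_eq ?_)
    norm_num

theorem one_add_3_4 : (0.89657427 : ℝ) ≤ Real.Gamma (1 + 3 * (20 / 96)) ∧
    Real.Gamma (1 + 3 * (20 / 96)) ≤ 0.89657430 := by
  have h : (1 : ℝ) + 3 * (20 / 96) = 1 + 20 / 32 := by norm_num
  rw [h]
  exact g_20_32

theorem g_21_48 : (0.88585461 : ℝ) ≤ Real.Gamma (1 + 21 / 48) ∧
    Real.Gamma (1 + 21 / 48) ≤ 0.88585464 := by
  have h1 := gam_lo 21 48 20 376624920 88585461 (10 ^ 8) 1140065523 (by norm_num) (by norm_num)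
    (by norm_num) (by norm_num) (by norm_num) (by norm_num [Finset.prod_range_succ, Nat.factorial])
  have h2 := gam_hi 21 48 20 376624921 88585464 (10 ^ 8) 1139323725 (by norm_num) (by norm_num)
    (by norm_num) (by norm_num) (by norm_num) (by norm_num)
    (by norm_num [Finset.prod_range_succ, Nat.factorial])
  push_cast at h1 h2
  constructor
  · refine le_trans (le_of_eq ?_) h1
    norm_num
  · refine le_trans h2 (le_of_eq ?_)
    norm_num

theorem one_add_2_5 : (0.88585461 : ℝ) ≤ Real.Gamma (1 + 2 * (21 / 96)) ∧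
    Real.Gamma (1 + 2 * (21 / 96)) ≤ 0.88585464 := by
  have h : (1 : ℝ) + 2 * (21 / 96) = 1 + 21 / 48 := by norm_num
  rw [h]
  exact g_21_48

theorem g_21_32 : (0.90107754 : ℝ) ≤ Real.Gamma (1 + 21 / 32) ∧
    Real.Gamma (1 + 21 / 32) ≤ 0.90107757 := by
  have h1 := gam_lo 21 32 20 733439300 90107754 (10 ^ 8) 341371539 (by norm_num) (by norm_num)
    (by norm_num) (by norm_num) (by norm_num) (by norm_num [Finset.prod_range_succ, Nat.factorial])
  have h2 := gam_hi 21 32 20 733439301 90107757 (10 ^ 8) 341150445 (by norm_num) (by norm_num)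
    (by norm_num) (by norm_num) (by norm_num) (by norm_num)
    (by norm_num [Finset.prod_range_succ, Nat.factorial])
  push_cast at h1 h2
  constructor
  · refine le_trans (le_of_eq ?_) h1
    norm_num
  · refine le_trans h2 (le_of_eq ?_)
    norm_num

theorem one_add_3_5 : (0.90107754 : ℝ) ≤ Real.Gamma (1 + 3 * (21 / 96)) ∧
    Real.Gamma (1 + 3 * (21 / 96)) ≤ 0.90107757 := by
  have h : (1 : ℝ) + 3 * (21 / 96) = 1 + 21 / 32 := by norm_num
  rw [h]
  exact g_21_32

theorem g_22_48 : (0.88560785 : ℝ) ≤ Real.Gamma (1 + 22 / 48) ∧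
    Real.Gamma (1 + 22 / 48) ≤ 0.88560788 := by
  have h1 := gam_lo 22 48 20 401266907 88560785 (10 ^ 8) 1141212392 (by norm_num) (by norm_num)
    (by norm_num) (by norm_num) (by norm_num) (by norm_num [Finset.prod_range_succ, Nat.factorial])
  have h2 := gam_hi 22 48 20 401266908 88560788 (10 ^ 8) 1140468760 (by norm_num) (by norm_num)
    (by norm_num) (by norm_num) (by norm_num) (by norm_num)
    (by norm_num [Finset.prod_range_succ, Nat.factorial])
  push_cast at h1 h2
  constructor
  · refine le_trans (le_of_eq ?_) h1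
    norm_num
  · refine le_trans h2 (le_of_eq ?_)
    norm_num

theorem one_add_2_6 : (0.88560785 : ℝ) ≤ Real.Gamma (1 + 2 * (22 / 96)) ∧
    Real.Gamma (1 + 2 * (22 / 96)) ≤ 0.88560788 := by
  have h : (1 : ℝ) + 2 * (22 / 96) = 1 + 22 / 48 := by norm_num
  rw [h]
  exact g_22_48

theorem g_22_32 : (0.90632946 : ℝ) ≤ Real.Gamma (1 + 22 / 32) ∧
    Real.Gamma (1 + 22 / 32) ≤ 0.90632949 := by
  have h1 := gam_lo 22 32 20 806855754 90632946 (10 ^ 8) 341883240 (by norm_num) (by norm_num)
    (by norm_num) (by norm_num) (by norm_num) (by norm_num [Finset.prod_range_succ, Nat.factorial])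
  have h2 := gam_hi 22 32 20 806855755 90632949 (10 ^ 8) 341662872 (by norm_num) (by norm_num)
    (by norm_num) (by norm_num) (by norm_num) (by norm_num)
    (by norm_num [Finset.prod_range_succ, Nat.factorial])
  push_cast at h1 h2
  constructor
  · refine le_trans (le_of_eq ?_) h1
    norm_num
  · refine le_trans h2 (le_of_eq ?_)
    norm_num

theorem one_add_3_6 : (0.90632946 : ℝ) ≤ Real.Gamma (1 + 3 * (22 / 96)) ∧
    Real.Gamma (1 + 3 * (22 / 96)) ≤ 0.90632949 := by
  have h : (1 : ℝ) + 3 * (22 / 96) = 1 + 22 / 32 := by norm_num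
  rw [h]
  exact g_22_32

theorem g_23_48 : (0.88573423 : ℝ) ≤ Real.Gamma (1 + 23 / 48) ∧
    Real.Gamma (1 + 23 / 48) ≤ 0.88573427 := by
  have h1 := gam_lo 23 48 20 427530083 88573423 (10 ^ 8) 1142359705 (by norm_num) (by norm_num)
    (by norm_num) (by norm_num) (by norm_num) (by norm_num [Finset.prod_range_succ, Nat.factorial])
  have h2 := gam_hi 23 48 20 427530084 88573427 (10 ^ 8) 1141614503 (by norm_num) (by norm_num)
    (by norm_num) (by norm_num) (by norm_num) (by norm_num)
    (by norm_num [Finset.prod_range_succ, Nat.factorial])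
  push_cast at h1 h2
  constructor
  · refine le_trans (le_of_eq ?_) h1
    norm_num
  · refine le_trans h2 (le_of_eq ?_)
    norm_num

theorem one_add_2_7 : (0.88573423 : ℝ) ≤ Real.Gamma (1 + 2 * (23 / 96)) ∧
    Real.Gamma (1 + 2 * (23 / 96)) ≤ 0.88573427 := by
  have h : (1 : ℝ) + 2 * (23 / 96) = 1 + 23 / 48 := by norm_num
  rw [h]
  exact g_23_48

theorem g_23_32 : (0.91232530 : ℝ) ≤ Real.Gamma (1 + 23 / 32) ∧
    Real.Gamma (1 + 23 / 32) ≤ 0.91232533 := by
  have h1 := gam_lo 23 32 20 887662357 91232530 (10 ^ 8) 342395193 (by norm_num) (by norm_num)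
    (by norm_num) (by norm_num) (by norm_num) (by norm_num [Finset.prod_range_succ, Nat.factorial])
  have h2 := gam_hi 23 32 20 887662358 91232533 (10 ^ 8) 342175815 (by norm_num) (by norm_num)
    (by norm_num) (by norm_num) (by norm_num) (by norm_num)
    (by norm_num [Finset.prod_range_succ, Nat.factorial])
  push_cast at h1 h2
  constructor
  · refine le_trans (le_of_eq ?_) h1
    norm_num
  · refine le_trans h2 (le_of_eq ?_)
    norm_num

theorem one_add_3_7 : (0.91232530 : ℝ) ≤ Real.Gamma (1 + 3 * (23 / 96)) ∧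
    Real.Gamma (1 + 3 * (23 / 96)) ≤ 0.91232533 := by
  have h : (1 : ℝ) + 3 * (23 / 96) = 1 + 23 / 32 := by norm_num
  rw [h]
  exact g_23_32

theorem g_24_48 : (0.88622691 : ℝ) ≤ Real.Gamma (1 + 24 / 48) ∧
    Real.Gamma (1 + 24 / 48) ≤ 0.88622694 := by
  have h1 := gam_lo 24 48 20 455521678 88622691 (10 ^ 8) 1143507456 (by norm_num) (by norm_num)
    (by norm_num) (by norm_num) (by norm_num) (by norm_num [Finset.prod_range_succ, Nat.factorial])
  have h2 := gam_hi 24 48 20 455521679 88622694 (10 ^ 8) 1142760960 (by norm_num) (by norm_num)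
    (by norm_num) (by norm_num) (by norm_num) (by norm_num)
    (by norm_num [Finset.prod_range_succ, Nat.factorial])
  push_cast at h1 h2
  constructor
  · refine le_trans (le_of_eq ?_) h1
    norm_num
  · refine le_trans h2 (le_of_eq ?_)
    norm_num

theorem one_add_2_8 : (0.88622691 : ℝ) ≤ Real.Gamma (1 + 2 * (24 / 96)) ∧
    Real.Gamma (1 + 2 * (24 / 96)) ≤ 0.88622694 := by
  have h : (1 : ℝ) + 2 * (24 / 96) = 1 + 24 / 48 := by norm_num
  rw [h]
  exact g_24_48

theorem g_24_32 : (0.91906251 : ℝ) ≤ Real.Gamma (1 + 24 / 32) ∧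
    Real.Gamma (1 + 24 / 32) ≤ 0.91906254 := by
  have h1 := gam_lo 24 32 20 976607068 91906251 (10 ^ 8) 342907392 (by norm_num) (by norm_num)
    (by norm_num) (by norm_num) (by norm_num) (by norm_num [Finset.prod_range_succ, Nat.factorial])
  have h2 := gam_hi 24 32 20 976607069 91906254 (10 ^ 8) 342689280 (by norm_num) (by norm_num)
    (by norm_num) (by norm_num) (by norm_num) (by norm_num)
    (by norm_num [Finset.prod_range_succ, Nat.factorial])
  push_cast at h1 h2
  constructor
  · refine le_trans (le_of_eq ?_) h1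
    norm_num
  · refine le_trans h2 (le_of_eq ?_)
    norm_num

theorem one_add_3_8 : (0.91906251 : ℝ) ≤ Real.Gamma (1 + 3 * (24 / 96)) ∧
    Real.Gamma (1 + 3 * (24 / 96)) ≤ 0.91906254 := by
  have h : (1 : ℝ) + 3 * (24 / 96) = 1 + 24 / 32 := by norm_num
  rw [h]
  exact g_24_32

end Pool.Agent.Helper88.Gam
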