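import Pool.Agent.Helper88.Gam.Nodes

/-!
# Moments on `[1/6, 1/4]`

`goal_M4`: for `t ∈ [1/6, 1/4]`, with `m2 = π t / sin (π t)`, `m3 = Γ(1+2t) Γ(1-t)^2`,
`m4 = Γ(1+3t) Γ(1-t)^3`: `3 m2 - 2 - 0.006 ≤ m3 ≤ 3 m2 - 2` and
`m4 - 4 m3 + 6 m2 - 3 ≤ 2.6 (m2 - 1)^2 + 0.0035`.
-/

open Set

namespace Pool.Agent.Helper88.Gam

theorem m2_eq {t : ℝ} (h0 : 0 < t) :
    m2 t = Real.pi * t / Real.sin (Real.pi * t) := by
  unfold m2
  rw [add_comm 1 t, Real.Gamma_add_one h0.ne']
  have h := Real.Gamma_mul_Gamma_one_sub t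
  calc Real.Gamma (1 - t) * (t * Real.Gamma t) = t * (Real.Gamma t * Real.Gamma (1 - t)) := by ring
    _ = _ := by rw [h]; ring

theorem logGamma_conv {c x y a b : ℝ} (hc : 0 ≤ c) (hx : x ∈ Icc (0 : ℝ) (1 / 2))
    (hy : y ∈ Icc (0 : ℝ) (1 / 2)) (ha : 0 ≤ a) (hb : 0 ≤ b) (hab : a + b = 1) :
    Real.log (Real.Gamma (1 + c * (a * x + b * y))) ≤
      a * Real.log (Real.Gamma (1 + c * x)) + b * Real.log (Real.Gamma (1 + c * y)) := by
  have h1 : 0 < 1 + c * x := by have := mul_nonneg hc hx.1; linarith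
  have h2 : 0 < 1 + c * y := by have := mul_nonneg hc hy.1; linarith
  have h := Real.convexOn_log_Gamma.2 (mem_Ioi.2 h1) (mem_Ioi.2 h2) ha hb hab
  simp only [smul_eq_mul, Function.comp] at h
  have e : 1 + c * (a * x + b * y) = a * (1 + c * x) + b * (1 + c * y) := by
    linear_combination (-1 : ℝ) * hab
  rw [e]
  exact h

theorem logGamma_conv' {x y a b : ℝ} (hx : x ∈ Icc (0 : ℝ) (1 / 2))
    (hy : y ∈ Icc (0 : ℝ) (1 / 2)) (ha : 0 ≤ a) (hb : 0 ≤ b) (hab : a + b = 1) :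
    Real.log (Real.Gamma (1 - (a * x + b * y))) ≤
      a * Real.log (Real.Gamma (1 - x)) + b * Real.log (Real.Gamma (1 - y)) := by
  have h1 : 0 < 1 - x := by linarith [hx.2]
  have h2 : 0 < 1 - y := by linarith [hy.2]
  have h := Real.convexOn_log_Gamma.2 (mem_Ioi.2 h1) (mem_Ioi.2 h2) ha hb hab
  simp only [smul_eq_mul, Function.comp] at h
  have e : 1 - (a * x + b * y) = a * (1 - x) + b * (1 - y) := by
    linear_combination (-1 : ℝ) * hab
  rw [e]
  exact h

theorem exp_conv {u v w a b : ℝ} (ha : 0 ≤ a) (hb : 0 ≤ b) (hab : a + b = 1)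
    (h : w ≤ a * u + b * v) : Real.exp w ≤ a * Real.exp u + b * Real.exp v := by
  have h1 := convexOn_exp.2 (mem_univ u) (mem_univ v) ha hb hab
  simp only [smul_eq_mul] at h1
  exact (Real.exp_le_exp.2 h).trans h1

/-- `f` is the exponential of a convex function. -/
theorem conv_of_log {f g : ℝ → ℝ} (hf : ∀ t ∈ Icc (0 : ℝ) (1 / 2), f t = Real.exp (g t))
    (hg : ∀ x ∈ Icc (0 : ℝ) (1 / 2), ∀ y ∈ Icc (0 : ℝ) (1 / 2), ∀ a b : ℝ, 0 ≤ a → 0 ≤ b →
      a + b = 1 → g (a * x + b * y) ≤ a * g x + b * g y) :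
    ConvexOn ℝ (Icc (0 : ℝ) (1 / 2)) f := by
  refine ⟨convex_Icc _ _, ?_⟩
  intro x hx y hy a b ha hb hab
  have hm : a • x + b • y ∈ Icc (0 : ℝ) (1 / 2) := (convex_Icc _ _) hx hy ha hb hab
  rw [hf _ hm, hf x hx, hf y hy]
  simp only [smul_eq_mul]
  exact exp_conv ha hb hab (hg x hx y hy a b ha hb hab)

theorem convex_m2 : ConvexOn ℝ (Icc (0 : ℝ) (1 / 2)) m2 := by
  refine conv_of_log (g := fun t => Real.log (Real.Gamma (1 - t)) +
    Real.log (Real.Gamma (1 + 1 * t))) ?_ ?_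
  · intro t ht
    have h1 : 0 < Real.Gamma (1 - t) := Real.Gamma_pos_of_pos (by linarith [ht.2])
    have h2 : 0 < Real.Gamma (1 + 1 * t) := Real.Gamma_pos_of_pos (by linarith [ht.1])
    rw [Real.exp_add, Real.exp_log h1, Real.exp_log h2, one_mul]
    rfl
  · intro x hx y hy a b ha hb hab
    have h1 := logGamma_conv' hx hy ha hb hab
    have h2 := logGamma_conv (c := 1) zero_le_one hx hy ha hb hab
    linarith

theorem convex_m3 : ConvexOn ℝ (Icc (0 : ℝ) (1 / 2)) m3 := by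
  refine conv_of_log (g := fun t => Real.log (Real.Gamma (1 + 2 * t)) +
    (Real.log (Real.Gamma (1 - t)) + Real.log (Real.Gamma (1 - t)))) ?_ ?_
  · intro t ht
    have h1 : 0 < Real.Gamma (1 - t) := Real.Gamma_pos_of_pos (by linarith [ht.2])
    have h2 : 0 < Real.Gamma (1 + 2 * t) := Real.Gamma_pos_of_pos (by linarith [ht.1])
    rw [Real.exp_add, Real.exp_add, Real.exp_log h1, Real.exp_log h2, ← sq]
    rfl
  · intro x hx y hy a b ha hb hab
    have h1 := logGamma_conv' hx hy ha hb hab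
    have h2 := logGamma_conv (c := 2) zero_le_two hx hy ha hb hab
    linarith

theorem convex_m4 : ConvexOn ℝ (Icc (0 : ℝ) (1 / 2)) m4 := by
  refine conv_of_log (g := fun t => Real.log (Real.Gamma (1 + 3 * t)) +
    (Real.log (Real.Gamma (1 - t)) + Real.log (Real.Gamma (1 - t)) +
      Real.log (Real.Gamma (1 - t)))) ?_ ?_
  · intro t ht
    have h1 : 0 < Real.Gamma (1 - t) := Real.Gamma_pos_of_pos (by linarith [ht.2])
    have h2 : 0 < Real.Gamma (1 + 3 * t) := Real.Gamma_pos_of_pos (by linarith [ht.1])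
    rw [Real.exp_add, Real.exp_add, Real.exp_add, Real.exp_log h1, Real.exp_log h2]
    unfold m4
    ring
  · intro x hx y hy a b ha hb hab
    have h1 := logGamma_conv' hx hy ha hb hab
    have h2 := logGamma_conv (c := 3) (by norm_num) hx hy ha hb hab
    linarith

section chords

variable {f : ℝ → ℝ} (hf : ConvexOn ℝ (Icc (0 : ℝ) (1 / 2)) f)
include hf

/-- Chord. -/
theorem up_num {a b t l A B : ℝ} (ha : a ∈ Icc (0 : ℝ) (1 / 2)) (hb : b ∈ Icc (0 : ℝ) (1 / 2))
    (hl0 : 0 ≤ l) (hl1 : l ≤ 1) (ht : t = (1 - l) * a + l * b) (hA : f a ≤ A) (hB : f b ≤ B) :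
    f t ≤ (1 - l) * A + l * B := by
  have h := hf.2 ha hb (sub_nonneg.2 hl1) hl0 (by ring)
  simp only [smul_eq_mul] at h
  rw [ht]
  have h1 := mul_le_mul_of_nonneg_left hA (sub_nonneg.2 hl1)
  have h2 := mul_le_mul_of_nonneg_left hB hl0
  linarith

/-- Chord of `[z, a]` extrapolated to the right. -/
theorem lo_left {a b z t l A Z : ℝ} (hz : z ∈ Icc (0 : ℝ) (1 / 2)) (ha : a ∈ Icc (0 : ℝ) (1 / 2))
    (hb : b ∈ Icc (0 : ℝ) (1 / 2))
    (hza : b - a = a - z) (hl0 : 0 ≤ l) (hl1 : l ≤ 1) (ht : t = (1 - l) * a + l * b)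
    (hA : A ≤ f a) (hZ : f z ≤ Z) : (1 + l) * A - l * Z ≤ f t := by
  have htm : t ∈ Icc (0 : ℝ) (1 / 2) := by
    rw [ht]
    exact (convex_Icc (0 : ℝ) (1 / 2)) ha hb (sub_nonneg.2 hl1) hl0 (by ring)
  have hp : 0 < 1 + l := by linarith
  have w1 : 0 ≤ 1 / (1 + l) := by positivity
  have w2 : 0 ≤ l / (1 + l) := by positivity
  have w3 : 1 / (1 + l) + l / (1 + l) = 1 := by field_simp
  have h := hf.2 htm hz w1 w2 w3
  simp only [smul_eq_mul] at h
  have e : 1 / (1 + l) * t + l / (1 + l) * z = a := by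
    rw [ht]
    field_simp
    have : b = 2 * a - z := by linarith
    rw [this]; ring
  rw [e] at h
  have h2 : (1 + l) * f a ≤ f t + l * f z := by
    have := mul_le_mul_of_nonneg_left h hp.le
    calc (1 + l) * f a ≤ (1 + l) * (1 / (1 + l) * f t + l / (1 + l) * f z) := this
      _ = f t + l * f z := by field_simp
  have h3 := mul_le_mul_of_nonneg_left hA hp.le
  have h4 := mul_le_mul_of_nonneg_left hZ hl0
  linarith

/-- Chord of `[b, z]` extrapolated to the left. -/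
theorem lo_right {a b z t l B Z : ℝ} (hz : z ∈ Icc (0 : ℝ) (1 / 2)) (ha : a ∈ Icc (0 : ℝ) (1 / 2))
    (hb : b ∈ Icc (0 : ℝ) (1 / 2))
    (hza : z - b = b - a) (hl0 : 0 ≤ l) (hl1 : l ≤ 1) (ht : t = (1 - l) * a + l * b)
    (hB : B ≤ f b) (hZ : f z ≤ Z) : (2 - l) * B - (1 - l) * Z ≤ f t := by
  have h := lo_left hf (a := b) (b := a) (z := z) (t := t) (l := 1 - l) (A := B) (Z := Z) hz hb ha
    (by linarith) (by linarith) (by linarith) (by rw [ht]; ring) hB hZ
  have e : (1 + (1 - l)) * B - (1 - l) * Z = (2 - l) * B - (1 - l) * Z := by ring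
  rwa [e] at h

end chords

theorem case_24_0 {t l : ℝ} (hl0 : 0 ≤ l) (hl1 : l ≤ 1) (hlh : l ≤ 1 / 2)
    (ht : t = (1 - l) * (24 / 144) + l * (25 / 144)) :
    3 * m2 t - 2 - 0.006 ≤ m3 t ∧ m3 t ≤ 3 * m2 t - 2 ∧
      m4 t - 4 * m3 t + 6 * m2 t - 3 ≤ 2.6 * (m2 t - 1) ^ 2 + 0.0035 := by
  have na := node_24
  have nb := node_25
  have nz := node_23
  have u2 := up_num convex_m2 (a := 24 / 144) (b := 25 / 144) (by constructor <;> norm_num)
    (by constructor <;> norm_num) hl0 hl1 ht na.1.2 nb.1.2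
  have u3 := up_num convex_m3 (a := 24 / 144) (b := 25 / 144) (by constructor <;> norm_num)
    (by constructor <;> norm_num) hl0 hl1 ht na.2.1.2 nb.2.1.2
  have u4 := up_num convex_m4 (a := 24 / 144) (b := 25 / 144) (by constructor <;> norm_num)
    (by constructor <;> norm_num) hl0 hl1 ht na.2.2.2 nb.2.2.2
  have l2 := lo_left convex_m2 (z := 23 / 144) (a := 24 / 144) (b := 25 / 144) (by constructor <;> norm_num)
    (by constructor <;> norm_num) (by constructor <;> norm_num) (by norm_num) hl0 hl1 ht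
    na.1.1 nz.1.2
  have l3 := lo_left convex_m3 (z := 23 / 144) (a := 24 / 144) (b := 25 / 144) (by constructor <;> norm_num)
    (by constructor <;> norm_num) (by constructor <;> norm_num) (by norm_num) hl0 hl1 ht
    na.2.1.1 nz.2.1.2
  have hk : 2 * 0.0471975 * (m2 t - 1) - 0.0471975 ^ 2 ≤ (m2 t - 1) ^ 2 := by
    nlinarith [sq_nonneg (m2 t - 1 - 0.0471975)]
  refine ⟨?_, ?_, ?_⟩
  · norm_num at u2 l3 ⊢
    linarith
  · norm_num at l2 u3 ⊢
    linarith
  · norm_num at u2 u4 l3 hk ⊢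
    linarith

theorem case_24_1 {t l : ℝ} (hl0 : 0 ≤ l) (hl1 : l ≤ 1) (hlh : 1 / 2 ≤ l)
    (ht : t = (1 - l) * (24 / 144) + l * (25 / 144)) :
    3 * m2 t - 2 - 0.006 ≤ m3 t ∧ m3 t ≤ 3 * m2 t - 2 ∧
      m4 t - 4 * m3 t + 6 * m2 t - 3 ≤ 2.6 * (m2 t - 1) ^ 2 + 0.0035 := by
  have na := node_24
  have nb := node_25
  have nz := node_26
  have u2 := up_num convex_m2 (a := 24 / 144) (b := 25 / 144) (by constructor <;> norm_num)
    (by constructor <;> norm_num) hl0 hl1 ht na.1.2 nb.1.2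
  have u3 := up_num convex_m3 (a := 24 / 144) (b := 25 / 144) (by constructor <;> norm_num)
    (by constructor <;> norm_num) hl0 hl1 ht na.2.1.2 nb.2.1.2
  have u4 := up_num convex_m4 (a := 24 / 144) (b := 25 / 144) (by constructor <;> norm_num)
    (by constructor <;> norm_num) hl0 hl1 ht na.2.2.2 nb.2.2.2
  have l2 := lo_right convex_m2 (z := 26 / 144) (a := 24 / 144) (b := 25 / 144) (by constructor <;> norm_num)
    (by constructor <;> norm_num) (by constructor <;> norm_num) (by norm_num) hl0 hl1 ht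
    nb.1.1 nz.1.2
  have l3 := lo_right convex_m3 (z := 26 / 144) (a := 24 / 144) (b := 25 / 144) (by constructor <;> norm_num)
    (by constructor <;> norm_num) (by constructor <;> norm_num) (by norm_num) hl0 hl1 ht
    nb.2.1.1 nz.2.1.2
  have hk : 2 * 0.0513559 * (m2 t - 1) - 0.0513559 ^ 2 ≤ (m2 t - 1) ^ 2 := by
    nlinarith [sq_nonneg (m2 t - 1 - 0.0513559)]
  refine ⟨?_, ?_, ?_⟩
  · norm_num at u2 l3 ⊢
    linarith
  · norm_num at l2 u3 ⊢
    linarith
  · norm_num at u2 u4 l3 hk ⊢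
    linarith

theorem case_25_0 {t l : ℝ} (hl0 : 0 ≤ l) (hl1 : l ≤ 1) (hlh : l ≤ 1 / 2)
    (ht : t = (1 - l) * (25 / 144) + l * (26 / 144)) :
    3 * m2 t - 2 - 0.006 ≤ m3 t ∧ m3 t ≤ 3 * m2 t - 2 ∧
      m4 t - 4 * m3 t + 6 * m2 t - 3 ≤ 2.6 * (m2 t - 1) ^ 2 + 0.0035 := by
  have na := node_25
  have nb := node_26
  have nz := node_24
  have u2 := up_num convex_m2 (a := 25 / 144) (b := 26 / 144) (by constructor <;> norm_num)
    (by constructor <;> norm_num) hl0 hl1 ht na.1.2 nb.1.2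
  have u3 := up_num convex_m3 (a := 25 / 144) (b := 26 / 144) (by constructor <;> norm_num)
    (by constructor <;> norm_num) hl0 hl1 ht na.2.1.2 nb.2.1.2
  have u4 := up_num convex_m4 (a := 25 / 144) (b := 26 / 144) (by constructor <;> norm_num)
    (by constructor <;> norm_num) hl0 hl1 ht na.2.2.2 nb.2.2.2
  have l2 := lo_left convex_m2 (z := 24 / 144) (a := 25 / 144) (b := 26 / 144) (by constructor <;> norm_num)
    (by constructor <;> norm_num) (by constructor <;> norm_num) (by norm_num) hl0 hl1 ht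
    na.1.1 nz.1.2
  have l3 := lo_left convex_m3 (z := 24 / 144) (a := 25 / 144) (b := 26 / 144) (by constructor <;> norm_num)
    (by constructor <;> norm_num) (by constructor <;> norm_num) (by norm_num) hl0 hl1 ht
    na.2.1.1 nz.2.1.2
  have hk : 2 * 0.0513559 * (m2 t - 1) - 0.0513559 ^ 2 ≤ (m2 t - 1) ^ 2 := by
    nlinarith [sq_nonneg (m2 t - 1 - 0.0513559)]
  refine ⟨?_, ?_, ?_⟩
  · norm_num at u2 l3 ⊢
    linarith
  · norm_num at l2 u3 ⊢
    linarith
  · norm_num at u2 u4 l3 hk ⊢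
    linarith

theorem case_25_1 {t l : ℝ} (hl0 : 0 ≤ l) (hl1 : l ≤ 1) (hlh : 1 / 2 ≤ l)
    (ht : t = (1 - l) * (25 / 144) + l * (26 / 144)) :
    3 * m2 t - 2 - 0.006 ≤ m3 t ∧ m3 t ≤ 3 * m2 t - 2 ∧
      m4 t - 4 * m3 t + 6 * m2 t - 3 ≤ 2.6 * (m2 t - 1) ^ 2 + 0.0035 := by
  have na := node_25
  have nb := node_26
  have nz := node_27
  have u2 := up_num convex_m2 (a := 25 / 144) (b := 26 / 144) (by constructor <;> norm_num)
    (by constructor <;> norm_num) hl0 hl1 ht na.1.2 nb.1.2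
  have u3 := up_num convex_m3 (a := 25 / 144) (b := 26 / 144) (by constructor <;> norm_num)
    (by constructor <;> norm_num) hl0 hl1 ht na.2.1.2 nb.2.1.2
  have u4 := up_num convex_m4 (a := 25 / 144) (b := 26 / 144) (by constructor <;> norm_num)
    (by constructor <;> norm_num) hl0 hl1 ht na.2.2.2 nb.2.2.2
  have l2 := lo_right convex_m2 (z := 27 / 144) (a := 25 / 144) (b := 26 / 144) (by constructor <;> norm_num)
    (by constructor <;> norm_num) (by constructor <;> norm_num) (by norm_num) hl0 hl1 ht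
    nb.1.1 nz.1.2
  have l3 := lo_right convex_m3 (z := 27 / 144) (a := 25 / 144) (b := 26 / 144) (by constructor <;> norm_num)
    (by constructor <;> norm_num) (by constructor <;> norm_num) (by norm_num) hl0 hl1 ht
    nb.2.1.1 nz.2.1.2
  have hk : 2 * 0.0557089 * (m2 t - 1) - 0.0557089 ^ 2 ≤ (m2 t - 1) ^ 2 := by
    nlinarith [sq_nonneg (m2 t - 1 - 0.0557089)]
  refine ⟨?_, ?_, ?_⟩
  · norm_num at u2 l3 ⊢
    linarith
  · norm_num at l2 u3 ⊢
    linarith
  · norm_num at u2 u4 l3 hk ⊢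
    linarith

theorem case_26_0 {t l : ℝ} (hl0 : 0 ≤ l) (hl1 : l ≤ 1) (hlh : l ≤ 1 / 2)
    (ht : t = (1 - l) * (26 / 144) + l * (27 / 144)) :
    3 * m2 t - 2 - 0.006 ≤ m3 t ∧ m3 t ≤ 3 * m2 t - 2 ∧
      m4 t - 4 * m3 t + 6 * m2 t - 3 ≤ 2.6 * (m2 t - 1) ^ 2 + 0.0035 := by
  have na := node_26
  have nb := node_27
  have nz := node_25
  have u2 := up_num convex_m2 (a := 26 / 144) (b := 27 / 144) (by constructor <;> norm_num)
    (by constructor <;> norm_num) hl0 hl1 ht na.1.2 nb.1.2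
  have u3 := up_num convex_m3 (a := 26 / 144) (b := 27 / 144) (by constructor <;> norm_num)
    (by constructor <;> norm_num) hl0 hl1 ht na.2.1.2 nb.2.1.2
  have u4 := up_num convex_m4 (a := 26 / 144) (b := 27 / 144) (by constructor <;> norm_num)
    (by constructor <;> norm_num) hl0 hl1 ht na.2.2.2 nb.2.2.2
  have l2 := lo_left convex_m2 (z := 25 / 144) (a := 26 / 144) (b := 27 / 144) (by constructor <;> norm_num)
    (by constructor <;> norm_num) (by constructor <;> norm_num) (by norm_num) hl0 hl1 ht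
    na.1.1 nz.1.2
  have l3 := lo_left convex_m3 (z := 25 / 144) (a := 26 / 144) (b := 27 / 144) (by constructor <;> norm_num)
    (by constructor <;> norm_num) (by constructor <;> norm_num) (by norm_num) hl0 hl1 ht
    na.2.1.1 nz.2.1.2
  have hk : 2 * 0.0557089 * (m2 t - 1) - 0.0557089 ^ 2 ≤ (m2 t - 1) ^ 2 := by
    nlinarith [sq_nonneg (m2 t - 1 - 0.0557089)]
  refine ⟨?_, ?_, ?_⟩
  · norm_num at u2 l3 ⊢
    linarith
  · norm_num at l2 u3 ⊢
    linarith
  · norm_num at u2 u4 l3 hk ⊢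
    linarith

theorem case_26_1 {t l : ℝ} (hl0 : 0 ≤ l) (hl1 : l ≤ 1) (hlh : 1 / 2 ≤ l)
    (ht : t = (1 - l) * (26 / 144) + l * (27 / 144)) :
    3 * m2 t - 2 - 0.006 ≤ m3 t ∧ m3 t ≤ 3 * m2 t - 2 ∧
      m4 t - 4 * m3 t + 6 * m2 t - 3 ≤ 2.6 * (m2 t - 1) ^ 2 + 0.0035 := by
  have na := node_26
  have nb := node_27
  have nz := node_28
  have u2 := up_num convex_m2 (a := 26 / 144) (b := 27 / 144) (by constructor <;> norm_num)
    (by constructor <;> norm_num) hl0 hl1 ht na.1.2 nb.1.2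
  have u3 := up_num convex_m3 (a := 26 / 144) (b := 27 / 144) (by constructor <;> norm_num)
    (by constructor <;> norm_num) hl0 hl1 ht na.2.1.2 nb.2.1.2
  have u4 := up_num convex_m4 (a := 26 / 144) (b := 27 / 144) (by constructor <;> norm_num)
    (by constructor <;> norm_num) hl0 hl1 ht na.2.2.2 nb.2.2.2
  have l2 := lo_right convex_m2 (z := 28 / 144) (a := 26 / 144) (b := 27 / 144) (by constructor <;> norm_num)
    (by constructor <;> norm_num) (by constructor <;> norm_num) (by norm_num) hl0 hl1 ht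
    nb.1.1 nz.1.2
  have l3 := lo_right convex_m3 (z := 28 / 144) (a := 26 / 144) (b := 27 / 144) (by constructor <;> norm_num)
    (by constructor <;> norm_num) (by constructor <;> norm_num) (by norm_num) hl0 hl1 ht
    nb.2.1.1 nz.2.1.2
  have hk : 2 * 0.0602594 * (m2 t - 1) - 0.0602594 ^ 2 ≤ (m2 t - 1) ^ 2 := by
    nlinarith [sq_nonneg (m2 t - 1 - 0.0602594)]
  refine ⟨?_, ?_, ?_⟩
  · norm_num at u2 l3 ⊢
    linarith
  · norm_num at l2 u3 ⊢
    linarith
  · norm_num at u2 u4 l3 hk ⊢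
    linarith

theorem case_27_0 {t l : ℝ} (hl0 : 0 ≤ l) (hl1 : l ≤ 1) (hlh : l ≤ 1 / 2)
    (ht : t = (1 - l) * (27 / 144) + l * (28 / 144)) :
    3 * m2 t - 2 - 0.006 ≤ m3 t ∧ m3 t ≤ 3 * m2 t - 2 ∧
      m4 t - 4 * m3 t + 6 * m2 t - 3 ≤ 2.6 * (m2 t - 1) ^ 2 + 0.0035 := by
  have na := node_27
  have nb := node_28
  have nz := node_26
  have u2 := up_num convex_m2 (a := 27 / 144) (b := 28 / 144) (by constructor <;> norm_num)
    (by constructor <;> norm_num) hl0 hl1 ht na.1.2 nb.1.2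
  have u3 := up_num convex_m3 (a := 27 / 144) (b := 28 / 144) (by constructor <;> norm_num)
    (by constructor <;> norm_num) hl0 hl1 ht na.2.1.2 nb.2.1.2
  have u4 := up_num convex_m4 (a := 27 / 144) (b := 28 / 144) (by constructor <;> norm_num)
    (by constructor <;> norm_num) hl0 hl1 ht na.2.2.2 nb.2.2.2
  have l2 := lo_left convex_m2 (z := 26 / 144) (a := 27 / 144) (b := 28 / 144) (by constructor <;> norm_num)
    (by constructor <;> norm_num) (by constructor <;> norm_num) (by norm_num) hl0 hl1 ht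
    na.1.1 nz.1.2
  have l3 := lo_left convex_m3 (z := 26 / 144) (a := 27 / 144) (b := 28 / 144) (by constructor <;> norm_num)
    (by constructor <;> norm_num) (by constructor <;> norm_num) (by norm_num) hl0 hl1 ht
    na.2.1.1 nz.2.1.2
  have hk : 2 * 0.0602594 * (m2 t - 1) - 0.0602594 ^ 2 ≤ (m2 t - 1) ^ 2 := by
    nlinarith [sq_nonneg (m2 t - 1 - 0.0602594)]
  refine ⟨?_, ?_, ?_⟩
  · norm_num at u2 l3 ⊢
    linarith
  · norm_num at l2 u3 ⊢
    linarith
  · norm_num at u2 u4 l3 hk ⊢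
    linarith

theorem case_27_1 {t l : ℝ} (hl0 : 0 ≤ l) (hl1 : l ≤ 1) (hlh : 1 / 2 ≤ l)
    (ht : t = (1 - l) * (27 / 144) + l * (28 / 144)) :
    3 * m2 t - 2 - 0.006 ≤ m3 t ∧ m3 t ≤ 3 * m2 t - 2 ∧
      m4 t - 4 * m3 t + 6 * m2 t - 3 ≤ 2.6 * (m2 t - 1) ^ 2 + 0.0035 := by
  have na := node_27
  have nb := node_28
  have nz := node_29
  have u2 := up_num convex_m2 (a := 27 / 144) (b := 28 / 144) (by constructor <;> norm_num)
    (by constructor <;> norm_num) hl0 hl1 ht na.1.2 nb.1.2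
  have u3 := up_num convex_m3 (a := 27 / 144) (b := 28 / 144) (by constructor <;> norm_num)
    (by constructor <;> norm_num) hl0 hl1 ht na.2.1.2 nb.2.1.2
  have u4 := up_num convex_m4 (a := 27 / 144) (b := 28 / 144) (by constructor <;> norm_num)
    (by constructor <;> norm_num) hl0 hl1 ht na.2.2.2 nb.2.2.2
  have l2 := lo_right convex_m2 (z := 29 / 144) (a := 27 / 144) (b := 28 / 144) (by constructor <;> norm_num)
    (by constructor <;> norm_num) (by constructor <;> norm_num) (by norm_num) hl0 hl1 ht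
    nb.1.1 nz.1.2
  have l3 := lo_right convex_m3 (z := 29 / 144) (a := 27 / 144) (b := 28 / 144) (by constructor <;> norm_num)
    (by constructor <;> norm_num) (by constructor <;> norm_num) (by norm_num) hl0 hl1 ht
    nb.2.1.1 nz.2.1.2
  have hk : 2 * 0.0650110 * (m2 t - 1) - 0.0650110 ^ 2 ≤ (m2 t - 1) ^ 2 := by
    nlinarith [sq_nonneg (m2 t - 1 - 0.0650110)]
  refine ⟨?_, ?_, ?_⟩
  · norm_num at u2 l3 ⊢
    linarith
  · norm_num at l2 u3 ⊢
    linarith
  · norm_num at u2 u4 l3 hk ⊢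
    linarith

theorem case_28_0 {t l : ℝ} (hl0 : 0 ≤ l) (hl1 : l ≤ 1) (hlh : l ≤ 1 / 2)
    (ht : t = (1 - l) * (28 / 144) + l * (29 / 144)) :
    3 * m2 t - 2 - 0.006 ≤ m3 t ∧ m3 t ≤ 3 * m2 t - 2 ∧
      m4 t - 4 * m3 t + 6 * m2 t - 3 ≤ 2.6 * (m2 t - 1) ^ 2 + 0.0035 := by
  have na := node_28
  have nb := node_29
  have nz := node_27
  have u2 := up_num convex_m2 (a := 28 / 144) (b := 29 / 144) (by constructor <;> norm_num)
    (by constructor <;> norm_num) hl0 hl1 ht na.1.2 nb.1.2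
  have u3 := up_num convex_m3 (a := 28 / 144) (b := 29 / 144) (by constructor <;> norm_num)
    (by constructor <;> norm_num) hl0 hl1 ht na.2.1.2 nb.2.1.2
  have u4 := up_num convex_m4 (a := 28 / 144) (b := 29 / 144) (by constructor <;> norm_num)
    (by constructor <;> norm_num) hl0 hl1 ht na.2.2.2 nb.2.2.2
  have l2 := lo_left convex_m2 (z := 27 / 144) (a := 28 / 144) (b := 29 / 144) (by constructor <;> norm_num)
    (by constructor <;> norm_num) (by constructor <;> norm_num) (by norm_num) hl0 hl1 ht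
    na.1.1 nz.1.2
  have l3 := lo_left convex_m3 (z := 27 / 144) (a := 28 / 144) (b := 29 / 144) (by constructor <;> norm_num)
    (by constructor <;> norm_num) (by constructor <;> norm_num) (by norm_num) hl0 hl1 ht
    na.2.1.1 nz.2.1.2
  have hk : 2 * 0.0650110 * (m2 t - 1) - 0.0650110 ^ 2 ≤ (m2 t - 1) ^ 2 := by
    nlinarith [sq_nonneg (m2 t - 1 - 0.0650110)]
  refine ⟨?_, ?_, ?_⟩
  · norm_num at u2 l3 ⊢
    linarith
  · norm_num at l2 u3 ⊢
    linarith
  · norm_num at u2 u4 l3 hk ⊢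
    linarith

theorem case_28_1 {t l : ℝ} (hl0 : 0 ≤ l) (hl1 : l ≤ 1) (hlh : 1 / 2 ≤ l)
    (ht : t = (1 - l) * (28 / 144) + l * (29 / 144)) :
    3 * m2 t - 2 - 0.006 ≤ m3 t ∧ m3 t ≤ 3 * m2 t - 2 ∧
      m4 t - 4 * m3 t + 6 * m2 t - 3 ≤ 2.6 * (m2 t - 1) ^ 2 + 0.0035 := by
  have na := node_28
  have nb := node_29
  have nz := node_30
  have u2 := up_num convex_m2 (a := 28 / 144) (b := 29 / 144) (by constructor <;> norm_num)
    (by constructor <;> norm_num) hl0 hl1 ht na.1.2 nb.1.2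
  have u3 := up_num convex_m3 (a := 28 / 144) (b := 29 / 144) (by constructor <;> norm_num)
    (by constructor <;> norm_num) hl0 hl1 ht na.2.1.2 nb.2.1.2
  have u4 := up_num convex_m4 (a := 28 / 144) (b := 29 / 144) (by constructor <;> norm_num)
    (by constructor <;> norm_num) hl0 hl1 ht na.2.2.2 nb.2.2.2
  have l2 := lo_right convex_m2 (z := 30 / 144) (a := 28 / 144) (b := 29 / 144) (by constructor <;> norm_num)
    (by constructor <;> norm_num) (by constructor <;> norm_num) (by norm_num) hl0 hl1 ht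
    nb.1.1 nz.1.2
  have l3 := lo_right convex_m3 (z := 30 / 144) (a := 28 / 144) (b := 29 / 144) (by constructor <;> norm_num)
    (by constructor <;> norm_num) (by constructor <;> norm_num) (by norm_num) hl0 hl1 ht
    nb.2.1.1 nz.2.1.2
  have hk : 2 * 0.0699670 * (m2 t - 1) - 0.0699670 ^ 2 ≤ (m2 t - 1) ^ 2 := by
    nlinarith [sq_nonneg (m2 t - 1 - 0.0699670)]
  refine ⟨?_, ?_, ?_⟩
  · norm_num at u2 l3 ⊢
    linarith
  · norm_num at l2 u3 ⊢
    linarith
  · norm_num at u2 u4 l3 hk ⊢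
    linarith

theorem case_29_0 {t l : ℝ} (hl0 : 0 ≤ l) (hl1 : l ≤ 1) (hlh : l ≤ 1 / 2)
    (ht : t = (1 - l) * (29 / 144) + l * (30 / 144)) :
    3 * m2 t - 2 - 0.006 ≤ m3 t ∧ m3 t ≤ 3 * m2 t - 2 ∧
      m4 t - 4 * m3 t + 6 * m2 t - 3 ≤ 2.6 * (m2 t - 1) ^ 2 + 0.0035 := by
  have na := node_29
  have nb := node_30
  have nz := node_28
  have u2 := up_num convex_m2 (a := 29 / 144) (b := 30 / 144) (by constructor <;> norm_num)
    (by constructor <;> norm_num) hl0 hl1 ht na.1.2 nb.1.2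
  have u3 := up_num convex_m3 (a := 29 / 144) (b := 30 / 144) (by constructor <;> norm_num)
    (by constructor <;> norm_num) hl0 hl1 ht na.2.1.2 nb.2.1.2
  have u4 := up_num convex_m4 (a := 29 / 144) (b := 30 / 144) (by constructor <;> norm_num)
    (by constructor <;> norm_num) hl0 hl1 ht na.2.2.2 nb.2.2.2
  have l2 := lo_left convex_m2 (z := 28 / 144) (a := 29 / 144) (b := 30 / 144) (by constructor <;> norm_num)
    (by constructor <;> norm_num) (by constructor <;> norm_num) (by norm_num) hl0 hl1 ht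
    na.1.1 nz.1.2
  have l3 := lo_left convex_m3 (z := 28 / 144) (a := 29 / 144) (b := 30 / 144) (by constructor <;> norm_num)
    (by constructor <;> norm_num) (by constructor <;> norm_num) (by norm_num) hl0 hl1 ht
    na.2.1.1 nz.2.1.2
  have hk : 2 * 0.0699670 * (m2 t - 1) - 0.0699670 ^ 2 ≤ (m2 t - 1) ^ 2 := by
    nlinarith [sq_nonneg (m2 t - 1 - 0.0699670)]
  refine ⟨?_, ?_, ?_⟩
  · norm_num at u2 l3 ⊢
    linarith
  · norm_num at l2 u3 ⊢
    linarith
  · norm_num at u2 u4 l3 hk ⊢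
    linarith

theorem case_29_1 {t l : ℝ} (hl0 : 0 ≤ l) (hl1 : l ≤ 1) (hlh : 1 / 2 ≤ l)
    (ht : t = (1 - l) * (29 / 144) + l * (30 / 144)) :
    3 * m2 t - 2 - 0.006 ≤ m3 t ∧ m3 t ≤ 3 * m2 t - 2 ∧
      m4 t - 4 * m3 t + 6 * m2 t - 3 ≤ 2.6 * (m2 t - 1) ^ 2 + 0.0035 := by
  have na := node_29
  have nb := node_30
  have nz := node_31
  have u2 := up_num convex_m2 (a := 29 / 144) (b := 30 / 144) (by constructor <;> norm_num)
    (by constructor <;> norm_num) hl0 hl1 ht na.1.2 nb.1.2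
  have u3 := up_num convex_m3 (a := 29 / 144) (b := 30 / 144) (by constructor <;> norm_num)
    (by constructor <;> norm_num) hl0 hl1 ht na.2.1.2 nb.2.1.2
  have u4 := up_num convex_m4 (a := 29 / 144) (b := 30 / 144) (by constructor <;> norm_num)
    (by constructor <;> norm_num) hl0 hl1 ht na.2.2.2 nb.2.2.2
  have l2 := lo_right convex_m2 (z := 31 / 144) (a := 29 / 144) (b := 30 / 144) (by constructor <;> norm_num)
    (by constructor <;> norm_num) (by constructor <;> norm_num) (by norm_num) hl0 hl1 ht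
    nb.1.1 nz.1.2
  have l3 := lo_right convex_m3 (z := 31 / 144) (a := 29 / 144) (b := 30 / 144) (by constructor <;> norm_num)
    (by constructor <;> norm_num) (by constructor <;> norm_num) (by norm_num) hl0 hl1 ht
    nb.2.1.1 nz.2.1.2
  have hk : 2 * 0.0751312 * (m2 t - 1) - 0.0751312 ^ 2 ≤ (m2 t - 1) ^ 2 := by
    nlinarith [sq_nonneg (m2 t - 1 - 0.0751312)]
  refine ⟨?_, ?_, ?_⟩
  · norm_num at u2 l3 ⊢
    linarith
  · norm_num at l2 u3 ⊢
    linarith
  · norm_num at u2 u4 l3 hk ⊢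
    linarith

theorem case_30_0 {t l : ℝ} (hl0 : 0 ≤ l) (hl1 : l ≤ 1) (hlh : l ≤ 1 / 2)
    (ht : t = (1 - l) * (30 / 144) + l * (31 / 144)) :
    3 * m2 t - 2 - 0.006 ≤ m3 t ∧ m3 t ≤ 3 * m2 t - 2 ∧
      m4 t - 4 * m3 t + 6 * m2 t - 3 ≤ 2.6 * (m2 t - 1) ^ 2 + 0.0035 := by
  have na := node_30
  have nb := node_31
  have nz := node_29
  have u2 := up_num convex_m2 (a := 30 / 144) (b := 31 / 144) (by constructor <;> norm_num)
    (by constructor <;> norm_num) hl0 hl1 ht na.1.2 nb.1.2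
  have u3 := up_num convex_m3 (a := 30 / 144) (b := 31 / 144) (by constructor <;> norm_num)
    (by constructor <;> norm_num) hl0 hl1 ht na.2.1.2 nb.2.1.2
  have u4 := up_num convex_m4 (a := 30 / 144) (b := 31 / 144) (by constructor <;> norm_num)
    (by constructor <;> norm_num) hl0 hl1 ht na.2.2.2 nb.2.2.2
  have l2 := lo_left convex_m2 (z := 29 / 144) (a := 30 / 144) (b := 31 / 144) (by constructor <;> norm_num)
    (by constructor <;> norm_num) (by constructor <;> norm_num) (by norm_num) hl0 hl1 ht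
    na.1.1 nz.1.2
  have l3 := lo_left convex_m3 (z := 29 / 144) (a := 30 / 144) (b := 31 / 144) (by constructor <;> norm_num)
    (by constructor <;> norm_num) (by constructor <;> norm_num) (by norm_num) hl0 hl1 ht
    na.2.1.1 nz.2.1.2
  have hk : 2 * 0.0751312 * (m2 t - 1) - 0.0751312 ^ 2 ≤ (m2 t - 1) ^ 2 := by
    nlinarith [sq_nonneg (m2 t - 1 - 0.0751312)]
  refine ⟨?_, ?_, ?_⟩
  · norm_num at u2 l3 ⊢
    linarith
  · norm_num at l2 u3 ⊢
    linarith
  · norm_num at u2 u4 l3 hk ⊢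
    linarith

theorem case_30_1 {t l : ℝ} (hl0 : 0 ≤ l) (hl1 : l ≤ 1) (hlh : 1 / 2 ≤ l)
    (ht : t = (1 - l) * (30 / 144) + l * (31 / 144)) :
    3 * m2 t - 2 - 0.006 ≤ m3 t ∧ m3 t ≤ 3 * m2 t - 2 ∧
      m4 t - 4 * m3 t + 6 * m2 t - 3 ≤ 2.6 * (m2 t - 1) ^ 2 + 0.0035 := by
  have na := node_30
  have nb := node_31
  have nz := node_32
  have u2 := up_num convex_m2 (a := 30 / 144) (b := 31 / 144) (by constructor <;> norm_num)
    (by constructor <;> norm_num) hl0 hl1 ht na.1.2 nb.1.2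
  have u3 := up_num convex_m3 (a := 30 / 144) (b := 31 / 144) (by constructor <;> norm_num)
    (by constructor <;> norm_num) hl0 hl1 ht na.2.1.2 nb.2.1.2
  have u4 := up_num convex_m4 (a := 30 / 144) (b := 31 / 144) (by constructor <;> norm_num)
    (by constructor <;> norm_num) hl0 hl1 ht na.2.2.2 nb.2.2.2
  have l2 := lo_right convex_m2 (z := 32 / 144) (a := 30 / 144) (b := 31 / 144) (by constructor <;> norm_num)
    (by constructor <;> norm_num) (by constructor <;> norm_num) (by norm_num) hl0 hl1 ht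
    nb.1.1 nz.1.2
  have l3 := lo_right convex_m3 (z := 32 / 144) (a := 30 / 144) (b := 31 / 144) (by constructor <;> norm_num)
    (by constructor <;> norm_num) (by constructor <;> norm_num) (by norm_num) hl0 hl1 ht
    nb.2.1.1 nz.2.1.2
  have hk : 2 * 0.0805075 * (m2 t - 1) - 0.0805075 ^ 2 ≤ (m2 t - 1) ^ 2 := by
    nlinarith [sq_nonneg (m2 t - 1 - 0.0805075)]
  refine ⟨?_, ?_, ?_⟩
  · norm_num at u2 l3 ⊢
    linarith
  · norm_num at l2 u3 ⊢
    linarith
  · norm_num at u2 u4 l3 hk ⊢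
    linarith

theorem case_31_0 {t l : ℝ} (hl0 : 0 ≤ l) (hl1 : l ≤ 1) (hlh : l ≤ 1 / 2)
    (ht : t = (1 - l) * (31 / 144) + l * (32 / 144)) :
    3 * m2 t - 2 - 0.006 ≤ m3 t ∧ m3 t ≤ 3 * m2 t - 2 ∧
      m4 t - 4 * m3 t + 6 * m2 t - 3 ≤ 2.6 * (m2 t - 1) ^ 2 + 0.0035 := by
  have na := node_31
  have nb := node_32
  have nz := node_30
  have u2 := up_num convex_m2 (a := 31 / 144) (b := 32 / 144) (by constructor <;> norm_num)
    (by constructor <;> norm_num) hl0 hl1 ht na.1.2 nb.1.2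
  have u3 := up_num convex_m3 (a := 31 / 144) (b := 32 / 144) (by constructor <;> norm_num)
    (by constructor <;> norm_num) hl0 hl1 ht na.2.1.2 nb.2.1.2
  have u4 := up_num convex_m4 (a := 31 / 144) (b := 32 / 144) (by constructor <;> norm_num)
    (by constructor <;> norm_num) hl0 hl1 ht na.2.2.2 nb.2.2.2
  have l2 := lo_left convex_m2 (z := 30 / 144) (a := 31 / 144) (b := 32 / 144) (by constructor <;> norm_num)
    (by constructor <;> norm_num) (by constructor <;> norm_num) (by norm_num) hl0 hl1 ht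
    na.1.1 nz.1.2
  have l3 := lo_left convex_m3 (z := 30 / 144) (a := 31 / 144) (b := 32 / 144) (by constructor <;> norm_num)
    (by constructor <;> norm_num) (by constructor <;> norm_num) (by norm_num) hl0 hl1 ht
    na.2.1.1 nz.2.1.2
  have hk : 2 * 0.0805075 * (m2 t - 1) - 0.0805075 ^ 2 ≤ (m2 t - 1) ^ 2 := by
    nlinarith [sq_nonneg (m2 t - 1 - 0.0805075)]
  refine ⟨?_, ?_, ?_⟩
  · norm_num at u2 l3 ⊢
    linarith
  · norm_num at l2 u3 ⊢
    linarith
  · norm_num at u2 u4 l3 hk ⊢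
    linarith

theorem case_31_1 {t l : ℝ} (hl0 : 0 ≤ l) (hl1 : l ≤ 1) (hlh : 1 / 2 ≤ l)
    (ht : t = (1 - l) * (31 / 144) + l * (32 / 144)) :
    3 * m2 t - 2 - 0.006 ≤ m3 t ∧ m3 t ≤ 3 * m2 t - 2 ∧
      m4 t - 4 * m3 t + 6 * m2 t - 3 ≤ 2.6 * (m2 t - 1) ^ 2 + 0.0035 := by
  have na := node_31
  have nb := node_32
  have nz := node_33
  have u2 := up_num convex_m2 (a := 31 / 144) (b := 32 / 144) (by constructor <;> norm_num)
    (by constructor <;> norm_num) hl0 hl1 ht na.1.2 nb.1.2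
  have u3 := up_num convex_m3 (a := 31 / 144) (b := 32 / 144) (by constructor <;> norm_num)
    (by constructor <;> norm_num) hl0 hl1 ht na.2.1.2 nb.2.1.2
  have u4 := up_num convex_m4 (a := 31 / 144) (b := 32 / 144) (by constructor <;> norm_num)
    (by constructor <;> norm_num) hl0 hl1 ht na.2.2.2 nb.2.2.2
  have l2 := lo_right convex_m2 (z := 33 / 144) (a := 31 / 144) (b := 32 / 144) (by constructor <;> norm_num)
    (by constructor <;> norm_num) (by constructor <;> norm_num) (by norm_num) hl0 hl1 ht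
    nb.1.1 nz.1.2
  have l3 := lo_right convex_m3 (z := 33 / 144) (a := 31 / 144) (b := 32 / 144) (by constructor <;> norm_num)
    (by constructor <;> norm_num) (by constructor <;> norm_num) (by norm_num) hl0 hl1 ht
    nb.2.1.1 nz.2.1.2
  have hk : 2 * 0.0861000 * (m2 t - 1) - 0.0861000 ^ 2 ≤ (m2 t - 1) ^ 2 := by
    nlinarith [sq_nonneg (m2 t - 1 - 0.0861000)]
  refine ⟨?_, ?_, ?_⟩
  · norm_num at u2 l3 ⊢
    linarith
  · norm_num at l2 u3 ⊢
    linarith
  · norm_num at u2 u4 l3 hk ⊢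
    linarith

theorem case_32_0 {t l : ℝ} (hl0 : 0 ≤ l) (hl1 : l ≤ 1) (hlh : l ≤ 1 / 2)
    (ht : t = (1 - l) * (32 / 144) + l * (33 / 144)) :
    3 * m2 t - 2 - 0.006 ≤ m3 t ∧ m3 t ≤ 3 * m2 t - 2 ∧
      m4 t - 4 * m3 t + 6 * m2 t - 3 ≤ 2.6 * (m2 t - 1) ^ 2 + 0.0035 := by
  have na := node_32
  have nb := node_33
  have nz := node_31
  have u2 := up_num convex_m2 (a := 32 / 144) (b := 33 / 144) (by constructor <;> norm_num)
    (by constructor <;> norm_num) hl0 hl1 ht na.1.2 nb.1.2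
  have u3 := up_num convex_m3 (a := 32 / 144) (b := 33 / 144) (by constructor <;> norm_num)
    (by constructor <;> norm_num) hl0 hl1 ht na.2.1.2 nb.2.1.2
  have u4 := up_num convex_m4 (a := 32 / 144) (b := 33 / 144) (by constructor <;> norm_num)
    (by constructor <;> norm_num) hl0 hl1 ht na.2.2.2 nb.2.2.2
  have l2 := lo_left convex_m2 (z := 31 / 144) (a := 32 / 144) (b := 33 / 144) (by constructor <;> norm_num)
    (by constructor <;> norm_num) (by constructor <;> norm_num) (by norm_num) hl0 hl1 ht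
    na.1.1 nz.1.2
  have l3 := lo_left convex_m3 (z := 31 / 144) (a := 32 / 144) (b := 33 / 144) (by constructor <;> norm_num)
    (by constructor <;> norm_num) (by constructor <;> norm_num) (by norm_num) hl0 hl1 ht
    na.2.1.1 nz.2.1.2
  have hk : 2 * 0.0861000 * (m2 t - 1) - 0.0861000 ^ 2 ≤ (m2 t - 1) ^ 2 := by
    nlinarith [sq_nonneg (m2 t - 1 - 0.0861000)]
  refine ⟨?_, ?_, ?_⟩
  · norm_num at u2 l3 ⊢
    linarith
  · norm_num at l2 u3 ⊢
    linarith
  · norm_num at u2 u4 l3 hk ⊢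
    linarith

theorem case_32_1 {t l : ℝ} (hl0 : 0 ≤ l) (hl1 : l ≤ 1) (hlh : 1 / 2 ≤ l)
    (ht : t = (1 - l) * (32 / 144) + l * (33 / 144)) :
    3 * m2 t - 2 - 0.006 ≤ m3 t ∧ m3 t ≤ 3 * m2 t - 2 ∧
      m4 t - 4 * m3 t + 6 * m2 t - 3 ≤ 2.6 * (m2 t - 1) ^ 2 + 0.0035 := by
  have na := node_32
  have nb := node_33
  have nz := node_34
  have u2 := up_num convex_m2 (a := 32 / 144) (b := 33 / 144) (by constructor <;> norm_num)
    (by constructor <;> norm_num) hl0 hl1 ht na.1.2 nb.1.2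
  have u3 := up_num convex_m3 (a := 32 / 144) (b := 33 / 144) (by constructor <;> norm_num)
    (by constructor <;> norm_num) hl0 hl1 ht na.2.1.2 nb.2.1.2
  have u4 := up_num convex_m4 (a := 32 / 144) (b := 33 / 144) (by constructor <;> norm_num)
    (by constructor <;> norm_num) hl0 hl1 ht na.2.2.2 nb.2.2.2
  have l2 := lo_right convex_m2 (z := 34 / 144) (a := 32 / 144) (b := 33 / 144) (by constructor <;> norm_num)
    (by constructor <;> norm_num) (by constructor <;> norm_num) (by norm_num) hl0 hl1 ht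
    nb.1.1 nz.1.2
  have l3 := lo_right convex_m3 (z := 34 / 144) (a := 32 / 144) (b := 33 / 144) (by constructor <;> norm_num)
    (by constructor <;> norm_num) (by constructor <;> norm_num) (by norm_num) hl0 hl1 ht
    nb.2.1.1 nz.2.1.2
  have hk : 2 * 0.0919130 * (m2 t - 1) - 0.0919130 ^ 2 ≤ (m2 t - 1) ^ 2 := by
    nlinarith [sq_nonneg (m2 t - 1 - 0.0919130)]
  refine ⟨?_, ?_, ?_⟩
  · norm_num at u2 l3 ⊢
    linarith
  · norm_num at l2 u3 ⊢
    linarith
  · norm_num at u2 u4 l3 hk ⊢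
    linarith

theorem case_33_0 {t l : ℝ} (hl0 : 0 ≤ l) (hl1 : l ≤ 1) (hlh : l ≤ 1 / 2)
    (ht : t = (1 - l) * (33 / 144) + l * (34 / 144)) :
    3 * m2 t - 2 - 0.006 ≤ m3 t ∧ m3 t ≤ 3 * m2 t - 2 ∧
      m4 t - 4 * m3 t + 6 * m2 t - 3 ≤ 2.6 * (m2 t - 1) ^ 2 + 0.0035 := by
  have na := node_33
  have nb := node_34
  have nz := node_32
  have u2 := up_num convex_m2 (a := 33 / 144) (b := 34 / 144) (by constructor <;> norm_num)
    (by constructor <;> norm_num) hl0 hl1 ht na.1.2 nb.1.2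
  have u3 := up_num convex_m3 (a := 33 / 144) (b := 34 / 144) (by constructor <;> norm_num)
    (by constructor <;> norm_num) hl0 hl1 ht na.2.1.2 nb.2.1.2
  have u4 := up_num convex_m4 (a := 33 / 144) (b := 34 / 144) (by constructor <;> norm_num)
    (by constructor <;> norm_num) hl0 hl1 ht na.2.2.2 nb.2.2.2
  have l2 := lo_left convex_m2 (z := 32 / 144) (a := 33 / 144) (b := 34 / 144) (by constructor <;> norm_num)
    (by constructor <;> norm_num) (by constructor <;> norm_num) (by norm_num) hl0 hl1 ht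
    na.1.1 nz.1.2
  have l3 := lo_left convex_m3 (z := 32 / 144) (a := 33 / 144) (b := 34 / 144) (by constructor <;> norm_num)
    (by constructor <;> norm_num) (by constructor <;> norm_num) (by norm_num) hl0 hl1 ht
    na.2.1.1 nz.2.1.2
  have hk : 2 * 0.0919130 * (m2 t - 1) - 0.0919130 ^ 2 ≤ (m2 t - 1) ^ 2 := by
    nlinarith [sq_nonneg (m2 t - 1 - 0.0919130)]
  refine ⟨?_, ?_, ?_⟩
  · norm_num at u2 l3 ⊢
    linarith
  · norm_num at l2 u3 ⊢
    linarith
  · norm_num at u2 u4 l3 hk ⊢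
    linarith

theorem case_33_1 {t l : ℝ} (hl0 : 0 ≤ l) (hl1 : l ≤ 1) (hlh : 1 / 2 ≤ l)
    (ht : t = (1 - l) * (33 / 144) + l * (34 / 144)) :
    3 * m2 t - 2 - 0.006 ≤ m3 t ∧ m3 t ≤ 3 * m2 t - 2 ∧
      m4 t - 4 * m3 t + 6 * m2 t - 3 ≤ 2.6 * (m2 t - 1) ^ 2 + 0.0035 := by
  have na := node_33
  have nb := node_34
  have nz := node_35
  have u2 := up_num convex_m2 (a := 33 / 144) (b := 34 / 144) (by constructor <;> norm_num)
    (by constructor <;> norm_num) hl0 hl1 ht na.1.2 nb.1.2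
  have u3 := up_num convex_m3 (a := 33 / 144) (b := 34 / 144) (by constructor <;> norm_num)
    (by constructor <;> norm_num) hl0 hl1 ht na.2.1.2 nb.2.1.2
  have u4 := up_num convex_m4 (a := 33 / 144) (b := 34 / 144) (by constructor <;> norm_num)
    (by constructor <;> norm_num) hl0 hl1 ht na.2.2.2 nb.2.2.2
  have l2 := lo_right convex_m2 (z := 35 / 144) (a := 33 / 144) (b := 34 / 144) (by constructor <;> norm_num)
    (by constructor <;> norm_num) (by constructor <;> norm_num) (by norm_num) hl0 hl1 ht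
    nb.1.1 nz.1.2
  have l3 := lo_right convex_m3 (z := 35 / 144) (a := 33 / 144) (b := 34 / 144) (by constructor <;> norm_num)
    (by constructor <;> norm_num) (by constructor <;> norm_num) (by norm_num) hl0 hl1 ht
    nb.2.1.1 nz.2.1.2
  have hk : 2 * 0.0979509 * (m2 t - 1) - 0.0979509 ^ 2 ≤ (m2 t - 1) ^ 2 := by
    nlinarith [sq_nonneg (m2 t - 1 - 0.0979509)]
  refine ⟨?_, ?_, ?_⟩
  · norm_num at u2 l3 ⊢
    linarith
  · norm_num at l2 u3 ⊢
    linarith
  · norm_num at u2 u4 l3 hk ⊢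
    linarith

theorem case_34_0 {t l : ℝ} (hl0 : 0 ≤ l) (hl1 : l ≤ 1) (hlh : l ≤ 1 / 2)
    (ht : t = (1 - l) * (34 / 144) + l * (35 / 144)) :
    3 * m2 t - 2 - 0.006 ≤ m3 t ∧ m3 t ≤ 3 * m2 t - 2 ∧
      m4 t - 4 * m3 t + 6 * m2 t - 3 ≤ 2.6 * (m2 t - 1) ^ 2 + 0.0035 := by
  have na := node_34
  have nb := node_35
  have nz := node_33
  have u2 := up_num convex_m2 (a := 34 / 144) (b := 35 / 144) (by constructor <;> norm_num)
    (by constructor <;> norm_num) hl0 hl1 ht na.1.2 nb.1.2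
  have u3 := up_num convex_m3 (a := 34 / 144) (b := 35 / 144) (by constructor <;> norm_num)
    (by constructor <;> norm_num) hl0 hl1 ht na.2.1.2 nb.2.1.2
  have u4 := up_num convex_m4 (a := 34 / 144) (b := 35 / 144) (by constructor <;> norm_num)
    (by constructor <;> norm_num) hl0 hl1 ht na.2.2.2 nb.2.2.2
  have l2 := lo_left convex_m2 (z := 33 / 144) (a := 34 / 144) (b := 35 / 144) (by constructor <;> norm_num)
    (by constructor <;> norm_num) (by constructor <;> norm_num) (by norm_num) hl0 hl1 ht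
    na.1.1 nz.1.2
  have l3 := lo_left convex_m3 (z := 33 / 144) (a := 34 / 144) (b := 35 / 144) (by constructor <;> norm_num)
    (by constructor <;> norm_num) (by constructor <;> norm_num) (by norm_num) hl0 hl1 ht
    na.2.1.1 nz.2.1.2
  have hk : 2 * 0.0979509 * (m2 t - 1) - 0.0979509 ^ 2 ≤ (m2 t - 1) ^ 2 := by
    nlinarith [sq_nonneg (m2 t - 1 - 0.0979509)]
  refine ⟨?_, ?_, ?_⟩
  · norm_num at u2 l3 ⊢
    linarith
  · norm_num at l2 u3 ⊢
    linarith
  · norm_num at u2 u4 l3 hk ⊢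
    linarith

theorem case_34_1 {t l : ℝ} (hl0 : 0 ≤ l) (hl1 : l ≤ 1) (hlh : 1 / 2 ≤ l)
    (ht : t = (1 - l) * (34 / 144) + l * (35 / 144)) :
    3 * m2 t - 2 - 0.006 ≤ m3 t ∧ m3 t ≤ 3 * m2 t - 2 ∧
      m4 t - 4 * m3 t + 6 * m2 t - 3 ≤ 2.6 * (m2 t - 1) ^ 2 + 0.0035 := by
  have na := node_34
  have nb := node_35
  have nz := node_36
  have u2 := up_num convex_m2 (a := 34 / 144) (b := 35 / 144) (by constructor <;> norm_num)
    (by constructor <;> norm_num) hl0 hl1 ht na.1.2 nb.1.2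
  have u3 := up_num convex_m3 (a := 34 / 144) (b := 35 / 144) (by constructor <;> norm_num)
    (by constructor <;> norm_num) hl0 hl1 ht na.2.1.2 nb.2.1.2
  have u4 := up_num convex_m4 (a := 34 / 144) (b := 35 / 144) (by constructor <;> norm_num)
    (by constructor <;> norm_num) hl0 hl1 ht na.2.2.2 nb.2.2.2
  have l2 := lo_right convex_m2 (z := 36 / 144) (a := 34 / 144) (b := 35 / 144) (by constructor <;> norm_num)
    (by constructor <;> norm_num) (by constructor <;> norm_num) (by norm_num) hl0 hl1 ht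
    nb.1.1 nz.1.2
  have l3 := lo_right convex_m3 (z := 36 / 144) (a := 34 / 144) (b := 35 / 144) (by constructor <;> norm_num)
    (by constructor <;> norm_num) (by constructor <;> norm_num) (by norm_num) hl0 hl1 ht
    nb.2.1.1 nz.2.1.2
  have hk : 2 * 0.1042185 * (m2 t - 1) - 0.1042185 ^ 2 ≤ (m2 t - 1) ^ 2 := by
    nlinarith [sq_nonneg (m2 t - 1 - 0.1042185)]
  refine ⟨?_, ?_, ?_⟩
  · norm_num at u2 l3 ⊢
    linarith
  · norm_num at l2 u3 ⊢
    linarith
  · norm_num at u2 u4 l3 hk ⊢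
    linarith

theorem case_35_0 {t l : ℝ} (hl0 : 0 ≤ l) (hl1 : l ≤ 1) (hlh : l ≤ 1 / 2)
    (ht : t = (1 - l) * (35 / 144) + l * (36 / 144)) :
    3 * m2 t - 2 - 0.006 ≤ m3 t ∧ m3 t ≤ 3 * m2 t - 2 ∧
      m4 t - 4 * m3 t + 6 * m2 t - 3 ≤ 2.6 * (m2 t - 1) ^ 2 + 0.0035 := by
  have na := node_35
  have nb := node_36
  have nz := node_34
  have u2 := up_num convex_m2 (a := 35 / 144) (b := 36 / 144) (by constructor <;> norm_num)
    (by constructor <;> norm_num) hl0 hl1 ht na.1.2 nb.1.2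
  have u3 := up_num convex_m3 (a := 35 / 144) (b := 36 / 144) (by constructor <;> norm_num)
    (by constructor <;> norm_num) hl0 hl1 ht na.2.1.2 nb.2.1.2
  have u4 := up_num convex_m4 (a := 35 / 144) (b := 36 / 144) (by constructor <;> norm_num)
    (by constructor <;> norm_num) hl0 hl1 ht na.2.2.2 nb.2.2.2
  have l2 := lo_left convex_m2 (z := 34 / 144) (a := 35 / 144) (b := 36 / 144) (by constructor <;> norm_num)
    (by constructor <;> norm_num) (by constructor <;> norm_num) (by norm_num) hl0 hl1 ht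
    na.1.1 nz.1.2
  have l3 := lo_left convex_m3 (z := 34 / 144) (a := 35 / 144) (b := 36 / 144) (by constructor <;> norm_num)
    (by constructor <;> norm_num) (by constructor <;> norm_num) (by norm_num) hl0 hl1 ht
    na.2.1.1 nz.2.1.2
  have hk : 2 * 0.1042185 * (m2 t - 1) - 0.1042185 ^ 2 ≤ (m2 t - 1) ^ 2 := by
    nlinarith [sq_nonneg (m2 t - 1 - 0.1042185)]
  refine ⟨?_, ?_, ?_⟩
  · norm_num at u2 l3 ⊢
    linarith
  · norm_num at l2 u3 ⊢
    linarith
  · norm_num at u2 u4 l3 hk ⊢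
    linarith

theorem case_35_1 {t l : ℝ} (hl0 : 0 ≤ l) (hl1 : l ≤ 1) (hlh : 1 / 2 ≤ l)
    (ht : t = (1 - l) * (35 / 144) + l * (36 / 144)) :
    3 * m2 t - 2 - 0.006 ≤ m3 t ∧ m3 t ≤ 3 * m2 t - 2 ∧
      m4 t - 4 * m3 t + 6 * m2 t - 3 ≤ 2.6 * (m2 t - 1) ^ 2 + 0.0035 := by
  have na := node_35
  have nb := node_36
  have nz := node_37
  have u2 := up_num convex_m2 (a := 35 / 144) (b := 36 / 144) (by constructor <;> norm_num)
    (by constructor <;> norm_num) hl0 hl1 ht na.1.2 nb.1.2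
  have u3 := up_num convex_m3 (a := 35 / 144) (b := 36 / 144) (by constructor <;> norm_num)
    (by constructor <;> norm_num) hl0 hl1 ht na.2.1.2 nb.2.1.2
  have u4 := up_num convex_m4 (a := 35 / 144) (b := 36 / 144) (by constructor <;> norm_num)
    (by constructor <;> norm_num) hl0 hl1 ht na.2.2.2 nb.2.2.2
  have l2 := lo_right convex_m2 (z := 37 / 144) (a := 35 / 144) (b := 36 / 144) (by constructor <;> norm_num)
    (by constructor <;> norm_num) (by constructor <;> norm_num) (by norm_num) hl0 hl1 ht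
    nb.1.1 nz.1.2
  have l3 := lo_right convex_m3 (z := 37 / 144) (a := 35 / 144) (b := 36 / 144) (by constructor <;> norm_num)
    (by constructor <;> norm_num) (by constructor <;> norm_num) (by norm_num) hl0 hl1 ht
    nb.2.1.1 nz.2.1.2
  have hk : 2 * 0.1107206 * (m2 t - 1) - 0.1107206 ^ 2 ≤ (m2 t - 1) ^ 2 := by
    nlinarith [sq_nonneg (m2 t - 1 - 0.1107206)]
  refine ⟨?_, ?_, ?_⟩
  · norm_num at u2 l3 ⊢
    linarith
  · norm_num at l2 u3 ⊢
    linarith
  · norm_num at u2 u4 l3 hk ⊢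
    linarith

theorem goal (t : ℝ) (h0 : 1 / 6 ≤ t) (h1 : t ≤ 1 / 4) :
    3 * m2 t - 2 - 0.006 ≤ m3 t ∧ m3 t ≤ 3 * m2 t - 2 ∧
      m4 t - 4 * m3 t + 6 * m2 t - 3 ≤ 2.6 * (m2 t - 1) ^ 2 + 0.0035 := by
  rcases le_or_gt t (25 / 144) with hh | hh
  · rcases le_or_gt (144 * t - 24) (1 / 2) with hk | hk
    · exact case_24_0 (l := 144 * t - 24) (by linarith) (by linarith) hk (by ring)
    · exact case_24_1 (l := 144 * t - 24) (by linarith) (by linarith) hk.le (by ring)
  rcases le_or_gt t (26 / 144) with hh | hh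
  · rcases le_or_gt (144 * t - 25) (1 / 2) with hk | hk
    · exact case_25_0 (l := 144 * t - 25) (by linarith) (by linarith) hk (by ring)
    · exact case_25_1 (l := 144 * t - 25) (by linarith) (by linarith) hk.le (by ring)
  rcases le_or_gt t (27 / 144) with hh | hh
  · rcases le_or_gt (144 * t - 26) (1 / 2) with hk | hk
    · exact case_26_0 (l := 144 * t - 26) (by linarith) (by linarith) hk (by ring)
    · exact case_26_1 (l := 144 * t - 26) (by linarith) (by linarith) hk.le (by ring)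
  rcases le_or_gt t (28 / 144) with hh | hh
  · rcases le_or_gt (144 * t - 27) (1 / 2) with hk | hk
    · exact case_27_0 (l := 144 * t - 27) (by linarith) (by linarith) hk (by ring)
    · exact case_27_1 (l := 144 * t - 27) (by linarith) (by linarith) hk.le (by ring)
  rcases le_or_gt t (29 / 144) with hh | hh
  · rcases le_or_gt (144 * t - 28) (1 / 2) with hk | hk
    · exact case_28_0 (l := 144 * t - 28) (by linarith) (by linarith) hk (by ring)
    · exact case_28_1 (l := 144 * t - 28) (by linarith) (by linarith) hk.le (by ring)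
  rcases le_or_gt t (30 / 144) with hh | hh
  · rcases le_or_gt (144 * t - 29) (1 / 2) with hk | hk
    · exact case_29_0 (l := 144 * t - 29) (by linarith) (by linarith) hk (by ring)
    · exact case_29_1 (l := 144 * t - 29) (by linarith) (by linarith) hk.le (by ring)
  rcases le_or_gt t (31 / 144) with hh | hh
  · rcases le_or_gt (144 * t - 30) (1 / 2) with hk | hk
    · exact case_30_0 (l := 144 * t - 30) (by linarith) (by linarith) hk (by ring)
    · exact case_30_1 (l := 144 * t - 30) (by linarith) (by linarith) hk.le (by ring)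
  rcases le_or_gt t (32 / 144) with hh | hh
  · rcases le_or_gt (144 * t - 31) (1 / 2) with hk | hk
    · exact case_31_0 (l := 144 * t - 31) (by linarith) (by linarith) hk (by ring)
    · exact case_31_1 (l := 144 * t - 31) (by linarith) (by linarith) hk.le (by ring)
  rcases le_or_gt t (33 / 144) with hh | hh
  · rcases le_or_gt (144 * t - 32) (1 / 2) with hk | hk
    · exact case_32_0 (l := 144 * t - 32) (by linarith) (by linarith) hk (by ring)
    · exact case_32_1 (l := 144 * t - 32) (by linarith) (by linarith) hk.le (by ring)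
  rcases le_or_gt t (34 / 144) with hh | hh
  · rcases le_or_gt (144 * t - 33) (1 / 2) with hk | hk
    · exact case_33_0 (l := 144 * t - 33) (by linarith) (by linarith) hk (by ring)
    · exact case_33_1 (l := 144 * t - 33) (by linarith) (by linarith) hk.le (by ring)
  rcases le_or_gt t (35 / 144) with hh | hh
  · rcases le_or_gt (144 * t - 34) (1 / 2) with hk | hk
    · exact case_34_0 (l := 144 * t - 34) (by linarith) (by linarith) hk (by ring)
    · exact case_34_1 (l := 144 * t - 34) (by linarith) (by linarith) hk.le (by ring)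
  rcases le_or_gt (144 * t - 35) (1 / 2) with hk | hk
  · exact case_35_0 (l := 144 * t - 35) (by linarith) (by linarith) hk (by ring)
  · exact case_35_1 (l := 144 * t - 35) (by linarith) (by linarith) hk.le (by ring)

/-- The statement of helper53. -/
theorem goal_M4 (t : ℝ) (h0 : 1 / 6 ≤ t) (h1 : t ≤ 1 / 4) (v w z : ℝ)
    (hv : v = Real.pi * t / Real.sin (Real.pi * t))
    (hw : w = Real.Gamma (1 + 2 * t) * Real.Gamma (1 - t) ^ 2)
    (hz : z = Real.Gamma (1 + 3 * t) * Real.Gamma (1 - t) ^ 3) :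
    (3 * v - 2 - 0.006 ≤ w ∧ w ≤ 3 * v - 2) ∧
      z - 4 * w + 6 * v - 3 ≤ 2.6 * (v - 1) ^ 2 + 0.0035 := by
  have h := goal t h0 h1
  have hv' : v = m2 t := by rw [hv, m2_eq (by linarith)]
  have hw' : w = m3 t := hw
  have hz' : z = m4 t := hz
  rw [hv', hw', hz']
  exact ⟨⟨h.1, h.2.1⟩, h.2.2⟩

end Pool.Agent.Helper88.Gam
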