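import Mathlib

/-!
# Two-sided bounds for the Gamma function

For `0 < x ≤ 1` and `N : ℕ` put `c = N + (1 + x) / 2` and
`G = c ^ x * ∏_{k=1}^N k / (k + x)`.  Then
`G * exp (x (1 - x^2) / (24 (c^2 + 1/4))) ≤ Gamma (1 + x) ≤ G * exp (x (1 - x^2) / (24 c^2))`.
-/

open Finset Filter Topology

namespace Pool.Agent.Helper88.Gam

/-- Auxiliary function. -/
noncomputable def f (x t : ℝ) : ℝ :=
  x * (Real.log (1 + t) - Real.log (1 - t)) - (Real.log (1 + x * t) - Real.log (1 - x * t))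

theorem hasDerivAt_f {x t : ℝ} (hx0 : 0 ≤ x) (hx1 : x ≤ 1) (ht0 : -1 < t) (ht1 : t < 1) :
    HasDerivAt (f x) (2 * x * (1 - x ^ 2) * t ^ 2 / ((1 - t ^ 2) * (1 - (x * t) ^ 2))) t := by
  have h1 : 1 + t ≠ 0 := by linarith
  have h2 : 1 - t ≠ 0 := by linarith
  have hxt : |x * t| < 1 := by
    rw [abs_mul, abs_of_nonneg hx0]
    have : |t| < 1 := abs_lt.2 ⟨ht0, ht1⟩
    calc x * |t| ≤ 1 * |t| := mul_le_mul_of_nonneg_right hx1 (abs_nonneg _)
      _ < 1 := by rwa [one_mul]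
  obtain ⟨h3a, h4a⟩ := abs_lt.1 hxt
  have h3 : 1 + x * t ≠ 0 := by linarith
  have h4 : 1 - x * t ≠ 0 := by linarith
  have d1 : HasDerivAt (fun t : ℝ => Real.log (1 + t)) (1 / (1 + t)) t := by
    have := (hasDerivAt_id t).const_add 1
    exact (this.log h1)
  have d2 : HasDerivAt (fun t : ℝ => Real.log (1 - t)) (-1 / (1 - t)) t := by
    have := (hasDerivAt_id t).const_sub 1
    exact (this.log h2)
  have d3 : HasDerivAt (fun t : ℝ => Real.log (1 + x * t)) ((x * 1) / (1 + x * t)) t := by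
    have := ((hasDerivAt_id t).const_mul x).const_add 1
    exact (this.log h3)
  have d4 : HasDerivAt (fun t : ℝ => Real.log (1 - x * t)) (-(x * 1) / (1 - x * t)) t := by
    have := ((hasDerivAt_id t).const_mul x).const_sub 1
    exact (this.log h4)
  have h := ((d1.sub d2).const_mul x).sub (d3.sub d4)
  have h5 : 1 - t ^ 2 ≠ 0 := by
    have : 1 - t ^ 2 = (1 + t) * (1 - t) := by ring
    rw [this]; exact mul_ne_zero h1 h2
  have h6 : 1 - (x * t) ^ 2 ≠ 0 := by
    have : 1 - (x * t) ^ 2 = (1 + x * t) * (1 - x * t) := by ring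
    rw [this]; exact mul_ne_zero h3 h4
  refine HasDerivAt.congr_deriv h ?_
  have h7 : 1 - x ^ 2 * t ^ 2 ≠ 0 := by rwa [mul_pow] at h6
  rw [mul_pow]
  field_simp
  ring

theorem f_zero (x : ℝ) : f x 0 = 0 := by simp [f]

theorem one_sub_sq_pos {t : ℝ} (ht0 : 0 ≤ t) (ht1 : t < 1) : 0 < 1 - t ^ 2 := by nlinarith

theorem f_nonneg {x t : ℝ} (hx0 : 0 ≤ x) (hx1 : x ≤ 1) (ht0 : 0 ≤ t) (ht1 : t < 1) :
    0 ≤ f x t := by
  have hmono : MonotoneOn (f x) (Set.Icc 0 t) := by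
    refine monotoneOn_of_deriv_nonneg (convex_Icc 0 t) ?_ ?_ ?_
    · intro s hs
      exact (hasDerivAt_f hx0 hx1 (by linarith [hs.1]) (by linarith [hs.2])).continuousAt.continuousWithinAt
    · intro s hs
      rw [interior_Icc] at hs
      exact (hasDerivAt_f hx0 hx1 (by linarith [hs.1]) (by linarith [hs.2])).differentiableAt.differentiableWithinAt
    · intro s hs
      rw [interior_Icc] at hs
      rw [(hasDerivAt_f hx0 hx1 (by linarith [hs.1]) (by linarith [hs.2])).deriv]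
      have h1 := one_sub_sq_pos hs.1.le (by linarith [hs.2] : s < 1)
      have h2 : 0 < 1 - (x * s) ^ 2 := by
        have : (x * s) ^ 2 ≤ s ^ 2 := by
          rw [mul_pow]
          have : x ^ 2 ≤ 1 := by nlinarith
          nlinarith [sq_nonneg s]
        linarith
      have h3 : 0 ≤ 1 - x ^ 2 := by nlinarith
      positivity
  have := hmono (Set.left_mem_Icc.2 ht0) (Set.right_mem_Icc.2 ht0) ht0
  rwa [f_zero] at this

/-- The majorant. -/
noncomputable def g (x t : ℝ) : ℝ := x * (1 - x ^ 2) / 24 * (16 * t ^ 3 / (1 - t ^ 2) ^ 2)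

theorem hasDerivAt_g {x t : ℝ} (ht0 : 0 ≤ t) (ht1 : t < 1) :
    HasDerivAt (g x) (2 * x * (1 - x ^ 2) * t ^ 2 * (1 + t ^ 2 / 3) / (1 - t ^ 2) ^ 3) t := by
  have h1 := one_sub_sq_pos ht0 ht1
  have d1 : HasDerivAt (fun t : ℝ => 16 * t ^ 3) (16 * (3 * t ^ 2)) t := by
    have := (hasDerivAt_pow 3 t).const_mul 16
    simpa using this
  have d2 : HasDerivAt (fun t : ℝ => (1 - t ^ 2) ^ 2) (2 * (1 - t ^ 2) ^ 1 * (-(2 * t))) t := by
    have h0 : HasDerivAt (fun t : ℝ => 1 - t ^ 2) (-(2 * t)) t := by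
      have := (hasDerivAt_pow 2 t).const_sub 1
      simpa using this
    have h := h0.fun_pow 2
    refine h.congr_deriv ?_
    push_cast
    ring
  have h := (d1.div d2 (by positivity)).const_mul (x * (1 - x ^ 2) / 24)
  refine HasDerivAt.congr_deriv h ?_
  field_simp
  ring

theorem g_zero (x : ℝ) : g x 0 = 0 := by simp [g]

theorem f_le_g {x t : ℝ} (hx0 : 0 ≤ x) (hx1 : x ≤ 1) (ht0 : 0 ≤ t) (ht1 : t < 1) :
    f x t ≤ g x t := by
  have hmono : MonotoneOn (fun s => g x s - f x s) (Set.Icc 0 t) := by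
    have hd : ∀ s ∈ Set.Icc 0 t, HasDerivAt (fun s => g x s - f x s)
        (2 * x * (1 - x ^ 2) * s ^ 2 * (1 + s ^ 2 / 3) / (1 - s ^ 2) ^ 3 -
          2 * x * (1 - x ^ 2) * s ^ 2 / ((1 - s ^ 2) * (1 - (x * s) ^ 2))) s := fun s hs =>
      (hasDerivAt_g hs.1 (by linarith [hs.2])).sub
        (hasDerivAt_f hx0 hx1 (by linarith [hs.1]) (by linarith [hs.2]))
    refine monotoneOn_of_deriv_nonneg (convex_Icc 0 t) ?_ ?_ ?_
    · intro s hs
      exact (hd s hs).continuousAt.continuousWithinAt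
    · intro s hs
      rw [interior_Icc] at hs
      exact (hd s ⟨hs.1.le, hs.2.le⟩).differentiableAt.differentiableWithinAt
    · intro s hs
      rw [interior_Icc] at hs
      rw [(hd s ⟨hs.1.le, hs.2.le⟩).deriv]
      have h1 := one_sub_sq_pos hs.1.le (by linarith [hs.2] : s < 1)
      have h2 : (1 - s ^ 2) ≤ 1 - (x * s) ^ 2 := by
        have : (x * s) ^ 2 ≤ s ^ 2 := by
          rw [mul_pow]
          have : x ^ 2 ≤ 1 := by nlinarith
          nlinarith [sq_nonneg s]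
        linarith
      have h3 : 0 ≤ 1 - x ^ 2 := by nlinarith
      have h4 : (1 - s ^ 2) ≤ 1 := by nlinarith [sq_nonneg s]
      have hA : 0 ≤ 2 * x * (1 - x ^ 2) * s ^ 2 := by positivity
      rw [sub_nonneg]
      calc 2 * x * (1 - x ^ 2) * s ^ 2 / ((1 - s ^ 2) * (1 - (x * s) ^ 2))
          ≤ 2 * x * (1 - x ^ 2) * s ^ 2 / ((1 - s ^ 2) * (1 - s ^ 2)) := by
            refine div_le_div_of_nonneg_left hA (by positivity) ?_
            exact mul_le_mul_of_nonneg_left h2 h1.le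
        _ ≤ 2 * x * (1 - x ^ 2) * s ^ 2 / (1 - s ^ 2) ^ 3 := by
            refine div_le_div_of_nonneg_left hA (by positivity) ?_
            calc (1 - s ^ 2) ^ 3 = (1 - s ^ 2) * (1 - s ^ 2) * (1 - s ^ 2) := by ring
              _ ≤ (1 - s ^ 2) * (1 - s ^ 2) * 1 :=
                  mul_le_mul_of_nonneg_left h4 (by positivity)
              _ = _ := mul_one _
        _ ≤ _ := by
            refine div_le_div_of_nonneg_right ?_ (by positivity)
            have : 0 ≤ s ^ 2 / 3 := by positivity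
            nlinarith
  have := hmono (Set.left_mem_Icc.2 ht0) (Set.right_mem_Icc.2 ht0) ht0
  simp only [f_zero, g_zero, sub_zero] at this
  linarith

/-- Logarithm of the approximation. -/
noncomputable def lg (x : ℝ) (N : ℕ) : ℝ :=
  x * Real.log (N + (1 + x) / 2) + ∑ k ∈ range N, (Real.log (k + 1) - Real.log (k + 1 + x))

theorem lg_succ {x : ℝ} (hx0 : 0 ≤ x) (hx1 : x ≤ 1) (N : ℕ) :
    lg x (N + 1) - lg x N = f x (1 / (2 * (N + 1 + x / 2))) := by
  have hN : (0 : ℝ) ≤ N := Nat.cast_nonneg N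
  set m : ℝ := N + 1 + x / 2 with hm
  have hmpos : 0 < m := by positivity
  have e1 : Real.log (1 + 1 / (2 * m)) = Real.log (m + 1 / 2) - Real.log m := by
    rw [← Real.log_div (by positivity) (by positivity)]
    congr 1; field_simp
  have e2 : Real.log (1 - 1 / (2 * m)) = Real.log (m - 1 / 2) - Real.log m := by
    have : 0 < m - 1 / 2 := by linarith
    rw [← Real.log_div (by positivity) (by positivity)]
    congr 1; field_simp
  have e3 : Real.log (1 + x * (1 / (2 * m))) = Real.log (m + x / 2) - Real.log m := by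
    rw [← Real.log_div (by positivity) (by positivity)]
    congr 1; field_simp
  have e4 : Real.log (1 - x * (1 / (2 * m))) = Real.log (m - x / 2) - Real.log m := by
    have : 0 < m - x / 2 := by linarith
    rw [← Real.log_div (by positivity) (by positivity)]
    congr 1; field_simp
  unfold f lg
  rw [e1, e2, e3, e4, Finset.sum_range_succ]
  have a1 : m + 1 / 2 = ((N + 1 : ℕ) : ℝ) + (1 + x) / 2 := by rw [hm]; push_cast; ring
  have a2 : m - 1 / 2 = (N : ℝ) + (1 + x) / 2 := by rw [hm]; ring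
  have a3 : m + x / 2 = (N : ℝ) + 1 + x := by rw [hm]; ring
  have a4 : m - x / 2 = (N : ℝ) + 1 := by rw [hm]; ring
  rw [a1, a2, a3, a4]
  ring

theorem lg_mono {x : ℝ} (hx0 : 0 ≤ x) (hx1 : x ≤ 1) : Monotone (lg x) := by
  refine monotone_nat_of_le_succ fun N => ?_
  have h := lg_succ hx0 hx1 N
  have hN : (0 : ℝ) ≤ N := Nat.cast_nonneg N
  have h2 : 0 ≤ f x (1 / (2 * (N + 1 + x / 2))) := by
    refine f_nonneg hx0 hx1 (by positivity) ?_
    rw [div_lt_one (by positivity)]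
    linarith
  linarith

/-- Logarithm of the upper approximation. -/
noncomputable def lh (x : ℝ) (N : ℕ) : ℝ :=
  lg x N + x * (1 - x ^ 2) / (24 * (N + (1 + x) / 2) ^ 2)

theorem lh_anti {x : ℝ} (hx0 : 0 ≤ x) (hx1 : x ≤ 1) : Antitone (lh x) := by
  refine antitone_nat_of_succ_le fun N => ?_
  have h := lg_succ hx0 hx1 N
  have hN : (0 : ℝ) ≤ N := Nat.cast_nonneg N
  have h2 : f x (1 / (2 * (N + 1 + x / 2))) ≤ g x (1 / (2 * (N + 1 + x / 2))) := by
    refine f_le_g hx0 hx1 (by positivity) ?_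
    rw [div_lt_one (by positivity)]
    linarith
  have h3 : g x (1 / (2 * (N + 1 + x / 2))) = x * (1 - x ^ 2) / (24 * (N + (1 + x) / 2) ^ 2) -
      x * (1 - x ^ 2) / (24 * (((N + 1 : ℕ) : ℝ) + (1 + x) / 2) ^ 2) := by
    unfold g
    have b1 : (N : ℝ) + (1 + x) / 2 ≠ 0 := by positivity
    have b2 : ((N + 1 : ℕ) : ℝ) + (1 + x) / 2 ≠ 0 := by positivity
    have b3 : (N : ℝ) + 1 + x / 2 ≠ 0 := by positivity
    have b4 : 1 - (1 / (2 * ((N : ℝ) + 1 + x / 2))) ^ 2 =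
        ((N : ℝ) + (1 + x) / 2) * (((N + 1 : ℕ) : ℝ) + (1 + x) / 2) / ((N : ℝ) + 1 + x / 2) ^ 2 := by
      push_cast
      field_simp
      ring
    rw [b4]
    push_cast at b2 ⊢
    field_simp
    ring
  unfold lh
  linarith

theorem cube_le_f {x t : ℝ} (hx0 : 0 ≤ x) (hx1 : x ≤ 1) (ht0 : 0 ≤ t) (ht1 : t < 1) :
    2 / 3 * x * (1 - x ^ 2) * t ^ 3 ≤ f x t := by
  have hmono : MonotoneOn (fun s => f x s - 2 / 3 * x * (1 - x ^ 2) * s ^ 3) (Set.Icc 0 t) := by
    have hd : ∀ s ∈ Set.Icc 0 t, HasDerivAt (fun s => f x s - 2 / 3 * x * (1 - x ^ 2) * s ^ 3)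
        (2 * x * (1 - x ^ 2) * s ^ 2 / ((1 - s ^ 2) * (1 - (x * s) ^ 2)) -
          2 / 3 * x * (1 - x ^ 2) * (3 * s ^ 2)) s := fun s hs => by
      have h3 : HasDerivAt (fun s : ℝ => 2 / 3 * x * (1 - x ^ 2) * s ^ 3)
          (2 / 3 * x * (1 - x ^ 2) * (3 * s ^ 2)) s := by
        have := (hasDerivAt_pow 3 s).const_mul (2 / 3 * x * (1 - x ^ 2))
        simpa using this
      exact (hasDerivAt_f hx0 hx1 (by linarith [hs.1]) (by linarith [hs.2])).sub h3
    refine monotoneOn_of_deriv_nonneg (convex_Icc 0 t) ?_ ?_ ?_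
    · intro s hs
      exact (hd s hs).continuousAt.continuousWithinAt
    · intro s hs
      rw [interior_Icc] at hs
      exact (hd s ⟨hs.1.le, hs.2.le⟩).differentiableAt.differentiableWithinAt
    · intro s hs
      rw [interior_Icc] at hs
      rw [(hd s ⟨hs.1.le, hs.2.le⟩).deriv]
      have h1 := one_sub_sq_pos hs.1.le (by linarith [hs.2] : s < 1)
      have h2 : (1 - s ^ 2) ≤ 1 - (x * s) ^ 2 := by
        have : (x * s) ^ 2 ≤ s ^ 2 := by
          rw [mul_pow]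
          have : x ^ 2 ≤ 1 := by nlinarith
          nlinarith [sq_nonneg s]
        linarith
      have h3 : 0 ≤ 1 - x ^ 2 := by nlinarith
      have h4 : (1 - s ^ 2) ≤ 1 := by nlinarith [sq_nonneg s]
      have h5 : 1 - (x * s) ^ 2 ≤ 1 := by nlinarith [sq_nonneg (x * s)]
      have hA : 0 ≤ 2 * x * (1 - x ^ 2) * s ^ 2 := by positivity
      have h6 : 0 < 1 - (x * s) ^ 2 := by linarith
      rw [sub_nonneg, le_div_iff₀ (by positivity)]
      have h7 : (1 - s ^ 2) * (1 - (x * s) ^ 2) ≤ 1 := by nlinarith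
      calc 2 / 3 * x * (1 - x ^ 2) * (3 * s ^ 2) * ((1 - s ^ 2) * (1 - (x * s) ^ 2))
          = 2 * x * (1 - x ^ 2) * s ^ 2 * ((1 - s ^ 2) * (1 - (x * s) ^ 2)) := by ring
        _ ≤ 2 * x * (1 - x ^ 2) * s ^ 2 * 1 := mul_le_mul_of_nonneg_left h7 hA
        _ = _ := mul_one _
  have := hmono (Set.left_mem_Icc.2 ht0) (Set.right_mem_Icc.2 ht0) ht0
  simp only [f_zero] at this
  norm_num at this
  linarith

/-- Logarithm of the sharper lower approximation. -/
noncomputable def lk (x : ℝ) (N : ℕ) : ℝ :=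
  lg x N + x * (1 - x ^ 2) / (24 * ((N + (1 + x) / 2) ^ 2 + 1 / 4))

theorem lk_mono {x : ℝ} (hx0 : 0 ≤ x) (hx1 : x ≤ 1) : Monotone (lk x) := by
  refine monotone_nat_of_le_succ fun N => ?_
  have h := lg_succ hx0 hx1 N
  have hN : (0 : ℝ) ≤ N := Nat.cast_nonneg N
  set m : ℝ := N + 1 + x / 2 with hm
  have hmpos : 1 ≤ m := by linarith
  have h2 : 2 / 3 * x * (1 - x ^ 2) * (1 / (2 * m)) ^ 3 ≤ f x (1 / (2 * m)) := by
    refine cube_le_f hx0 hx1 (by positivity) ?_
    rw [div_lt_one (by positivity)]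
    linarith
  have a1 : ((N + 1 : ℕ) : ℝ) + (1 + x) / 2 = m + 1 / 2 := by rw [hm]; push_cast; ring
  have a2 : (N : ℝ) + (1 + x) / 2 = m - 1 / 2 := by rw [hm]; ring
  have h3 : 0 ≤ 1 - x ^ 2 := by nlinarith
  have h4 : x * (1 - x ^ 2) / (24 * ((m - 1 / 2) ^ 2 + 1 / 4)) -
      x * (1 - x ^ 2) / (24 * ((m + 1 / 2) ^ 2 + 1 / 4)) ≤
      2 / 3 * x * (1 - x ^ 2) * (1 / (2 * m)) ^ 3 := by
    have e1 : x * (1 - x ^ 2) / (24 * ((m - 1 / 2) ^ 2 + 1 / 4)) -
        x * (1 - x ^ 2) / (24 * ((m + 1 / 2) ^ 2 + 1 / 4)) =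
        x * (1 - x ^ 2) * (m / (12 * (m ^ 4 + 1 / 4))) := by
      have b1 : (m - 1 / 2) ^ 2 + 1 / 4 ≠ 0 := by positivity
      have b2 : (m + 1 / 2) ^ 2 + 1 / 4 ≠ 0 := by positivity
      have b3 : m ^ 4 + 1 / 4 ≠ 0 := by positivity
      have b4 : m ^ 4 + 1 / 4 = ((m - 1 / 2) ^ 2 + 1 / 4) * ((m + 1 / 2) ^ 2 + 1 / 4) := by ring
      rw [b4]
      field_simp
      ring
    have e2 : m / (12 * (m ^ 4 + 1 / 4)) ≤ 1 / (12 * m ^ 3) := by
      rw [div_le_div_iff₀ (by positivity) (by positivity)]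
      nlinarith [pow_pos (by linarith : 0 < m) 4]
    rw [e1]
    calc x * (1 - x ^ 2) * (m / (12 * (m ^ 4 + 1 / 4))) ≤ x * (1 - x ^ 2) * (1 / (12 * m ^ 3)) :=
          mul_le_mul_of_nonneg_left e2 (by positivity)
      _ = _ := by field_simp; ring
  unfold lk
  rw [a1, a2]
  linarith

theorem tendsto_lg {x : ℝ} (hx0 : 0 < x) :
    Tendsto (lg x) atTop (𝓝 (Real.log (Real.Gamma (1 + x)))) := by
  have h1 := Real.GammaSeq_tendsto_Gamma x
  have hG : 0 < Real.Gamma x := Real.Gamma_pos_of_pos hx0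
  have h2 : Tendsto (fun n => Real.log (Real.GammaSeq x n)) atTop (𝓝 (Real.log (Real.Gamma x))) :=
    h1.log hG.ne'
  have h3 : Tendsto (fun n : ℕ => x * (Real.log (n + (1 + x) / 2) - Real.log n)) atTop (𝓝 0) := by
    have a1 : Tendsto (fun n : ℕ => ((n : ℝ) + (1 + x) / 2) / n) atTop (𝓝 1) := by
      have b1 : Tendsto (fun n : ℕ => 1 + ((1 + x) / 2) / (n : ℝ)) atTop (𝓝 (1 + 0)) :=
        tendsto_const_nhds.add (tendsto_const_div_atTop_nhds_zero_nat _)
      rw [add_zero] at b1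
      refine b1.congr' ?_
      filter_upwards [eventually_gt_atTop 0] with n hn
      have : (n : ℝ) ≠ 0 := by exact_mod_cast hn.ne'
      field_simp
    have a2 := (a1.log one_ne_zero).const_mul x
    rw [Real.log_one, mul_zero] at a2
    refine a2.congr' ?_
    filter_upwards [eventually_gt_atTop 0] with n hn
    have h0 : (n : ℝ) ≠ 0 := by exact_mod_cast hn.ne'
    rw [Real.log_div (by positivity) h0]
  have h4 : Tendsto (fun n : ℕ => Real.log x + Real.log (Real.GammaSeq x n) +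
      x * (Real.log (n + (1 + x) / 2) - Real.log n)) atTop
      (𝓝 (Real.log x + Real.log (Real.Gamma x) + 0)) := (h2.const_add _).add h3
  have h5 : Real.log (Real.Gamma (1 + x)) = Real.log x + Real.log (Real.Gamma x) + 0 := by
    rw [add_zero, add_comm 1 x, Real.Gamma_add_one hx0.ne', Real.log_mul hx0.ne' hG.ne']
  rw [h5]
  refine h4.congr' ?_
  filter_upwards [eventually_gt_atTop 0] with n hn
  have h0 : (0 : ℝ) < n := by exact_mod_cast hn
  have hp : ∀ m : ℕ, 0 < ∏ j ∈ range m, (x + (j : ℝ) + 1) := fun m =>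
    Finset.prod_pos fun j _ => by positivity
  have hprod : ∏ j ∈ range (n + 1), (x + (j : ℝ)) = (∏ j ∈ range n, (x + (j : ℝ) + 1)) * x := by
    rw [Finset.prod_range_succ']
    simp only [Nat.cast_zero, add_zero, Nat.cast_add, Nat.cast_one, ← add_assoc]
  have hsum1 : Real.log (∏ j ∈ range n, (x + (j : ℝ) + 1)) =
      ∑ k ∈ range n, Real.log ((k : ℝ) + 1 + x) := by
    rw [Real.log_prod]
    · refine Finset.sum_congr rfl fun k _ => ?_
      congr 1; ring
    · intro j _; positivity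
  have hsum2 : Real.log (n.factorial : ℝ) = ∑ k ∈ range n, Real.log ((k : ℝ) + 1) := by
    rw [← Finset.prod_range_add_one_eq_factorial]
    push_cast
    rw [Real.log_prod]
    intro j _; positivity
  have hlog : Real.log (Real.GammaSeq x n) = x * Real.log n +
      ∑ k ∈ range n, Real.log ((k : ℝ) + 1) - (∑ k ∈ range n, Real.log ((k : ℝ) + 1 + x) +
        Real.log x) := by
    unfold Real.GammaSeq
    rw [Real.log_div (by positivity) (by rw [hprod]; exact (mul_pos (hp n) hx0).ne'), hprod,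
      Real.log_mul (by positivity) (by positivity), Real.log_rpow h0,
      Real.log_mul (hp n).ne' hx0.ne', hsum1, hsum2]
  rw [hlog]
  unfold lg
  rw [Finset.sum_sub_distrib]
  ring

theorem tendsto_lh {x : ℝ} (hx0 : 0 < x) :
    Tendsto (lh x) atTop (𝓝 (Real.log (Real.Gamma (1 + x)))) := by
  have h1 : Tendsto (fun n : ℕ => x * (1 - x ^ 2) / (24 * ((n : ℝ) + (1 + x) / 2) ^ 2)) atTop
      (𝓝 0) := by
    refine Tendsto.div_atTop tendsto_const_nhds ?_
    refine Tendsto.const_mul_atTop (by norm_num) ?_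
    refine (tendsto_pow_atTop (two_ne_zero)).comp ?_
    exact tendsto_atTop_add_const_right _ _ tendsto_natCast_atTop_atTop
  have := (tendsto_lg hx0).add h1
  rwa [add_zero] at this

theorem tendsto_lk {x : ℝ} (hx0 : 0 < x) :
    Tendsto (lk x) atTop (𝓝 (Real.log (Real.Gamma (1 + x)))) := by
  have h1 : Tendsto (fun n : ℕ => x * (1 - x ^ 2) / (24 * (((n : ℝ) + (1 + x) / 2) ^ 2 + 1 / 4)))
      atTop (𝓝 0) := by
    refine Tendsto.div_atTop tendsto_const_nhds ?_
    refine Tendsto.const_mul_atTop (by norm_num) ?_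
    refine tendsto_atTop_add_const_right _ _ ?_
    refine (tendsto_pow_atTop (two_ne_zero)).comp ?_
    exact tendsto_atTop_add_const_right _ _ tendsto_natCast_atTop_atTop
  have := (tendsto_lg hx0).add h1
  rwa [add_zero] at this

theorem lk_le {x : ℝ} (hx0 : 0 < x) (hx1 : x ≤ 1) (N : ℕ) :
    lk x N ≤ Real.log (Real.Gamma (1 + x)) :=
  (lk_mono hx0.le hx1).ge_of_tendsto (tendsto_lk hx0) N

theorem lg_le {x : ℝ} (hx0 : 0 < x) (hx1 : x ≤ 1) (N : ℕ) :
    lg x N ≤ Real.log (Real.Gamma (1 + x)) :=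
  (lg_mono hx0.le hx1).ge_of_tendsto (tendsto_lg hx0) N

theorem le_lh {x : ℝ} (hx0 : 0 < x) (hx1 : x ≤ 1) (N : ℕ) :
    Real.log (Real.Gamma (1 + x)) ≤ lh x N :=
  (lh_anti hx0.le hx1).le_of_tendsto (tendsto_lh hx0) N

theorem exp_lg {x : ℝ} (hx0 : 0 ≤ x) (N : ℕ) :
    Real.exp (lg x N) = ((N : ℝ) + (1 + x) / 2) ^ x * ∏ k ∈ range N, (((k : ℝ) + 1) / (k + 1 + x)) := by
  unfold lg
  rw [Real.exp_add, Real.rpow_def_of_pos (by positivity), mul_comm x, Real.exp_sum]
  congr 1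
  refine Finset.prod_congr rfl fun k _ => ?_
  rw [Real.exp_sub, Real.exp_log (by positivity), Real.exp_log (by positivity)]

/-- The lower bound. -/
theorem gamma_lower {x : ℝ} (hx0 : 0 < x) (hx1 : x ≤ 1) (N : ℕ) :
    ((N : ℝ) + (1 + x) / 2) ^ x * ∏ k ∈ range N, (((k : ℝ) + 1) / (k + 1 + x)) ≤
      Real.Gamma (1 + x) := by
  rw [← exp_lg hx0.le]
  calc Real.exp (lg x N) ≤ Real.exp (Real.log (Real.Gamma (1 + x))) :=
        Real.exp_le_exp.2 (lg_le hx0 hx1 N)
    _ = _ := Real.exp_log (Real.Gamma_pos_of_pos (by positivity))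

/-- The sharper lower bound. -/
theorem gamma_lower' {x : ℝ} (hx0 : 0 < x) (hx1 : x ≤ 1) (N : ℕ) :
    ((N : ℝ) + (1 + x) / 2) ^ x * (∏ k ∈ range N, (((k : ℝ) + 1) / (k + 1 + x))) *
      Real.exp (x * (1 - x ^ 2) / (24 * (((N : ℝ) + (1 + x) / 2) ^ 2 + 1 / 4))) ≤
      Real.Gamma (1 + x) := by
  rw [← exp_lg hx0.le, ← Real.exp_add]
  calc _ ≤ Real.exp (Real.log (Real.Gamma (1 + x))) := Real.exp_le_exp.2 (lk_le hx0 hx1 N)
    _ = _ := Real.exp_log (Real.Gamma_pos_of_pos (by positivity))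

/-- The upper bound. -/
theorem gamma_upper {x : ℝ} (hx0 : 0 < x) (hx1 : x ≤ 1) (N : ℕ) :
    Real.Gamma (1 + x) ≤ ((N : ℝ) + (1 + x) / 2) ^ x *
      (∏ k ∈ range N, (((k : ℝ) + 1) / (k + 1 + x))) *
      Real.exp (x * (1 - x ^ 2) / (24 * ((N : ℝ) + (1 + x) / 2) ^ 2)) := by
  rw [← exp_lg hx0.le, ← Real.exp_add]
  calc Real.Gamma (1 + x) = Real.exp (Real.log (Real.Gamma (1 + x))) :=
        (Real.exp_log (Real.Gamma_pos_of_pos (by positivity))).symm
    _ ≤ _ := Real.exp_le_exp.2 (le_lh hx0 hx1 N)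

end Pool.Agent.Helper88.Gam
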