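import Pool.Agent.Helper88.Gam.Num

/-!
# Values of the Gamma function at the nodes `t = (24 + j) / 144`, `j = -1, ..., 13`

Bounds of `m2 t = Gamma (1 - t) Gamma (1 + t)`, `m3 t = Gamma (1 + 2 t) Gamma (1 - t)^2`,
`m4 t = Gamma (1 + 3 t) Gamma (1 - t)^3`.
-/

open Finset

namespace Pool.Agent.Helper88.Gam

/-- Second moment. -/
noncomputable def m2 (t : ℝ) : ℝ := Real.Gamma (1 - t) * Real.Gamma (1 + t)

/-- Third moment. -/
noncomputable def m3 (t : ℝ) : ℝ := Real.Gamma (1 + 2 * t) * Real.Gamma (1 - t) ^ 2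

/-- Fourth moment. -/
noncomputable def m4 (t : ℝ) : ℝ := Real.Gamma (1 + 3 * t) * Real.Gamma (1 - t) ^ 3

theorem mulb {a b c d x y : ℝ} (ha : 0 ≤ a) (hc : 0 ≤ c) (hx : a ≤ x ∧ x ≤ b)
    (hy : c ≤ y ∧ y ≤ d) : a * c ≤ x * y ∧ x * y ≤ b * d :=
  ⟨mul_le_mul hx.1 hy.1 hc (ha.trans hx.1),
    mul_le_mul hx.2 hy.2 (hc.trans hy.1) (ha.trans (hx.1.trans hx.2))⟩

theorem v_121_144 : (0.94269461 : ℝ) ≤ Real.Gamma (1 + 121 / 144) ∧
    Real.Gamma (1 + 121 / 144) ≤ 0.94269464 := by
  have h1 := gam_lo 121 144 20 1287185256 94269461 (10 ^ 8) 31382393399 (by norm_num) (by norm_num)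
    (by norm_num) (by norm_num) (by norm_num) (by norm_num [Finset.prod_range_succ, Nat.factorial])
  have h2 := gam_hi 121 144 20 1287185257 94269464 (10 ^ 8) 31363002505 (by norm_num) (by norm_num)
    (by norm_num) (by norm_num) (by norm_num) (by norm_num)
    (by norm_num [Finset.prod_range_succ, Nat.factorial])
  push_cast at h1 h2
  constructor
  · refine le_trans (le_of_eq ?_) h1
    norm_num
  · refine le_trans h2 (le_of_eq ?_)
    norm_num

theorem v_23_144 : (0.92989117 : ℝ) ≤ Real.Gamma (1 + 23 / 144) ∧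
    Real.Gamma (1 + 23 / 144) ≤ 0.92989119 := by
  have h1 := gam_lo 23 144 20 162101093 92989117 (10 ^ 8) 30370120921 (by norm_num) (by norm_num)
    (by norm_num) (by norm_num) (by norm_num) (by norm_num [Finset.prod_range_succ, Nat.factorial])
  have h2 := gam_hi 23 144 20 162101094 92989119 (10 ^ 8) 30351275495 (by norm_num) (by norm_num)
    (by norm_num) (by norm_num) (by norm_num) (by norm_num)
    (by norm_num [Finset.prod_range_succ, Nat.factorial])
  push_cast at h1 h2
  constructor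
  · refine le_trans (le_of_eq ?_) h1
    norm_num
  · refine le_trans h2 (le_of_eq ?_)
    norm_num

theorem v_23_72 : (0.89471354 : ℝ) ≤ Real.Gamma (1 + 23 / 72) ∧
    Real.Gamma (1 + 23 / 72) ≤ 0.89471357 := by
  have h1 := gam_lo 23 72 20 263092948 89471354 (10 ^ 8) 3825816553 (by norm_num) (by norm_num)
    (by norm_num) (by norm_num) (by norm_num) (by norm_num [Finset.prod_range_succ, Nat.factorial])
  have h2 := gam_hi 23 72 20 263092949 89471357 (10 ^ 8) 3823362935 (by norm_num) (by norm_num)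
    (by norm_num) (by norm_num) (by norm_num) (by norm_num)
    (by norm_num [Finset.prod_range_succ, Nat.factorial])
  push_cast at h1 h2
  constructor
  · refine le_trans (le_of_eq ?_) h1
    norm_num
  · refine le_trans h2 (le_of_eq ?_)
    norm_num

theorem v_23_48 : (0.88573423 : ℝ) ≤ Real.Gamma (1 + 23 / 48) ∧
    Real.Gamma (1 + 23 / 48) ≤ 0.88573427 := by
  have h1 := gam_lo 23 48 20 427530083 88573423 (10 ^ 8) 1142359705 (by norm_num) (by norm_num)
    (by norm_num) (by norm_num) (by norm_num) (by norm_num [Finset.prod_range_succ, Nat.factorial])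
  have h2 := gam_hi 23 48 20 427530084 88573427 (10 ^ 8) 1141614503 (by norm_num) (by norm_num)
    (by norm_num) (by norm_num) (by norm_num) (by norm_num)
    (by norm_num [Finset.prod_range_succ, Nat.factorial])
  push_cast at h1 h2
  constructor
  · refine le_trans (le_of_eq ?_) h1
    norm_num
  · refine le_trans h2 (le_of_eq ?_)
    norm_num

theorem node_23 : ((1.0432304 : ℝ) ≤ m2 (23 / 144) ∧ m2 (23 / 144) ≤ 1.0432306) ∧
    ((1.1261086 : ℝ) ≤ m3 (23 / 144) ∧ m3 (23 / 144) ≤ 1.1261088) ∧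
    ((1.2506847 : ℝ) ≤ m4 (23 / 144) ∧ m4 (23 / 144) ≤ 1.2506850) := by
  have h0 : Real.Gamma (1 - 23 / 144) = Real.Gamma (1 + 121 / 144) * (144 / 121) := by
    rw [show (1 : ℝ) + 121 / 144 = (1 - 23 / 144) + 1 by norm_num,
      Real.Gamma_add_one (by norm_num)]
    field_simp
    norm_num
  have g1 : (1.12188449 : ℝ) ≤ Real.Gamma (1 - 23 / 144) ∧
      Real.Gamma (1 - 23 / 144) ≤ 1.12188454 := by
    obtain ⟨h1, h2⟩ := v_121_144
    rw [h0]
    constructor <;> norm_num at h1 h2 ⊢ <;> linarith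
  have g2 := v_23_144
  have g3 := v_23_72
  have g4 := v_23_48
  have e3 : (1 : ℝ) + 2 * (23 / 144) = 1 + 23 / 72 := by norm_num
  have e4 : (1 : ℝ) + 3 * (23 / 144) = 1 + 23 / 48 := by norm_num
  have s1 := mulb (by norm_num) (by norm_num) g1 g1
  have s2 := mulb (by norm_num) (by norm_num) s1 g1
  have a2 := mulb (by norm_num) (by norm_num) g1 g2
  have a3 := mulb (by norm_num) (by norm_num) g3 s1
  have a4 := mulb (by norm_num) (by norm_num) g4 s2
  unfold m2 m3 m4
  rw [e3, e4, sq, pow_succ, sq]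
  refine ⟨⟨le_trans ?_ a2.1, a2.2.trans ?_⟩, ⟨le_trans ?_ a3.1, a3.2.trans ?_⟩,
    ⟨le_trans ?_ a4.1, a4.2.trans ?_⟩⟩ <;> norm_num

theorem v_120_144 : (0.94065585 : ℝ) ≤ Real.Gamma (1 + 120 / 144) ∧
    Real.Gamma (1 + 120 / 144) ≤ 0.94065587 := by
  have h1 := gam_lo 120 144 20 1260115623 94065585 (10 ^ 8) 31372005888 (by norm_num) (by norm_num)
    (by norm_num) (by norm_num) (by norm_num) (by norm_num [Finset.prod_range_succ, Nat.factorial])
  have h2 := gam_hi 120 144 20 1260115624 94065587 (10 ^ 8) 31352569344 (by norm_num) (by norm_num)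
    (by norm_num) (by norm_num) (by norm_num) (by norm_num)
    (by norm_num [Finset.prod_range_succ, Nat.factorial])
  push_cast at h1 h2
  constructor
  · refine le_trans (le_of_eq ?_) h1
    norm_num
  · refine le_trans h2 (le_of_eq ?_)
    norm_num

theorem v_24_144 : (0.92771933 : ℝ) ≤ Real.Gamma (1 + 24 / 144) ∧
    Real.Gamma (1 + 24 / 144) ≤ 0.92771935 := by
  have h1 := gam_lo 24 144 20 165546226 92771933 (10 ^ 8) 30380382720 (by norm_num) (by norm_num)
    (by norm_num) (by norm_num) (by norm_num) (by norm_num [Finset.prod_range_succ, Nat.factorial])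
  have h2 := gam_hi 24 144 20 165546227 92771935 (10 ^ 8) 30361499136 (by norm_num) (by norm_num)
    (by norm_num) (by norm_num) (by norm_num) (by norm_num)
    (by norm_num [Finset.prod_range_succ, Nat.factorial])
  push_cast at h1 h2
  constructor
  · refine le_trans (le_of_eq ?_) h1
    norm_num
  · refine le_trans h2 (le_of_eq ?_)
    norm_num

theorem v_24_72 : (0.89297950 : ℝ) ≤ Real.Gamma (1 + 24 / 72) ∧
    Real.Gamma (1 + 24 / 72) ≤ 0.89297953 := by
  have h1 := gam_lo 24 72 20 274424877 89297950 (10 ^ 8) 3828390912 (by norm_num) (by norm_num)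
    (by norm_num) (by norm_num) (by norm_num) (by norm_num [Finset.prod_range_succ, Nat.factorial])
  have h2 := gam_hi 24 72 20 274424878 89297953 (10 ^ 8) 3825930240 (by norm_num) (by norm_num)
    (by norm_num) (by norm_num) (by norm_num) (by norm_num)
    (by norm_num [Finset.prod_range_succ, Nat.factorial])
  push_cast at h1 h2
  constructor
  · refine le_trans (le_of_eq ?_) h1
    norm_num
  · refine le_trans h2 (le_of_eq ?_)
    norm_num

theorem v_24_48 : (0.88622691 : ℝ) ≤ Real.Gamma (1 + 24 / 48) ∧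
    Real.Gamma (1 + 24 / 48) ≤ 0.88622694 := by
  have h1 := gam_lo 24 48 20 455521678 88622691 (10 ^ 8) 1143507456 (by norm_num) (by norm_num)
    (by norm_num) (by norm_num) (by norm_num) (by norm_num [Finset.prod_range_succ, Nat.factorial])
  have h2 := gam_hi 24 48 20 455521679 88622694 (10 ^ 8) 1142760960 (by norm_num) (by norm_num)
    (by norm_num) (by norm_num) (by norm_num) (by norm_num)
    (by norm_num [Finset.prod_range_succ, Nat.factorial])
  push_cast at h1 h2
  constructor
  · refine le_trans (le_of_eq ?_) h1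
    norm_num
  · refine le_trans h2 (le_of_eq ?_)
    norm_num

theorem node_24 : ((1.0471975 : ℝ) ≤ m2 (24 / 144) ∧ m2 (24 / 144) ≤ 1.0471976) ∧
    ((1.1377988 : ℝ) ≤ m3 (24 / 144) ∧ m3 (24 / 144) ≤ 1.1377990) ∧
    ((1.2746206 : ℝ) ≤ m4 (24 / 144) ∧ m4 (24 / 144) ≤ 1.2746209) := by
  have h0 : Real.Gamma (1 - 24 / 144) = Real.Gamma (1 + 120 / 144) * (144 / 120) := by
    rw [show (1 : ℝ) + 120 / 144 = (1 - 24 / 144) + 1 by norm_num,
      Real.Gamma_add_one (by norm_num)]
    field_simp
    norm_num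
  have g1 : (1.12878702 : ℝ) ≤ Real.Gamma (1 - 24 / 144) ∧
      Real.Gamma (1 - 24 / 144) ≤ 1.12878705 := by
    obtain ⟨h1, h2⟩ := v_120_144
    rw [h0]
    constructor <;> norm_num at h1 h2 ⊢ <;> linarith
  have g2 := v_24_144
  have g3 := v_24_72
  have g4 := v_24_48
  have e3 : (1 : ℝ) + 2 * (24 / 144) = 1 + 24 / 72 := by norm_num
  have e4 : (1 : ℝ) + 3 * (24 / 144) = 1 + 24 / 48 := by norm_num
  have s1 := mulb (by norm_num) (by norm_num) g1 g1
  have s2 := mulb (by norm_num) (by norm_num) s1 g1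
  have a2 := mulb (by norm_num) (by norm_num) g1 g2
  have a3 := mulb (by norm_num) (by norm_num) g3 s1
  have a4 := mulb (by norm_num) (by norm_num) g4 s2
  unfold m2 m3 m4
  rw [e3, e4, sq, pow_succ, sq]
  refine ⟨⟨le_trans ?_ a2.1, a2.2.trans ?_⟩, ⟨le_trans ?_ a3.1, a3.2.trans ?_⟩,
    ⟨le_trans ?_ a4.1, a4.2.trans ?_⟩⟩ <;> norm_num

theorem v_119_144 : (0.93865408 : ℝ) ≤ Real.Gamma (1 + 119 / 144) ∧
    Real.Gamma (1 + 119 / 144) ≤ 0.93865410 := by
  have h1 := gam_lo 119 144 20 1233618083 93865408 (10 ^ 8) 31361619385 (by norm_num) (by norm_num)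
    (by norm_num) (by norm_num) (by norm_num) (by norm_num [Finset.prod_range_succ, Nat.factorial])
  have h2 := gam_hi 119 144 20 1233618084 93865410 (10 ^ 8) 31342138631 (by norm_num) (by norm_num)
    (by norm_num) (by norm_num) (by norm_num) (by norm_num)
    (by norm_num [Finset.prod_range_succ, Nat.factorial])
  push_cast at h1 h2
  constructor
  · refine le_trans (le_of_eq ?_) h1
    norm_num
  · refine le_trans h2 (le_of_eq ?_)
    norm_num

theorem v_25_144 : (0.92561140 : ℝ) ≤ Real.Gamma (1 + 25 / 144) ∧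
    Real.Gamma (1 + 25 / 144) ≤ 0.92561143 := by
  have h1 := gam_lo 25 144 20 169064972 92561140 (10 ^ 8) 30390646103 (by norm_num) (by norm_num)
    (by norm_num) (by norm_num) (by norm_num) (by norm_num [Finset.prod_range_succ, Nat.factorial])
  have h2 := gam_hi 25 144 20 169064973 92561143 (10 ^ 8) 30371724649 (by norm_num) (by norm_num)
    (by norm_num) (by norm_num) (by norm_num) (by norm_num)
    (by norm_num [Finset.prod_range_succ, Nat.factorial])
  push_cast at h1 h2
  constructor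
  · refine le_trans (le_of_eq ?_) h1
    norm_num
  · refine le_trans h2 (le_of_eq ?_)
    norm_num

theorem v_25_72 : (0.89143720 : ℝ) ≤ Real.Gamma (1 + 25 / 72) ∧
    Real.Gamma (1 + 25 / 72) ≤ 0.89143723 := by
  have h1 := gam_lo 25 72 20 286247554 89143720 (10 ^ 8) 3830965991 (by norm_num) (by norm_num)
    (by norm_num) (by norm_num) (by norm_num) (by norm_num [Finset.prod_range_succ, Nat.factorial])
  have h2 := gam_hi 25 72 20 286247555 89143723 (10 ^ 8) 3828498553 (by norm_num) (by norm_num)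
    (by norm_num) (by norm_num) (by norm_num) (by norm_num)
    (by norm_num [Finset.prod_range_succ, Nat.factorial])
  push_cast at h1 h2
  constructor
  · refine le_trans (le_of_eq ?_) h1
    norm_num
  · refine le_trans h2 (le_of_eq ?_)
    norm_num

theorem v_25_48 : (0.88707973 : ℝ) ≤ Real.Gamma (1 + 25 / 48) ∧
    Real.Gamma (1 + 25 / 48) ≤ 0.88707976 := by
  have h1 := gam_lo 25 48 20 485356053 88707973 (10 ^ 8) 1144655639 (by norm_num) (by norm_num)
    (by norm_num) (by norm_num) (by norm_num) (by norm_num [Finset.prod_range_succ, Nat.factorial])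
  have h2 := gam_hi 25 48 20 485356054 88707976 (10 ^ 8) 1143908137 (by norm_num) (by norm_num)
    (by norm_num) (by norm_num) (by norm_num) (by norm_num)
    (by norm_num [Finset.prod_range_succ, Nat.factorial])
  push_cast at h1 h2
  constructor
  · refine le_trans (le_of_eq ?_) h1
    norm_num
  · refine le_trans h2 (le_of_eq ?_)
    norm_num

theorem node_25 : ((1.0513559 : ℝ) ≤ m2 (25 / 144) ∧ m2 (25 / 144) ≤ 1.0513561) ∧
    ((1.1500929 : ℝ) ≤ m3 (25 / 144) ∧ m3 (25 / 144) ≤ 1.1500931) ∧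
    ((1.2999479 : ℝ) ≤ m4 (25 / 144) ∧ m4 (25 / 144) ≤ 1.2999481) := by
  have h0 : Real.Gamma (1 - 25 / 144) = Real.Gamma (1 + 119 / 144) * (144 / 119) := by
    rw [show (1 : ℝ) + 119 / 144 = (1 - 25 / 144) + 1 by norm_num,
      Real.Gamma_add_one (by norm_num)]
    field_simp
    norm_num
  have g1 : (1.13585031 : ℝ) ≤ Real.Gamma (1 - 25 / 144) ∧
      Real.Gamma (1 - 25 / 144) ≤ 1.13585034 := by
    obtain ⟨h1, h2⟩ := v_119_144
    rw [h0]
    constructor <;> norm_num at h1 h2 ⊢ <;> linarith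
  have g2 := v_25_144
  have g3 := v_25_72
  have g4 := v_25_48
  have e3 : (1 : ℝ) + 2 * (25 / 144) = 1 + 25 / 72 := by norm_num
  have e4 : (1 : ℝ) + 3 * (25 / 144) = 1 + 25 / 48 := by norm_num
  have s1 := mulb (by norm_num) (by norm_num) g1 g1
  have s2 := mulb (by norm_num) (by norm_num) s1 g1
  have a2 := mulb (by norm_num) (by norm_num) g1 g2
  have a3 := mulb (by norm_num) (by norm_num) g3 s1
  have a4 := mulb (by norm_num) (by norm_num) g4 s2
  unfold m2 m3 m4
  rw [e3, e4, sq, pow_succ, sq]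
  refine ⟨⟨le_trans ?_ a2.1, a2.2.trans ?_⟩, ⟨le_trans ?_ a3.1, a3.2.trans ?_⟩,
    ⟨le_trans ?_ a4.1, a4.2.trans ?_⟩⟩ <;> norm_num

theorem v_118_144 : (0.93668924 : ℝ) ≤ Real.Gamma (1 + 118 / 144) ∧
    Real.Gamma (1 + 118 / 144) ≤ 0.93668927 := by
  have h1 := gam_lo 118 144 20 1207680486 93668924 (10 ^ 8) 31351233896 (by norm_num) (by norm_num)
    (by norm_num) (by norm_num) (by norm_num) (by norm_num [Finset.prod_range_succ, Nat.factorial])
  have h2 := gam_hi 118 144 20 1207680487 93668927 (10 ^ 8) 31331710360 (by norm_num) (by norm_num)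
    (by norm_num) (by norm_num) (by norm_num) (by norm_num)
    (by norm_num [Finset.prod_range_succ, Nat.factorial])
  push_cast at h1 h2
  constructor
  · refine le_trans (le_of_eq ?_) h1
    norm_num
  · refine le_trans h2 (le_of_eq ?_)
    norm_num

theorem v_26_144 : (0.92356651 : ℝ) ≤ Real.Gamma (1 + 26 / 144) ∧
    Real.Gamma (1 + 26 / 144) ≤ 0.92356653 := by
  have h1 := gam_lo 26 144 20 172658915 92356651 (10 ^ 8) 30400911064 (by norm_num) (by norm_num)
    (by norm_num) (by norm_num) (by norm_num) (by norm_num [Finset.prod_range_succ, Nat.factorial])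
  have h2 := gam_hi 26 144 20 172658916 92356653 (10 ^ 8) 30381952040 (by norm_num) (by norm_num)
    (by norm_num) (by norm_num) (by norm_num) (by norm_num)
    (by norm_num [Finset.prod_range_succ, Nat.factorial])
  push_cast at h1 h2
  constructor
  · refine le_trans (le_of_eq ?_) h1
    norm_num
  · refine le_trans h2 (le_of_eq ?_)
    norm_num

theorem v_26_72 : (0.89008303 : ℝ) ≤ Real.Gamma (1 + 26 / 72) ∧
    Real.Gamma (1 + 26 / 72) ≤ 0.89008306 := by
  have h1 := gam_lo 26 72 20 298582347 89008303 (10 ^ 8) 3833541784 (by norm_num) (by norm_num)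
    (by norm_num) (by norm_num) (by norm_num) (by norm_num [Finset.prod_range_succ, Nat.factorial])
  have h2 := gam_hi 26 72 20 298582348 89008306 (10 ^ 8) 3831067880 (by norm_num) (by norm_num)
    (by norm_num) (by norm_num) (by norm_num) (by norm_num)
    (by norm_num [Finset.prod_range_succ, Nat.factorial])
  push_cast at h1 h2
  constructor
  · refine le_trans (le_of_eq ?_) h1
    norm_num
  · refine le_trans h2 (le_of_eq ?_)
    norm_num

theorem v_26_48 : (0.88828717 : ℝ) ≤ Real.Gamma (1 + 26 / 48) ∧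
    Real.Gamma (1 + 26 / 48) ≤ 0.88828720 := by
  have h1 := gam_lo 26 48 20 517155173 88828717 (10 ^ 8) 1145804248 (by norm_num) (by norm_num)
    (by norm_num) (by norm_num) (by norm_num) (by norm_num [Finset.prod_range_succ, Nat.factorial])
  have h2 := gam_hi 26 48 20 517155174 88828720 (10 ^ 8) 1145056040 (by norm_num) (by norm_num)
    (by norm_num) (by norm_num) (by norm_num) (by norm_num)
    (by norm_num [Finset.prod_range_succ, Nat.factorial])
  push_cast at h1 h2
  constructor
  · refine le_trans (le_of_eq ?_) h1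
    norm_num
  · refine le_trans h2 (le_of_eq ?_)
    norm_num

theorem node_26 : ((1.0557089 : ℝ) ≤ m2 (26 / 144) ∧ m2 (26 / 144) ≤ 1.0557090) ∧
    ((1.1630075 : ℝ) ≤ m3 (26 / 144) ∧ m3 (26 / 144) ≤ 1.1630078) ∧
    ((1.3267265 : ℝ) ≤ m4 (26 / 144) ∧ m4 (26 / 144) ≤ 1.3267269) := by
  have h0 : Real.Gamma (1 - 26 / 144) = Real.Gamma (1 + 118 / 144) * (144 / 118) := by
    rw [show (1 : ℝ) + 118 / 144 = (1 - 26 / 144) + 1 by norm_num,
      Real.Gamma_add_one (by norm_num)]
    field_simp
    norm_num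
  have g1 : (1.14307839 : ℝ) ≤ Real.Gamma (1 - 26 / 144) ∧
      Real.Gamma (1 - 26 / 144) ≤ 1.14307844 := by
    obtain ⟨h1, h2⟩ := v_118_144
    rw [h0]
    constructor <;> norm_num at h1 h2 ⊢ <;> linarith
  have g2 := v_26_144
  have g3 := v_26_72
  have g4 := v_26_48
  have e3 : (1 : ℝ) + 2 * (26 / 144) = 1 + 26 / 72 := by norm_num
  have e4 : (1 : ℝ) + 3 * (26 / 144) = 1 + 26 / 48 := by norm_num
  have s1 := mulb (by norm_num) (by norm_num) g1 g1
  have s2 := mulb (by norm_num) (by norm_num) s1 g1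
  have a2 := mulb (by norm_num) (by norm_num) g1 g2
  have a3 := mulb (by norm_num) (by norm_num) g3 s1
  have a4 := mulb (by norm_num) (by norm_num) g4 s2
  unfold m2 m3 m4
  rw [e3, e4, sq, pow_succ, sq]
  refine ⟨⟨le_trans ?_ a2.1, a2.2.trans ?_⟩, ⟨le_trans ?_ a3.1, a3.2.trans ?_⟩,
    ⟨le_trans ?_ a4.1, a4.2.trans ?_⟩⟩ <;> norm_num

theorem v_117_144 : (0.93476129 : ℝ) ≤ Real.Gamma (1 + 117 / 144) ∧
    Real.Gamma (1 + 117 / 144) ≤ 0.93476132 := by
  have h1 := gam_lo 117 144 20 1182290944 93476129 (10 ^ 8) 31340849427 (by norm_num) (by norm_num)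
    (by norm_num) (by norm_num) (by norm_num) (by norm_num [Finset.prod_range_succ, Nat.factorial])
  have h2 := gam_hi 117 144 20 1182290945 93476132 (10 ^ 8) 31321284525 (by norm_num) (by norm_num)
    (by norm_num) (by norm_num) (by norm_num) (by norm_num)
    (by norm_num [Finset.prod_range_succ, Nat.factorial])
  push_cast at h1 h2
  constructor
  · refine le_trans (le_of_eq ?_) h1
    norm_num
  · refine le_trans h2 (le_of_eq ?_)
    norm_num

theorem v_27_144 : (0.92158376 : ℝ) ≤ Real.Gamma (1 + 27 / 144) ∧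
    Real.Gamma (1 + 27 / 144) ≤ 0.92158379 := by
  have h1 := gam_lo 27 144 20 176329669 92158376 (10 ^ 8) 30411177597 (by norm_num) (by norm_num)
    (by norm_num) (by norm_num) (by norm_num) (by norm_num [Finset.prod_range_succ, Nat.factorial])
  have h2 := gam_hi 27 144 20 176329670 92158379 (10 ^ 8) 30392181315 (by norm_num) (by norm_num)
    (by norm_num) (by norm_num) (by norm_num) (by norm_num)
    (by norm_num [Finset.prod_range_succ, Nat.factorial])
  push_cast at h1 h2
  constructor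
  · refine le_trans (le_of_eq ?_) h1
    norm_num
  · refine le_trans h2 (le_of_eq ?_)
    norm_num

theorem v_27_72 : (0.88891356 : ℝ) ≤ Real.Gamma (1 + 27 / 72) ∧
    Real.Gamma (1 + 27 / 72) ≤ 0.88891359 := by
  have h1 := gam_lo 27 72 20 311451555 88891356 (10 ^ 8) 3836118285 (by norm_num) (by norm_num)
    (by norm_num) (by norm_num) (by norm_num) (by norm_num [Finset.prod_range_succ, Nat.factorial])
  have h2 := gam_hi 27 72 20 311451556 88891359 (10 ^ 8) 3833638227 (by norm_num) (by norm_num)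
    (by norm_num) (by norm_num) (by norm_num) (by norm_num)
    (by norm_num [Finset.prod_range_succ, Nat.factorial])
  push_cast at h1 h2
  constructor
  · refine le_trans (le_of_eq ?_) h1
    norm_num
  · refine le_trans h2 (le_of_eq ?_)
    norm_num

theorem v_27_48 : (0.88984437 : ℝ) ≤ Real.Gamma (1 + 27 / 48) ∧
    Real.Gamma (1 + 27 / 48) ≤ 0.88984440 := by
  have h1 := gam_lo 27 48 20 551049119 88984437 (10 ^ 8) 1146953277 (by norm_num) (by norm_num)
    (by norm_num) (by norm_num) (by norm_num) (by norm_num [Finset.prod_range_succ, Nat.factorial])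
  have h2 := gam_hi 27 48 20 551049120 88984440 (10 ^ 8) 1146204675 (by norm_num) (by norm_num)
    (by norm_num) (by norm_num) (by norm_num) (by norm_num)
    (by norm_num [Finset.prod_range_succ, Nat.factorial])
  push_cast at h1 h2
  constructor
  · refine le_trans (le_of_eq ?_) h1
    norm_num
  · refine le_trans h2 (le_of_eq ?_)
    norm_num

theorem node_27 : ((1.0602594 : ℝ) ≤ m2 (27 / 144) ∧ m2 (27 / 144) ≤ 1.0602596) ∧
    ((1.1765604 : ℝ) ≤ m3 (27 / 144) ∧ m3 (27 / 144) ≤ 1.1765606) ∧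
    ((1.3550212 : ℝ) ≤ m4 (27 / 144) ∧ m4 (27 / 144) ≤ 1.3550215) := by
  have h0 : Real.Gamma (1 - 27 / 144) = Real.Gamma (1 + 117 / 144) * (144 / 117) := by
    rw [show (1 : ℝ) + 117 / 144 = (1 - 27 / 144) + 1 by norm_num,
      Real.Gamma_add_one (by norm_num)]
    field_simp
    norm_num
  have g1 : (1.15047543 : ℝ) ≤ Real.Gamma (1 - 27 / 144) ∧
      Real.Gamma (1 - 27 / 144) ≤ 1.15047548 := by
    obtain ⟨h1, h2⟩ := v_117_144
    rw [h0]
    constructor <;> norm_num at h1 h2 ⊢ <;> linarith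
  have g2 := v_27_144
  have g3 := v_27_72
  have g4 := v_27_48
  have e3 : (1 : ℝ) + 2 * (27 / 144) = 1 + 27 / 72 := by norm_num
  have e4 : (1 : ℝ) + 3 * (27 / 144) = 1 + 27 / 48 := by norm_num
  have s1 := mulb (by norm_num) (by norm_num) g1 g1
  have s2 := mulb (by norm_num) (by norm_num) s1 g1
  have a2 := mulb (by norm_num) (by norm_num) g1 g2
  have a3 := mulb (by norm_num) (by norm_num) g3 s1
  have a4 := mulb (by norm_num) (by norm_num) g4 s2
  unfold m2 m3 m4
  rw [e3, e4, sq, pow_succ, sq]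
  refine ⟨⟨le_trans ?_ a2.1, a2.2.trans ?_⟩, ⟨le_trans ?_ a3.1, a3.2.trans ?_⟩,
    ⟨le_trans ?_ a4.1, a4.2.trans ?_⟩⟩ <;> norm_num

theorem v_116_144 : (0.93287017 : ℝ) ≤ Real.Gamma (1 + 116 / 144) ∧
    Real.Gamma (1 + 116 / 144) ≤ 0.93287019 := by
  have h1 := gam_lo 116 144 20 1157437821 93287017 (10 ^ 8) 31330465984 (by norm_num) (by norm_num)
    (by norm_num) (by norm_num) (by norm_num) (by norm_num [Finset.prod_range_succ, Nat.factorial])
  have h2 := gam_hi 116 144 20 1157437822 93287019 (10 ^ 8) 31310861120 (by norm_num) (by norm_num)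
    (by norm_num) (by norm_num) (by norm_num) (by norm_num)
    (by norm_num [Finset.prod_range_succ, Nat.factorial])
  push_cast at h1 h2
  constructor
  · refine le_trans (le_of_eq ?_) h1
    norm_num
  · refine le_trans h2 (le_of_eq ?_)
    norm_num

theorem v_28_144 : (0.91966232 : ℝ) ≤ Real.Gamma (1 + 28 / 144) ∧
    Real.Gamma (1 + 28 / 144) ≤ 0.91966234 := by
  have h1 := gam_lo 28 144 20 180078885 91966232 (10 ^ 8) 30421445696 (by norm_num) (by norm_num)
    (by norm_num) (by norm_num) (by norm_num) (by norm_num [Finset.prod_range_succ, Nat.factorial])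
  have h2 := gam_hi 28 144 20 180078886 91966234 (10 ^ 8) 30402412480 (by norm_num) (by norm_num)
    (by norm_num) (by norm_num) (by norm_num) (by norm_num)
    (by norm_num [Finset.prod_range_succ, Nat.factorial])
  push_cast at h1 h2
  constructor
  · refine le_trans (le_of_eq ?_) h1
    norm_num
  · refine le_trans h2 (le_of_eq ?_)
    norm_num

theorem v_28_72 : (0.88792557 : ℝ) ≤ Real.Gamma (1 + 28 / 72) ∧
    Real.Gamma (1 + 28 / 72) ≤ 0.88792560 := by
  have h1 := gam_lo 28 72 20 324878455 88792557 (10 ^ 8) 3838695488 (by norm_num) (by norm_num)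
    (by norm_num) (by norm_num) (by norm_num) (by norm_num [Finset.prod_range_succ, Nat.factorial])
  have h2 := gam_hi 28 72 20 324878456 88792560 (10 ^ 8) 3836209600 (by norm_num) (by norm_num)
    (by norm_num) (by norm_num) (by norm_num) (by norm_num)
    (by norm_num [Finset.prod_range_succ, Nat.factorial])
  push_cast at h1 h2
  constructor
  · refine le_trans (le_of_eq ?_) h1
    norm_num
  · refine le_trans h2 (le_of_eq ?_)
    norm_num

theorem v_28_48 : (0.89174702 : ℝ) ≤ Real.Gamma (1 + 28 / 48) ∧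
    Real.Gamma (1 + 28 / 48) ≤ 0.89174705 := by
  have h1 := gam_lo 28 48 20 587176628 89174702 (10 ^ 8) 1148102720 (by norm_num) (by norm_num)
    (by norm_num) (by norm_num) (by norm_num) (by norm_num [Finset.prod_range_succ, Nat.factorial])
  have h2 := gam_hi 28 48 20 587176629 89174705 (10 ^ 8) 1147354048 (by norm_num) (by norm_num)
    (by norm_num) (by norm_num) (by norm_num) (by norm_num)
    (by norm_num [Finset.prod_range_succ, Nat.factorial])
  push_cast at h1 h2
  constructor
  · refine le_trans (le_of_eq ?_) h1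
    norm_num
  · refine le_trans h2 (le_of_eq ?_)
    norm_num

theorem node_28 : ((1.0650110 : ℝ) ≤ m2 (28 / 144) ∧ m2 (28 / 144) ≤ 1.0650111) ∧
    ((1.1907702 : ℝ) ≤ m3 (28 / 144) ∧ m3 (28 / 144) ≤ 1.1907704) ∧
    ((1.3849011 : ℝ) ≤ m4 (28 / 144) ∧ m4 (28 / 144) ≤ 1.3849014) := by
  have h0 : Real.Gamma (1 - 28 / 144) = Real.Gamma (1 + 116 / 144) * (144 / 116) := by
    rw [show (1 : ℝ) + 116 / 144 = (1 - 28 / 144) + 1 by norm_num,
      Real.Gamma_add_one (by norm_num)]
    field_simp
    norm_num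
  have g1 : (1.15804572 : ℝ) ≤ Real.Gamma (1 - 28 / 144) ∧
      Real.Gamma (1 - 28 / 144) ≤ 1.15804576 := by
    obtain ⟨h1, h2⟩ := v_116_144
    rw [h0]
    constructor <;> norm_num at h1 h2 ⊢ <;> linarith
  have g2 := v_28_144
  have g3 := v_28_72
  have g4 := v_28_48
  have e3 : (1 : ℝ) + 2 * (28 / 144) = 1 + 28 / 72 := by norm_num
  have e4 : (1 : ℝ) + 3 * (28 / 144) = 1 + 28 / 48 := by norm_num
  have s1 := mulb (by norm_num) (by norm_num) g1 g1
  have s2 := mulb (by norm_num) (by norm_num) s1 g1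
  have a2 := mulb (by norm_num) (by norm_num) g1 g2
  have a3 := mulb (by norm_num) (by norm_num) g3 s1
  have a4 := mulb (by norm_num) (by norm_num) g4 s2
  unfold m2 m3 m4
  rw [e3, e4, sq, pow_succ, sq]
  refine ⟨⟨le_trans ?_ a2.1, a2.2.trans ?_⟩, ⟨le_trans ?_ a3.1, a3.2.trans ?_⟩,
    ⟨le_trans ?_ a4.1, a4.2.trans ?_⟩⟩ <;> norm_num

theorem v_115_144 : (0.93101583 : ℝ) ≤ Real.Gamma (1 + 115 / 144) ∧
    Real.Gamma (1 + 115 / 144) ≤ 0.93101586 := by
  have h1 := gam_lo 115 144 20 1133109727 93101583 (10 ^ 8) 31320083573 (by norm_num) (by norm_num)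
    (by norm_num) (by norm_num) (by norm_num) (by norm_num [Finset.prod_range_succ, Nat.factorial])
  have h2 := gam_hi 115 144 20 1133109728 93101586 (10 ^ 8) 31300440139 (by norm_num) (by norm_num)
    (by norm_num) (by norm_num) (by norm_num) (by norm_num)
    (by norm_num [Finset.prod_range_succ, Nat.factorial])
  push_cast at h1 h2
  constructor
  · refine le_trans (le_of_eq ?_) h1
    norm_num
  · refine le_trans h2 (le_of_eq ?_)
    norm_num

theorem v_29_144 : (0.91780133 : ℝ) ≤ Real.Gamma (1 + 29 / 144) ∧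
    Real.Gamma (1 + 29 / 144) ≤ 0.91780136 := by
  have h1 := gam_lo 29 144 20 183908248 91780133 (10 ^ 8) 30431715355 (by norm_num) (by norm_num)
    (by norm_num) (by norm_num) (by norm_num) (by norm_num [Finset.prod_range_succ, Nat.factorial])
  have h2 := gam_hi 29 144 20 183908249 91780136 (10 ^ 8) 30412645541 (by norm_num) (by norm_num)
    (by norm_num) (by norm_num) (by norm_num) (by norm_num)
    (by norm_num [Finset.prod_range_succ, Nat.factorial])
  push_cast at h1 h2
  constructor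
  · refine le_trans (le_of_eq ?_) h1
    norm_num
  · refine le_trans h2 (le_of_eq ?_)
    norm_num

theorem v_29_72 : (0.88711604 : ℝ) ≤ Real.Gamma (1 + 29 / 72) ∧
    Real.Gamma (1 + 29 / 72) ≤ 0.88711607 := by
  have h1 := gam_lo 29 72 20 338887342 88711604 (10 ^ 8) 3841273387 (by norm_num) (by norm_num)
    (by norm_num) (by norm_num) (by norm_num) (by norm_num [Finset.prod_range_succ, Nat.factorial])
  have h2 := gam_hi 29 72 20 338887343 88711607 (10 ^ 8) 3838782005 (by norm_num) (by norm_num)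
    (by norm_num) (by norm_num) (by norm_num) (by norm_num)
    (by norm_num [Finset.prod_range_succ, Nat.factorial])
  push_cast at h1 h2
  constructor
  · refine le_trans (le_of_eq ?_) h1
    norm_num
  · refine le_trans h2 (le_of_eq ?_)
    norm_num

theorem v_29_48 : (0.89399138 : ℝ) ≤ Real.Gamma (1 + 29 / 48) ∧
    Real.Gamma (1 + 29 / 48) ≤ 0.89399142 := by
  have h1 := gam_lo 29 48 20 625685673 89399138 (10 ^ 8) 1149252571 (by norm_num) (by norm_num)
    (by norm_num) (by norm_num) (by norm_num) (by norm_num [Finset.prod_range_succ, Nat.factorial])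
  have h2 := gam_hi 29 48 20 625685674 89399142 (10 ^ 8) 1148504165 (by norm_num) (by norm_num)
    (by norm_num) (by norm_num) (by norm_num) (by norm_num)
    (by norm_num [Finset.prod_range_succ, Nat.factorial])
  push_cast at h1 h2
  constructor
  · refine le_trans (le_of_eq ?_) h1
    norm_num
  · refine le_trans h2 (le_of_eq ?_)
    norm_num

theorem node_29 : ((1.0699670 : ℝ) ≤ m2 (29 / 144) ∧ m2 (29 / 144) ≤ 1.0699672) ∧
    ((1.2056572 : ℝ) ≤ m3 (29 / 144) ∧ m3 (29 / 144) ≤ 1.2056574) ∧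
    ((1.4164409 : ℝ) ≤ m4 (29 / 144) ∧ m4 (29 / 144) ≤ 1.4164413) := by
  have h0 : Real.Gamma (1 - 29 / 144) = Real.Gamma (1 + 115 / 144) * (144 / 115) := by
    rw [show (1 : ℝ) + 115 / 144 = (1 - 29 / 144) + 1 by norm_num,
      Real.Gamma_add_one (by norm_num)]
    field_simp
    norm_num
  have g1 : (1.16579373 : ℝ) ≤ Real.Gamma (1 - 29 / 144) ∧
      Real.Gamma (1 - 29 / 144) ≤ 1.16579378 := by
    obtain ⟨h1, h2⟩ := v_115_144
    rw [h0]
    constructor <;> norm_num at h1 h2 ⊢ <;> linarith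
  have g2 := v_29_144
  have g3 := v_29_72
  have g4 := v_29_48
  have e3 : (1 : ℝ) + 2 * (29 / 144) = 1 + 29 / 72 := by norm_num
  have e4 : (1 : ℝ) + 3 * (29 / 144) = 1 + 29 / 48 := by norm_num
  have s1 := mulb (by norm_num) (by norm_num) g1 g1
  have s2 := mulb (by norm_num) (by norm_num) s1 g1
  have a2 := mulb (by norm_num) (by norm_num) g1 g2
  have a3 := mulb (by norm_num) (by norm_num) g3 s1
  have a4 := mulb (by norm_num) (by norm_num) g4 s2
  unfold m2 m3 m4
  rw [e3, e4, sq, pow_succ, sq]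
  refine ⟨⟨le_trans ?_ a2.1, a2.2.trans ?_⟩, ⟨le_trans ?_ a3.1, a3.2.trans ?_⟩,
    ⟨le_trans ?_ a4.1, a4.2.trans ?_⟩⟩ <;> norm_num

theorem v_114_144 : (0.92919824 : ℝ) ≤ Real.Gamma (1 + 114 / 144) ∧
    Real.Gamma (1 + 114 / 144) ≤ 0.92919826 := by
  have h1 := gam_lo 114 144 20 1109295520 92919824 (10 ^ 8) 31309702200 (by norm_num) (by norm_num)
    (by norm_num) (by norm_num) (by norm_num) (by norm_num [Finset.prod_range_succ, Nat.factorial])
  have h2 := gam_hi 114 144 20 1109295521 92919826 (10 ^ 8) 31290021576 (by norm_num) (by norm_num)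
    (by norm_num) (by norm_num) (by norm_num) (by norm_num)
    (by norm_num [Finset.prod_range_succ, Nat.factorial])
  push_cast at h1 h2
  constructor
  · refine le_trans (le_of_eq ?_) h1
    norm_num
  · refine le_trans h2 (le_of_eq ?_)
    norm_num

theorem v_30_144 : (0.91600001 : ℝ) ≤ Real.Gamma (1 + 30 / 144) ∧
    Real.Gamma (1 + 30 / 144) ≤ 0.91600004 := by
  have h1 := gam_lo 30 144 20 187819481 91600001 (10 ^ 8) 30441986568 (by norm_num) (by norm_num)
    (by norm_num) (by norm_num) (by norm_num) (by norm_num [Finset.prod_range_succ, Nat.factorial])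
  have h2 := gam_hi 30 144 20 187819482 91600004 (10 ^ 8) 30422880504 (by norm_num) (by norm_num)
    (by norm_num) (by norm_num) (by norm_num) (by norm_num)
    (by norm_num [Finset.prod_range_succ, Nat.factorial])
  push_cast at h1 h2
  constructor
  · refine le_trans (le_of_eq ?_) h1
    norm_num
  · refine le_trans h2 (le_of_eq ?_)
    norm_num

theorem v_30_72 : (0.88648209 : ℝ) ≤ Real.Gamma (1 + 30 / 72) ∧
    Real.Gamma (1 + 30 / 72) ≤ 0.88648212 := by
  have h1 := gam_lo 30 72 20 353503575 88648209 (10 ^ 8) 3843851976 (by norm_num) (by norm_num)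
    (by norm_num) (by norm_num) (by norm_num) (by norm_num [Finset.prod_range_succ, Nat.factorial])
  have h2 := gam_hi 30 72 20 353503576 88648212 (10 ^ 8) 3841355448 (by norm_num) (by norm_num)
    (by norm_num) (by norm_num) (by norm_num) (by norm_num)
    (by norm_num [Finset.prod_range_succ, Nat.factorial])
  push_cast at h1 h2
  constructor
  · refine le_trans (le_of_eq ?_) h1
    norm_num
  · refine le_trans h2 (le_of_eq ?_)
    norm_num

theorem v_30_48 : (0.89657427 : ℝ) ≤ Real.Gamma (1 + 30 / 48) ∧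
    Real.Gamma (1 + 30 / 48) ≤ 0.89657430 := by
  have h1 := gam_lo 30 48 20 666734083 89657427 (10 ^ 8) 1150402824 (by norm_num) (by norm_num)
    (by norm_num) (by norm_num) (by norm_num) (by norm_num [Finset.prod_range_succ, Nat.factorial])
  have h2 := gam_hi 30 48 20 666734084 89657430 (10 ^ 8) 1149655032 (by norm_num) (by norm_num)
    (by norm_num) (by norm_num) (by norm_num) (by norm_num)
    (by norm_num [Finset.prod_range_succ, Nat.factorial])
  push_cast at h1 h2
  constructor
  · refine le_trans (le_of_eq ?_) h1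
    norm_num
  · refine le_trans h2 (le_of_eq ?_)
    norm_num

theorem node_30 : ((1.0751312 : ℝ) ≤ m2 (30 / 144) ∧ m2 (30 / 144) ≤ 1.0751314) ∧
    ((1.2212427 : ℝ) ≤ m3 (30 / 144) ∧ m3 (30 / 144) ≤ 1.2212429) ∧
    ((1.4497206 : ℝ) ≤ m4 (30 / 144) ∧ m4 (30 / 144) ≤ 1.4497209) := by
  have h0 : Real.Gamma (1 - 30 / 144) = Real.Gamma (1 + 114 / 144) * (144 / 114) := by
    rw [show (1 : ℝ) + 114 / 144 = (1 - 30 / 144) + 1 by norm_num,
      Real.Gamma_add_one (by norm_num)]
    field_simp
    norm_num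
  have g1 : (1.17372409 : ℝ) ≤ Real.Gamma (1 - 30 / 144) ∧
      Real.Gamma (1 - 30 / 144) ≤ 1.17372412 := by
    obtain ⟨h1, h2⟩ := v_114_144
    rw [h0]
    constructor <;> norm_num at h1 h2 ⊢ <;> linarith
  have g2 := v_30_144
  have g3 := v_30_72
  have g4 := v_30_48
  have e3 : (1 : ℝ) + 2 * (30 / 144) = 1 + 30 / 72 := by norm_num
  have e4 : (1 : ℝ) + 3 * (30 / 144) = 1 + 30 / 48 := by norm_num
  have s1 := mulb (by norm_num) (by norm_num) g1 g1
  have s2 := mulb (by norm_num) (by norm_num) s1 g1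
  have a2 := mulb (by norm_num) (by norm_num) g1 g2
  have a3 := mulb (by norm_num) (by norm_num) g3 s1
  have a4 := mulb (by norm_num) (by norm_num) g4 s2
  unfold m2 m3 m4
  rw [e3, e4, sq, pow_succ, sq]
  refine ⟨⟨le_trans ?_ a2.1, a2.2.trans ?_⟩, ⟨le_trans ?_ a3.1, a3.2.trans ?_⟩,
    ⟨le_trans ?_ a4.1, a4.2.trans ?_⟩⟩ <;> norm_num

theorem v_113_144 : (0.92741735 : ℝ) ≤ Real.Gamma (1 + 113 / 144) ∧
    Real.Gamma (1 + 113 / 144) ≤ 0.92741737 := by
  have h1 := gam_lo 113 144 20 1085984290 92741735 (10 ^ 8) 31299321871 (by norm_num) (by norm_num)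
    (by norm_num) (by norm_num) (by norm_num) (by norm_num [Finset.prod_range_succ, Nat.factorial])
  have h2 := gam_hi 113 144 20 1085984291 92741737 (10 ^ 8) 31279605425 (by norm_num) (by norm_num)
    (by norm_num) (by norm_num) (by norm_num) (by norm_num)
    (by norm_num [Finset.prod_range_succ, Nat.factorial])
  push_cast at h1 h2
  constructor
  · refine le_trans (le_of_eq ?_) h1
    norm_num
  · refine le_trans h2 (le_of_eq ?_)
    norm_num

theorem v_31_144 : (0.91425756 : ℝ) ≤ Real.Gamma (1 + 31 / 144) ∧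
    Real.Gamma (1 + 31 / 144) ≤ 0.91425759 := by
  have h1 := gam_lo 31 144 20 191814342 91425756 (10 ^ 8) 30452259329 (by norm_num) (by norm_num)
    (by norm_num) (by norm_num) (by norm_num) (by norm_num [Finset.prod_range_succ, Nat.factorial])
  have h2 := gam_hi 31 144 20 191814343 91425759 (10 ^ 8) 30433117375 (by norm_num) (by norm_num)
    (by norm_num) (by norm_num) (by norm_num) (by norm_num)
    (by norm_num [Finset.prod_range_succ, Nat.factorial])
  push_cast at h1 h2
  constructor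
  · refine le_trans (le_of_eq ?_) h1
    norm_num
  · refine le_trans h2 (le_of_eq ?_)
    norm_num

theorem v_31_72 : (0.88602107 : ℝ) ≤ Real.Gamma (1 + 31 / 72) ∧
    Real.Gamma (1 + 31 / 72) ≤ 0.88602110 := by
  have h1 := gam_lo 31 72 20 368753626 88602107 (10 ^ 8) 3846431249 (by norm_num) (by norm_num)
    (by norm_num) (by norm_num) (by norm_num) (by norm_num [Finset.prod_range_succ, Nat.factorial])
  have h2 := gam_hi 31 72 20 368753627 88602110 (10 ^ 8) 3843929935 (by norm_num) (by norm_num)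
    (by norm_num) (by norm_num) (by norm_num) (by norm_num)
    (by norm_num [Finset.prod_range_succ, Nat.factorial])
  push_cast at h1 h2
  constructor
  · refine le_trans (le_of_eq ?_) h1
    norm_num
  · refine le_trans h2 (le_of_eq ?_)
    norm_num

theorem v_31_48 : (0.89949297 : ℝ) ≤ Real.Gamma (1 + 31 / 48) ∧
    Real.Gamma (1 + 31 / 48) ≤ 0.89949300 := by
  have h1 := gam_lo 31 48 20 710490199 89949297 (10 ^ 8) 1151553473 (by norm_num) (by norm_num)
    (by norm_num) (by norm_num) (by norm_num) (by norm_num [Finset.prod_range_succ, Nat.factorial])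
  have h2 := gam_hi 31 48 20 710490200 89949300 (10 ^ 8) 1150806655 (by norm_num) (by norm_num)
    (by norm_num) (by norm_num) (by norm_num) (by norm_num)
    (by norm_num [Finset.prod_range_succ, Nat.factorial])
  push_cast at h1 h2
  constructor
  · refine le_trans (le_of_eq ?_) h1
    norm_num
  · refine le_trans h2 (le_of_eq ?_)
    norm_num

theorem node_31 : ((1.0805075 : ℝ) ≤ m2 (31 / 144) ∧ m2 (31 / 144) ≤ 1.0805077) ∧
    ((1.2375494 : ℝ) ≤ m3 (31 / 144) ∧ m3 (31 / 144) ≤ 1.2375497) ∧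
    ((1.4848259 : ℝ) ≤ m4 (31 / 144) ∧ m4 (31 / 144) ≤ 1.4848262) := by
  have h0 : Real.Gamma (1 - 31 / 144) = Real.Gamma (1 + 113 / 144) * (144 / 113) := by
    rw [show (1 : ℝ) + 113 / 144 = (1 - 31 / 144) + 1 by norm_num,
      Real.Gamma_add_one (by norm_num)]
    field_simp
    norm_num
  have g1 : (1.18184157 : ℝ) ≤ Real.Gamma (1 - 31 / 144) ∧
      Real.Gamma (1 - 31 / 144) ≤ 1.18184161 := by
    obtain ⟨h1, h2⟩ := v_113_144
    rw [h0]
    constructor <;> norm_num at h1 h2 ⊢ <;> linarith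
  have g2 := v_31_144
  have g3 := v_31_72
  have g4 := v_31_48
  have e3 : (1 : ℝ) + 2 * (31 / 144) = 1 + 31 / 72 := by norm_num
  have e4 : (1 : ℝ) + 3 * (31 / 144) = 1 + 31 / 48 := by norm_num
  have s1 := mulb (by norm_num) (by norm_num) g1 g1
  have s2 := mulb (by norm_num) (by norm_num) s1 g1
  have a2 := mulb (by norm_num) (by norm_num) g1 g2
  have a3 := mulb (by norm_num) (by norm_num) g3 s1
  have a4 := mulb (by norm_num) (by norm_num) g4 s2
  unfold m2 m3 m4
  rw [e3, e4, sq, pow_succ, sq]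
  refine ⟨⟨le_trans ?_ a2.1, a2.2.trans ?_⟩, ⟨le_trans ?_ a3.1, a3.2.trans ?_⟩,
    ⟨le_trans ?_ a4.1, a4.2.trans ?_⟩⟩ <;> norm_num

theorem v_112_144 : (0.92567313 : ℝ) ≤ Real.Gamma (1 + 112 / 144) ∧
    Real.Gamma (1 + 112 / 144) ≤ 0.92567316 := by
  have h1 := gam_lo 112 144 20 1063165364 92567313 (10 ^ 8) 31288942592 (by norm_num) (by norm_num)
    (by norm_num) (by norm_num) (by norm_num) (by norm_num [Finset.prod_range_succ, Nat.factorial])
  have h2 := gam_hi 112 144 20 1063165365 92567316 (10 ^ 8) 31269191680 (by norm_num) (by norm_num)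
    (by norm_num) (by norm_num) (by norm_num) (by norm_num)
    (by norm_num [Finset.prod_range_succ, Nat.factorial])
  push_cast at h1 h2
  constructor
  · refine le_trans (le_of_eq ?_) h1
    norm_num
  · refine le_trans h2 (le_of_eq ?_)
    norm_num

theorem v_32_144 : (0.91257323 : ℝ) ≤ Real.Gamma (1 + 32 / 144) ∧
    Real.Gamma (1 + 32 / 144) ≤ 0.91257325 := by
  have h1 := gam_lo 32 144 20 195894631 91257323 (10 ^ 8) 30462533632 (by norm_num) (by norm_num)
    (by norm_num) (by norm_num) (by norm_num) (by norm_num [Finset.prod_range_succ, Nat.factorial])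
  have h2 := gam_hi 32 144 20 195894632 91257325 (10 ^ 8) 30443356160 (by norm_num) (by norm_num)
    (by norm_num) (by norm_num) (by norm_num) (by norm_num)
    (by norm_num [Finset.prod_range_succ, Nat.factorial])
  push_cast at h1 h2
  constructor
  · refine le_trans (le_of_eq ?_) h1
    norm_num
  · refine le_trans h2 (le_of_eq ?_)
    norm_num

theorem v_32_72 : (0.88573044 : ℝ) ≤ Real.Gamma (1 + 32 / 72) ∧
    Real.Gamma (1 + 32 / 72) ≤ 0.88573047 := by
  have h1 := gam_lo 32 72 20 384665123 88573044 (10 ^ 8) 3849011200 (by norm_num) (by norm_num)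
    (by norm_num) (by norm_num) (by norm_num) (by norm_num [Finset.prod_range_succ, Nat.factorial])
  have h2 := gam_hi 32 72 20 384665124 88573047 (10 ^ 8) 3846505472 (by norm_num) (by norm_num)
    (by norm_num) (by norm_num) (by norm_num) (by norm_num)
    (by norm_num [Finset.prod_range_succ, Nat.factorial])
  push_cast at h1 h2
  constructor
  · refine le_trans (le_of_eq ?_) h1
    norm_num
  · refine le_trans h2 (le_of_eq ?_)
    norm_num

theorem v_32_48 : (0.90274528 : ℝ) ≤ Real.Gamma (1 + 32 / 48) ∧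
    Real.Gamma (1 + 32 / 48) ≤ 0.90274531 := by
  have h1 := gam_lo 32 48 20 757133580 90274528 (10 ^ 8) 1152704512 (by norm_num) (by norm_num)
    (by norm_num) (by norm_num) (by norm_num) (by norm_num [Finset.prod_range_succ, Nat.factorial])
  have h2 := gam_hi 32 48 20 757133581 90274531 (10 ^ 8) 1151959040 (by norm_num) (by norm_num)
    (by norm_num) (by norm_num) (by norm_num) (by norm_num)
    (by norm_num [Finset.prod_range_succ, Nat.factorial])
  push_cast at h1 h2
  constructor
  · refine le_trans (le_of_eq ?_) h1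
    norm_num
  · refine le_trans h2 (le_of_eq ?_)
    norm_num

theorem node_32 : ((1.0861000 : ℝ) ≤ m2 (32 / 144) ∧ m2 (32 / 144) ≤ 1.0861002) ∧
    ((1.2546015 : ℝ) ≤ m3 (32 / 144) ∧ m3 (32 / 144) ≤ 1.2546017) ∧
    ((1.5218491 : ℝ) ≤ m4 (32 / 144) ∧ m4 (32 / 144) ≤ 1.5218494) := by
  have h0 : Real.Gamma (1 - 32 / 144) = Real.Gamma (1 + 112 / 144) * (144 / 112) := by
    rw [show (1 : ℝ) + 112 / 144 = (1 - 32 / 144) + 1 by norm_num,
      Real.Gamma_add_one (by norm_num)]
    field_simp
    norm_num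
  have g1 : (1.19015116 : ℝ) ≤ Real.Gamma (1 - 32 / 144) ∧
      Real.Gamma (1 - 32 / 144) ≤ 1.19015121 := by
    obtain ⟨h1, h2⟩ := v_112_144
    rw [h0]
    constructor <;> norm_num at h1 h2 ⊢ <;> linarith
  have g2 := v_32_144
  have g3 := v_32_72
  have g4 := v_32_48
  have e3 : (1 : ℝ) + 2 * (32 / 144) = 1 + 32 / 72 := by norm_num
  have e4 : (1 : ℝ) + 3 * (32 / 144) = 1 + 32 / 48 := by norm_num
  have s1 := mulb (by norm_num) (by norm_num) g1 g1
  have s2 := mulb (by norm_num) (by norm_num) s1 g1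
  have a2 := mulb (by norm_num) (by norm_num) g1 g2
  have a3 := mulb (by norm_num) (by norm_num) g3 s1
  have a4 := mulb (by norm_num) (by norm_num) g4 s2
  unfold m2 m3 m4
  rw [e3, e4, sq, pow_succ, sq]
  refine ⟨⟨le_trans ?_ a2.1, a2.2.trans ?_⟩, ⟨le_trans ?_ a3.1, a3.2.trans ?_⟩,
    ⟨le_trans ?_ a4.1, a4.2.trans ?_⟩⟩ <;> norm_num

theorem v_111_144 : (0.92396556 : ℝ) ≤ Real.Gamma (1 + 111 / 144) ∧
    Real.Gamma (1 + 111 / 144) ≤ 0.92396559 := by
  have h1 := gam_lo 111 144 20 1040828295 92396556 (10 ^ 8) 31278564369 (by norm_num) (by norm_num)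
    (by norm_num) (by norm_num) (by norm_num) (by norm_num [Finset.prod_range_succ, Nat.factorial])
  have h2 := gam_hi 111 144 20 1040828296 92396559 (10 ^ 8) 31258780335 (by norm_num) (by norm_num)
    (by norm_num) (by norm_num) (by norm_num) (by norm_num)
    (by norm_num [Finset.prod_range_succ, Nat.factorial])
  push_cast at h1 h2
  constructor
  · refine le_trans (le_of_eq ?_) h1
    norm_num
  · refine le_trans h2 (le_of_eq ?_)
    norm_num

theorem v_33_144 : (0.91094626 : ℝ) ≤ Real.Gamma (1 + 33 / 144) ∧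
    Real.Gamma (1 + 33 / 144) ≤ 0.91094629 := by
  have h1 := gam_lo 33 144 20 200062183 91094626 (10 ^ 8) 30472809471 (by norm_num) (by norm_num)
    (by norm_num) (by norm_num) (by norm_num) (by norm_num [Finset.prod_range_succ, Nat.factorial])
  have h2 := gam_hi 33 144 20 200062184 91094629 (10 ^ 8) 30453596865 (by norm_num) (by norm_num)
    (by norm_num) (by norm_num) (by norm_num) (by norm_num)
    (by norm_num [Finset.prod_range_succ, Nat.factorial])
  push_cast at h1 h2
  constructor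
  · refine le_trans (le_of_eq ?_) h1
    norm_num
  · refine le_trans h2 (le_of_eq ?_)
    norm_num

theorem v_33_72 : (0.88560785 : ℝ) ≤ Real.Gamma (1 + 33 / 72) ∧
    Real.Gamma (1 + 33 / 72) ≤ 0.88560788 := by
  have h1 := gam_lo 33 72 20 401266907 88560785 (10 ^ 8) 3851591823 (by norm_num) (by norm_num)
    (by norm_num) (by norm_num) (by norm_num) (by norm_num [Finset.prod_range_succ, Nat.factorial])
  have h2 := gam_hi 33 72 20 401266908 88560788 (10 ^ 8) 3849082065 (by norm_num) (by norm_num)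
    (by norm_num) (by norm_num) (by norm_num) (by norm_num)
    (by norm_num [Finset.prod_range_succ, Nat.factorial])
  push_cast at h1 h2
  constructor
  · refine le_trans (le_of_eq ?_) h1
    norm_num
  · refine le_trans h2 (le_of_eq ?_)
    norm_num

theorem v_33_48 : (0.90632946 : ℝ) ≤ Real.Gamma (1 + 33 / 48) ∧
    Real.Gamma (1 + 33 / 48) ≤ 0.90632949 := by
  have h1 := gam_lo 33 48 20 806855754 90632946 (10 ^ 8) 1153855935 (by norm_num) (by norm_num)
    (by norm_num) (by norm_num) (by norm_num) (by norm_num [Finset.prod_range_succ, Nat.factorial])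
  have h2 := gam_hi 33 48 20 806855755 90632949 (10 ^ 8) 1153112193 (by norm_num) (by norm_num)
    (by norm_num) (by norm_num) (by norm_num) (by norm_num)
    (by norm_num [Finset.prod_range_succ, Nat.factorial])
  push_cast at h1 h2
  constructor
  · refine le_trans (le_of_eq ?_) h1
    norm_num
  · refine le_trans h2 (le_of_eq ?_)
    norm_num

theorem node_33 : ((1.0919130 : ℝ) ≤ m2 (33 / 144) ∧ m2 (33 / 144) ≤ 1.0919132) ∧
    ((1.2724245 : ℝ) ≤ m3 (33 / 144) ∧ m3 (33 / 144) ≤ 1.2724248) ∧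
    ((1.5608888 : ℝ) ≤ m4 (33 / 144) ∧ m4 (33 / 144) ≤ 1.5608892) := by
  have h0 : Real.Gamma (1 - 33 / 144) = Real.Gamma (1 + 111 / 144) * (144 / 111) := by
    rw [show (1 : ℝ) + 111 / 144 = (1 - 33 / 144) + 1 by norm_num,
      Real.Gamma_add_one (by norm_num)]
    field_simp
    norm_num
  have g1 : (1.19865802 : ℝ) ≤ Real.Gamma (1 - 33 / 144) ∧
      Real.Gamma (1 - 33 / 144) ≤ 1.19865807 := by
    obtain ⟨h1, h2⟩ := v_111_144
    rw [h0]
    constructor <;> norm_num at h1 h2 ⊢ <;> linarith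
  have g2 := v_33_144
  have g3 := v_33_72
  have g4 := v_33_48
  have e3 : (1 : ℝ) + 2 * (33 / 144) = 1 + 33 / 72 := by norm_num
  have e4 : (1 : ℝ) + 3 * (33 / 144) = 1 + 33 / 48 := by norm_num
  have s1 := mulb (by norm_num) (by norm_num) g1 g1
  have s2 := mulb (by norm_num) (by norm_num) s1 g1
  have a2 := mulb (by norm_num) (by norm_num) g1 g2
  have a3 := mulb (by norm_num) (by norm_num) g3 s1
  have a4 := mulb (by norm_num) (by norm_num) g4 s2
  unfold m2 m3 m4
  rw [e3, e4, sq, pow_succ, sq]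
  refine ⟨⟨le_trans ?_ a2.1, a2.2.trans ?_⟩, ⟨le_trans ?_ a3.1, a3.2.trans ?_⟩,
    ⟨le_trans ?_ a4.1, a4.2.trans ?_⟩⟩ <;> norm_num

theorem v_110_144 : (0.92229461 : ℝ) ≤ Real.Gamma (1 + 110 / 144) ∧
    Real.Gamma (1 + 110 / 144) ≤ 0.92229464 := by
  have h1 := gam_lo 110 144 20 1018962857 92229461 (10 ^ 8) 31268187208 (by norm_num) (by norm_num)
    (by norm_num) (by norm_num) (by norm_num) (by norm_num [Finset.prod_range_succ, Nat.factorial])
  have h2 := gam_hi 110 144 20 1018962858 92229464 (10 ^ 8) 31248371384 (by norm_num) (by norm_num)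
    (by norm_num) (by norm_num) (by norm_num) (by norm_num)
    (by norm_num [Finset.prod_range_succ, Nat.factorial])
  push_cast at h1 h2
  constructor
  · refine le_trans (le_of_eq ?_) h1
    norm_num
  · refine le_trans h2 (le_of_eq ?_)
    norm_num

theorem v_34_144 : (0.90937594 : ℝ) ≤ Real.Gamma (1 + 34 / 144) ∧
    Real.Gamma (1 + 34 / 144) ≤ 0.90937597 := by
  have h1 := gam_lo 34 144 20 204318873 90937594 (10 ^ 8) 30483086840 (by norm_num) (by norm_num)
    (by norm_num) (by norm_num) (by norm_num) (by norm_num [Finset.prod_range_succ, Nat.factorial])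
  have h2 := gam_hi 34 144 20 204318874 90937597 (10 ^ 8) 30463839496 (by norm_num) (by norm_num)
    (by norm_num) (by norm_num) (by norm_num) (by norm_num)
    (by norm_num [Finset.prod_range_succ, Nat.factorial])
  push_cast at h1 h2
  constructor
  · refine le_trans (le_of_eq ?_) h1
    norm_num
  · refine le_trans h2 (le_of_eq ?_)
    norm_num

theorem v_34_72 : (0.88565108 : ℝ) ≤ Real.Gamma (1 + 34 / 72) ∧
    Real.Gamma (1 + 34 / 72) ≤ 0.88565111 := by
  have h1 := gam_lo 34 72 20 418589082 88565108 (10 ^ 8) 3854173112 (by norm_num) (by norm_num)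
    (by norm_num) (by norm_num) (by norm_num) (by norm_num [Finset.prod_range_succ, Nat.factorial])
  have h2 := gam_hi 34 72 20 418589083 88565111 (10 ^ 8) 3851659720 (by norm_num) (by norm_num)
    (by norm_num) (by norm_num) (by norm_num) (by norm_num)
    (by norm_num [Finset.prod_range_succ, Nat.factorial])
  push_cast at h1 h2
  constructor
  · refine le_trans (le_of_eq ?_) h1
    norm_num
  · refine le_trans h2 (le_of_eq ?_)
    norm_num

theorem v_34_48 : (0.91024423 : ℝ) ≤ Real.Gamma (1 + 34 / 48) ∧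
    Real.Gamma (1 + 34 / 48) ≤ 0.91024426 := by
  have h1 := gam_lo 34 48 20 859861020 91024423 (10 ^ 8) 1155007736 (by norm_num) (by norm_num)
    (by norm_num) (by norm_num) (by norm_num) (by norm_num [Finset.prod_range_succ, Nat.factorial])
  have h2 := gam_hi 34 48 20 859861021 91024426 (10 ^ 8) 1154266120 (by norm_num) (by norm_num)
    (by norm_num) (by norm_num) (by norm_num) (by norm_num)
    (by norm_num [Finset.prod_range_succ, Nat.factorial])
  push_cast at h1 h2
  constructor
  · refine le_trans (le_of_eq ?_) h1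
    norm_num
  · refine le_trans h2 (le_of_eq ?_)
    norm_num

theorem node_34 : ((1.0979509 : ℝ) ≤ m2 (34 / 144) ∧ m2 (34 / 144) ≤ 1.0979511) ∧
    ((1.2910456 : ℝ) ≤ m3 (34 / 144) ∧ m3 (34 / 144) ≤ 1.2910459) ∧
    ((1.6020510 : ℝ) ≤ m4 (34 / 144) ∧ m4 (34 / 144) ≤ 1.6020514) := by
  have h0 : Real.Gamma (1 - 34 / 144) = Real.Gamma (1 + 110 / 144) * (144 / 110) := by
    rw [show (1 : ℝ) + 110 / 144 = (1 - 34 / 144) + 1 by norm_num,
      Real.Gamma_add_one (by norm_num)]
    field_simp
    norm_num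
  have g1 : (1.20736748 : ℝ) ≤ Real.Gamma (1 - 34 / 144) ∧
      Real.Gamma (1 - 34 / 144) ≤ 1.20736753 := by
    obtain ⟨h1, h2⟩ := v_110_144
    rw [h0]
    constructor <;> norm_num at h1 h2 ⊢ <;> linarith
  have g2 := v_34_144
  have g3 := v_34_72
  have g4 := v_34_48
  have e3 : (1 : ℝ) + 2 * (34 / 144) = 1 + 34 / 72 := by norm_num
  have e4 : (1 : ℝ) + 3 * (34 / 144) = 1 + 34 / 48 := by norm_num
  have s1 := mulb (by norm_num) (by norm_num) g1 g1
  have s2 := mulb (by norm_num) (by norm_num) s1 g1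
  have a2 := mulb (by norm_num) (by norm_num) g1 g2
  have a3 := mulb (by norm_num) (by norm_num) g3 s1
  have a4 := mulb (by norm_num) (by norm_num) g4 s2
  unfold m2 m3 m4
  rw [e3, e4, sq, pow_succ, sq]
  refine ⟨⟨le_trans ?_ a2.1, a2.2.trans ?_⟩, ⟨le_trans ?_ a3.1, a3.2.trans ?_⟩,
    ⟨le_trans ?_ a4.1, a4.2.trans ?_⟩⟩ <;> norm_num

theorem v_109_144 : (0.92066027 : ℝ) ≤ Real.Gamma (1 + 109 / 144) ∧
    Real.Gamma (1 + 109 / 144) ≤ 0.92066030 := by
  have h1 := gam_lo 109 144 20 997559046 92066027 (10 ^ 8) 31257811115 (by norm_num) (by norm_num)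
    (by norm_num) (by norm_num) (by norm_num) (by norm_num [Finset.prod_range_succ, Nat.factorial])
  have h2 := gam_hi 109 144 20 997559047 92066030 (10 ^ 8) 31237964821 (by norm_num) (by norm_num)
    (by norm_num) (by norm_num) (by norm_num) (by norm_num)
    (by norm_num [Finset.prod_range_succ, Nat.factorial])
  push_cast at h1 h2
  constructor
  · refine le_trans (le_of_eq ?_) h1
    norm_num
  · refine le_trans h2 (le_of_eq ?_)
    norm_num

theorem v_35_144 : (0.90786157 : ℝ) ≤ Real.Gamma (1 + 35 / 144) ∧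
    Real.Gamma (1 + 35 / 144) ≤ 0.90786160 := by
  have h1 := gam_lo 35 144 20 208666619 90786157 (10 ^ 8) 30493365733 (by norm_num) (by norm_num)
    (by norm_num) (by norm_num) (by norm_num) (by norm_num [Finset.prod_range_succ, Nat.factorial])
  have h2 := gam_hi 35 144 20 208666620 90786160 (10 ^ 8) 30474084059 (by norm_num) (by norm_num)
    (by norm_num) (by norm_num) (by norm_num) (by norm_num)
    (by norm_num [Finset.prod_range_succ, Nat.factorial])
  push_cast at h1 h2
  constructor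
  · refine le_trans (le_of_eq ?_) h1
    norm_num
  · refine le_trans h2 (le_of_eq ?_)
    norm_num

theorem v_35_72 : (0.88585808 : ℝ) ≤ Real.Gamma (1 + 35 / 72) ∧
    Real.Gamma (1 + 35 / 72) ≤ 0.88585811 := by
  have h1 := gam_lo 35 72 20 436663072 88585808 (10 ^ 8) 3856755061 (by norm_num) (by norm_num)
    (by norm_num) (by norm_num) (by norm_num) (by norm_num [Finset.prod_range_succ, Nat.factorial])
  have h2 := gam_hi 35 72 20 436663073 88585811 (10 ^ 8) 3854238443 (by norm_num) (by norm_num)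
    (by norm_num) (by norm_num) (by norm_num) (by norm_num)
    (by norm_num [Finset.prod_range_succ, Nat.factorial])
  push_cast at h1 h2
  constructor
  · refine le_trans (le_of_eq ?_) h1
    norm_num
  · refine le_trans h2 (le_of_eq ?_)
    norm_num

theorem v_35_48 : (0.91448873 : ℝ) ≤ Real.Gamma (1 + 35 / 48) ∧
    Real.Gamma (1 + 35 / 48) ≤ 0.91448876 := by
  have h1 := gam_lo 35 48 20 916367303 91448873 (10 ^ 8) 1156159909 (by norm_num) (by norm_num)
    (by norm_num) (by norm_num) (by norm_num) (by norm_num [Finset.prod_range_succ, Nat.factorial])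
  have h2 := gam_hi 35 48 20 916367304 91448876 (10 ^ 8) 1155420827 (by norm_num) (by norm_num)
    (by norm_num) (by norm_num) (by norm_num) (by norm_num)
    (by norm_num [Finset.prod_range_succ, Nat.factorial])
  push_cast at h1 h2
  constructor
  · refine le_trans (le_of_eq ?_) h1
    norm_num
  · refine le_trans h2 (le_of_eq ?_)
    norm_num

theorem node_35 : ((1.1042185 : ℝ) ≤ m2 (35 / 144) ∧ m2 (35 / 144) ≤ 1.1042187) ∧
    ((1.3104937 : ℝ) ≤ m3 (35 / 144) ∧ m3 (35 / 144) ≤ 1.3104939) ∧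
    ((1.6454494 : ℝ) ≤ m4 (35 / 144) ∧ m4 (35 / 144) ≤ 1.6454497) := by
  have h0 : Real.Gamma (1 - 35 / 144) = Real.Gamma (1 + 109 / 144) * (144 / 109) := by
    rw [show (1 : ℝ) + 109 / 144 = (1 - 35 / 144) + 1 by norm_num,
      Real.Gamma_add_one (by norm_num)]
    field_simp
    norm_num
  have g1 : (1.21628512 : ℝ) ≤ Real.Gamma (1 - 35 / 144) ∧
      Real.Gamma (1 - 35 / 144) ≤ 1.21628517 := by
    obtain ⟨h1, h2⟩ := v_109_144
    rw [h0]
    constructor <;> norm_num at h1 h2 ⊢ <;> linarith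
  have g2 := v_35_144
  have g3 := v_35_72
  have g4 := v_35_48
  have e3 : (1 : ℝ) + 2 * (35 / 144) = 1 + 35 / 72 := by norm_num
  have e4 : (1 : ℝ) + 3 * (35 / 144) = 1 + 35 / 48 := by norm_num
  have s1 := mulb (by norm_num) (by norm_num) g1 g1
  have s2 := mulb (by norm_num) (by norm_num) s1 g1
  have a2 := mulb (by norm_num) (by norm_num) g1 g2
  have a3 := mulb (by norm_num) (by norm_num) g3 s1
  have a4 := mulb (by norm_num) (by norm_num) g4 s2
  unfold m2 m3 m4
  rw [e3, e4, sq, pow_succ, sq]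
  refine ⟨⟨le_trans ?_ a2.1, a2.2.trans ?_⟩, ⟨le_trans ?_ a3.1, a3.2.trans ?_⟩,
    ⟨le_trans ?_ a4.1, a4.2.trans ?_⟩⟩ <;> norm_num

theorem v_108_144 : (0.91906251 : ℝ) ≤ Real.Gamma (1 + 108 / 144) ∧
    Real.Gamma (1 + 108 / 144) ≤ 0.91906254 := by
  have h1 := gam_lo 108 144 20 976607068 91906251 (10 ^ 8) 31247436096 (by norm_num) (by norm_num)
    (by norm_num) (by norm_num) (by norm_num) (by norm_num [Finset.prod_range_succ, Nat.factorial])
  have h2 := gam_hi 108 144 20 976607069 91906254 (10 ^ 8) 31227560640 (by norm_num) (by norm_num)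
    (by norm_num) (by norm_num) (by norm_num) (by norm_num)
    (by norm_num [Finset.prod_range_succ, Nat.factorial])
  push_cast at h1 h2
  constructor
  · refine le_trans (le_of_eq ?_) h1
    norm_num
  · refine le_trans h2 (le_of_eq ?_)
    norm_num

theorem v_36_144 : (0.90640246 : ℝ) ≤ Real.Gamma (1 + 36 / 144) ∧
    Real.Gamma (1 + 36 / 144) ≤ 0.90640249 := by
  have h1 := gam_lo 36 144 20 213107379 90640246 (10 ^ 8) 30503646144 (by norm_num) (by norm_num)
    (by norm_num) (by norm_num) (by norm_num) (by norm_num [Finset.prod_range_succ, Nat.factorial])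
  have h2 := gam_hi 36 144 20 213107380 90640249 (10 ^ 8) 30484330560 (by norm_num) (by norm_num)
    (by norm_num) (by norm_num) (by norm_num) (by norm_num)
    (by norm_num [Finset.prod_range_succ, Nat.factorial])
  push_cast at h1 h2
  constructor
  · refine le_trans (le_of_eq ?_) h1
    norm_num
  · refine le_trans h2 (le_of_eq ?_)
    norm_num

theorem v_36_72 : (0.88622691 : ℝ) ≤ Real.Gamma (1 + 36 / 72) ∧
    Real.Gamma (1 + 36 / 72) ≤ 0.88622694 := by
  have h1 := gam_lo 36 72 20 455521678 88622691 (10 ^ 8) 3859337664 (by norm_num) (by norm_num)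
    (by norm_num) (by norm_num) (by norm_num) (by norm_num [Finset.prod_range_succ, Nat.factorial])
  have h2 := gam_hi 36 72 20 455521679 88622694 (10 ^ 8) 3856818240 (by norm_num) (by norm_num)
    (by norm_num) (by norm_num) (by norm_num) (by norm_num)
    (by norm_num [Finset.prod_range_succ, Nat.factorial])
  push_cast at h1 h2
  constructor
  · refine le_trans (le_of_eq ?_) h1
    norm_num
  · refine le_trans h2 (le_of_eq ?_)
    norm_num

theorem v_36_48 : (0.91906251 : ℝ) ≤ Real.Gamma (1 + 36 / 48) ∧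
    Real.Gamma (1 + 36 / 48) ≤ 0.91906254 := by
  have h1 := gam_lo 36 48 20 976607068 91906251 (10 ^ 8) 1157312448 (by norm_num) (by norm_num)
    (by norm_num) (by norm_num) (by norm_num) (by norm_num [Finset.prod_range_succ, Nat.factorial])
  have h2 := gam_hi 36 48 20 976607069 91906254 (10 ^ 8) 1156576320 (by norm_num) (by norm_num)
    (by norm_num) (by norm_num) (by norm_num) (by norm_num)
    (by norm_num [Finset.prod_range_succ, Nat.factorial])
  push_cast at h1 h2
  constructor
  · refine le_trans (le_of_eq ?_) h1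
    norm_num
  · refine le_trans h2 (le_of_eq ?_)
    norm_num

theorem node_36 : ((1.1107206 : ℝ) ≤ m2 (36 / 144) ∧ m2 (36 / 144) ≤ 1.1107208) ∧
    ((1.3307991 : ℝ) ≤ m3 (36 / 144) ∧ m3 (36 / 144) ≤ 1.3307993) ∧
    ((1.6912056 : ℝ) ≤ m4 (36 / 144) ∧ m4 (36 / 144) ≤ 1.6912059) := by
  have h0 : Real.Gamma (1 - 36 / 144) = Real.Gamma (1 + 108 / 144) * (144 / 108) := by
    rw [show (1 : ℝ) + 108 / 144 = (1 - 36 / 144) + 1 by norm_num,
      Real.Gamma_add_one (by norm_num)]
    field_simp
    norm_num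
  have g1 : (1.22541668 : ℝ) ≤ Real.Gamma (1 - 36 / 144) ∧
      Real.Gamma (1 - 36 / 144) ≤ 1.22541672 := by
    obtain ⟨h1, h2⟩ := v_108_144
    rw [h0]
    constructor <;> norm_num at h1 h2 ⊢ <;> linarith
  have g2 := v_36_144
  have g3 := v_36_72
  have g4 := v_36_48
  have e3 : (1 : ℝ) + 2 * (36 / 144) = 1 + 36 / 72 := by norm_num
  have e4 : (1 : ℝ) + 3 * (36 / 144) = 1 + 36 / 48 := by norm_num
  have s1 := mulb (by norm_num) (by norm_num) g1 g1
  have s2 := mulb (by norm_num) (by norm_num) s1 g1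
  have a2 := mulb (by norm_num) (by norm_num) g1 g2
  have a3 := mulb (by norm_num) (by norm_num) g3 s1
  have a4 := mulb (by norm_num) (by norm_num) g4 s2
  unfold m2 m3 m4
  rw [e3, e4, sq, pow_succ, sq]
  refine ⟨⟨le_trans ?_ a2.1, a2.2.trans ?_⟩, ⟨le_trans ?_ a3.1, a3.2.trans ?_⟩,
    ⟨le_trans ?_ a4.1, a4.2.trans ?_⟩⟩ <;> norm_num

theorem v_107_144 : (0.91750134 : ℝ) ≤ Real.Gamma (1 + 107 / 144) ∧
    Real.Gamma (1 + 107 / 144) ≤ 0.91750137 := by
  have h1 := gam_lo 107 144 20 956097338 91750134 (10 ^ 8) 31237062157 (by norm_num) (by norm_num)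
    (by norm_num) (by norm_num) (by norm_num) (by norm_num [Finset.prod_range_succ, Nat.factorial])
  have h2 := gam_hi 107 144 20 956097339 91750137 (10 ^ 8) 31217158835 (by norm_num) (by norm_num)
    (by norm_num) (by norm_num) (by norm_num) (by norm_num)
    (by norm_num [Finset.prod_range_succ, Nat.factorial])
  push_cast at h1 h2
  constructor
  · refine le_trans (le_of_eq ?_) h1
    norm_num
  · refine le_trans h2 (le_of_eq ?_)
    norm_num

theorem v_37_144 : (0.90499796 : ℝ) ≤ Real.Gamma (1 + 37 / 144) ∧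
    Real.Gamma (1 + 37 / 144) ≤ 0.90499799 := by
  have h1 := gam_lo 37 144 20 217643153 90499796 (10 ^ 8) 30513928067 (by norm_num) (by norm_num)
    (by norm_num) (by norm_num) (by norm_num) (by norm_num [Finset.prod_range_succ, Nat.factorial])
  have h2 := gam_hi 37 144 20 217643154 90499799 (10 ^ 8) 30494579005 (by norm_num) (by norm_num)
    (by norm_num) (by norm_num) (by norm_num) (by norm_num)
    (by norm_num [Finset.prod_range_succ, Nat.factorial])
  push_cast at h1 h2
  constructor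
  · refine le_trans (le_of_eq ?_) h1
    norm_num
  · refine le_trans h2 (le_of_eq ?_)
    norm_num

theorem v_37_72 : (0.88675579 : ℝ) ≤ Real.Gamma (1 + 37 / 72) ∧
    Real.Gamma (1 + 37 / 72) ≤ 0.88675582 := by
  have h1 := gam_lo 37 72 20 475199142 88675579 (10 ^ 8) 3861920915 (by norm_num) (by norm_num)
    (by norm_num) (by norm_num) (by norm_num) (by norm_num [Finset.prod_range_succ, Nat.factorial])
  have h2 := gam_hi 37 72 20 475199143 88675582 (10 ^ 8) 3859399117 (by norm_num) (by norm_num)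
    (by norm_num) (by norm_num) (by norm_num) (by norm_num)
    (by norm_num [Finset.prod_range_succ, Nat.factorial])
  push_cast at h1 h2
  constructor
  · refine le_trans (le_of_eq ?_) h1
    norm_num
  · refine le_trans h2 (le_of_eq ?_)
    norm_num

theorem v_37_48 : (0.92396556 : ℝ) ≤ Real.Gamma (1 + 37 / 48) ∧
    Real.Gamma (1 + 37 / 48) ≤ 0.92396559 := by
  have h1 := gam_lo 37 48 20 1040828295 92396556 (10 ^ 8) 1158465347 (by norm_num) (by norm_num)
    (by norm_num) (by norm_num) (by norm_num) (by norm_num [Finset.prod_range_succ, Nat.factorial])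
  have h2 := gam_hi 37 48 20 1040828296 92396559 (10 ^ 8) 1157732605 (by norm_num) (by norm_num)
    (by norm_num) (by norm_num) (by norm_num) (by norm_num)
    (by norm_num [Finset.prod_range_succ, Nat.factorial])
  push_cast at h1 h2
  constructor
  · refine le_trans (le_of_eq ?_) h1
    norm_num
  · refine le_trans h2 (le_of_eq ?_)
    norm_num

theorem node_37 : ((1.1174626 : ℝ) ≤ m2 (37 / 144) ∧ m2 (37 / 144) ≤ 1.1174628) ∧
    ((1.3519943 : ℝ) ≤ m3 (37 / 144) ∧ m3 (37 / 144) ≤ 1.3519945) ∧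
    ((1.7394503 : ℝ) ≤ m4 (37 / 144) ∧ m4 (37 / 144) ≤ 1.7394507) := by
  have h0 : Real.Gamma (1 - 37 / 144) = Real.Gamma (1 + 107 / 144) * (144 / 107) := by
    rw [show (1 : ℝ) + 107 / 144 = (1 - 37 / 144) + 1 by norm_num,
      Real.Gamma_add_one (by norm_num)]
    field_simp
    norm_num
  have g1 : (1.23476815 : ℝ) ≤ Real.Gamma (1 - 37 / 144) ∧
      Real.Gamma (1 - 37 / 144) ≤ 1.23476820 := by
    obtain ⟨h1, h2⟩ := v_107_144
    rw [h0]
    constructor <;> norm_num at h1 h2 ⊢ <;> linarith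
  have g2 := v_37_144
  have g3 := v_37_72
  have g4 := v_37_48
  have e3 : (1 : ℝ) + 2 * (37 / 144) = 1 + 37 / 72 := by norm_num
  have e4 : (1 : ℝ) + 3 * (37 / 144) = 1 + 37 / 48 := by norm_num
  have s1 := mulb (by norm_num) (by norm_num) g1 g1
  have s2 := mulb (by norm_num) (by norm_num) s1 g1
  have a2 := mulb (by norm_num) (by norm_num) g1 g2
  have a3 := mulb (by norm_num) (by norm_num) g3 s1
  have a4 := mulb (by norm_num) (by norm_num) g4 s2
  unfold m2 m3 m4
  rw [e3, e4, sq, pow_succ, sq]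
  refine ⟨⟨le_trans ?_ a2.1, a2.2.trans ?_⟩, ⟨le_trans ?_ a3.1, a3.2.trans ?_⟩,
    ⟨le_trans ?_ a4.1, a4.2.trans ?_⟩⟩ <;> norm_num

end Pool.Agent.Helper88.Gam
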