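import Pool.Agent.Helper88.Gam.Basic

/-!
# Numerical bounds for the Gamma function at rational points

`gam_lo`, `gam_hi`: two-sided bounds of `Gamma (1 + p / q)`, `0 < p ≤ q`, whose hypotheses are
inequalities between natural numbers (checked by `norm_num`).
-/

open Finset

namespace Pool.Agent.Helper88.Gam

theorem prod_eq {p q : ℕ} (hq : 0 < q) (N : ℕ) :
    ∏ k ∈ range N, (((k : ℝ) + 1) / (k + 1 + (p : ℝ) / q)) =
      ((N.factorial * q ^ N : ℕ) : ℝ) / ((∏ k ∈ range N, ((k + 1) * q + p) : ℕ) : ℝ) := by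
  have hq' : (q : ℝ) ≠ 0 := by exact_mod_cast hq.ne'
  induction N with
  | zero => simp
  | succ N ih =>
    rw [Finset.prod_range_succ, ih, Finset.prod_range_succ, Nat.factorial_succ, pow_succ]
    have h1 : ((∏ k ∈ range N, ((k + 1) * q + p) : ℕ) : ℝ) ≠ 0 := by
      have : 0 < ∏ k ∈ range N, ((k + 1) * q + p) := Finset.prod_pos fun k _ => by positivity
      exact_mod_cast this.ne'
    have h2 : ((N : ℝ) + 1) * q + p ≠ 0 := by positivity
    push_cast at h1 ⊢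
    have h3 : (N : ℝ) + 1 + p / q = (((N : ℝ) + 1) * q + p) / q := by field_simp
    rw [h3]
    have h4 : ∏ x ∈ range N, (((x : ℝ) + 1) * q + p) ≠ 0 := h1
    generalize ∏ x ∈ range N, (((x : ℝ) + 1) * q + p) = Q at *
    field_simp

theorem base_eq {p q : ℕ} (hq : 0 < q) (N : ℕ) :
    (N : ℝ) + (1 + (p : ℝ) / q) / 2 = ((2 * q * N + q + p : ℕ) : ℝ) / ((2 * q : ℕ) : ℝ) := by
  have hq' : (q : ℝ) ≠ 0 := by exact_mod_cast hq.ne'
  push_cast
  field_simp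
  ring

theorem rpow_div {c : ℝ} (hc : 0 ≤ c) {p q : ℕ} (hq : 0 < q) :
    (c ^ ((p : ℝ) / q)) ^ q = c ^ p := by
  have hq' : (q : ℝ) ≠ 0 := by exact_mod_cast hq.ne'
  rw [← Real.rpow_natCast, ← Real.rpow_mul hc, div_mul_cancel₀ _ hq', Real.rpow_natCast]

/-- Lower bound: `U / E` is a lower bound of `c ^ (p / q)` and `A / E` of the Gamma function. -/
theorem gam_lo (p q N U A E D : ℕ) (hp : 0 < p) (hpq : p ≤ q) (hE : 0 < E)
    (hU : U ^ q * (2 * q) ^ p ≤ (2 * q * N + q + p) ^ p * E ^ q)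
    (hD : D + p ^ 3 = 6 * q * ((2 * q * N + q + p) ^ 2 + q ^ 2) + p * q ^ 2)
    (hA : A * (∏ k ∈ range N, ((k + 1) * q + p)) *
      (6 * q * ((2 * q * N + q + p) ^ 2 + q ^ 2)) ≤ U * (N.factorial * q ^ N) * D) :
    (A : ℝ) / E ≤ Real.Gamma (1 + (p : ℝ) / q) := by
  have hq : 0 < q := by omega
  have hq' : (0 : ℝ) < q := by exact_mod_cast hq
  have hE' : (0 : ℝ) < E := by exact_mod_cast hE
  have hx0 : (0 : ℝ) < (p : ℝ) / q := by
    have : (0 : ℝ) < p := by exact_mod_cast hp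
    positivity
  have hx1 : (p : ℝ) / q ≤ 1 := by
    rw [div_le_one hq']; exact_mod_cast hpq
  have h := gamma_lower' hx0 hx1 N
  refine le_trans ?_ h
  rw [prod_eq hq, base_eq hq]
  set M : ℕ := 2 * q * N + q + p with hM
  have hM0 : (0 : ℝ) < M := by
    have : 0 < M := by omega
    exact_mod_cast this
  set c : ℝ := ((M : ℕ) : ℝ) / ((2 * q : ℕ) : ℝ) with hc
  have hc0 : 0 ≤ c := by positivity
  have hP : (0 : ℝ) < ((∏ k ∈ range N, ((k + 1) * q + p) : ℕ) : ℝ) := by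
    have : 0 < ∏ k ∈ range N, ((k + 1) * q + p) := Finset.prod_pos fun k _ => by positivity
    exact_mod_cast this
  have h1 : (U : ℝ) / E ≤ c ^ ((p : ℝ) / q) := by
    refine le_of_pow_le_pow_left₀ hq.ne' (by positivity) ?_
    rw [rpow_div hc0 hq, hc, div_pow, div_pow, div_le_div_iff₀ (by positivity) (by positivity)]
    exact_mod_cast hU
  have hDR : (D : ℝ) + p ^ 3 = 6 * q * ((M : ℝ) ^ 2 + q ^ 2) + p * q ^ 2 := by exact_mod_cast hD
  have hy : (D : ℝ) / (6 * q * ((M : ℝ) ^ 2 + q ^ 2)) =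
      (p : ℝ) / q * (1 - ((p : ℝ) / q) ^ 2) / (24 * (c ^ 2 + 1 / 4)) + 1 := by
    have hD2 : (D : ℝ) = 6 * q * ((M : ℝ) ^ 2 + q ^ 2) + p * q ^ 2 - p ^ 3 := by linarith
    have hc2 : c ^ 2 + 1 / 4 = ((M : ℝ) ^ 2 + q ^ 2) / (4 * q ^ 2) := by
      rw [hc]; push_cast; field_simp; ring
    rw [hc2, hD2]
    field_simp
    ring
  have h2 : (D : ℝ) / (6 * q * ((M : ℝ) ^ 2 + q ^ 2)) ≤
      Real.exp ((p : ℝ) / q * (1 - ((p : ℝ) / q) ^ 2) / (24 * (c ^ 2 + 1 / 4))) := by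
    rw [hy]; exact Real.add_one_le_exp _
  calc (A : ℝ) / E ≤ (U : ℝ) / E * (((N.factorial * q ^ N : ℕ) : ℝ) /
        ((∏ k ∈ range N, ((k + 1) * q + p) : ℕ) : ℝ)) *
        ((D : ℝ) / (6 * q * ((M : ℝ) ^ 2 + q ^ 2))) := by
        rw [div_mul_div_comm, div_mul_div_comm, div_le_div_iff₀ hE' (by positivity)]
        have h3 : (A : ℝ) * ((∏ k ∈ range N, ((k + 1) * q + p) : ℕ) : ℝ) *
            (6 * q * ((M : ℝ) ^ 2 + q ^ 2)) ≤
            U * ((N.factorial * q ^ N : ℕ) : ℝ) * D := by exact_mod_cast hA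
        nlinarith
    _ ≤ _ := mul_le_mul (mul_le_mul_of_nonneg_right h1 (by positivity)) h2 (by positivity)
        (by positivity)

/-- Upper bound: `V / E` is an upper bound of `c ^ (p / q)` and `B / E` of the Gamma function. -/
theorem gam_hi (p q N V C E D : ℕ) (hp : 0 < p) (hpq : p ≤ q) (hE : 0 < E)
    (hV : (2 * q * N + q + p) ^ p * E ^ q ≤ V ^ q * (2 * q) ^ p) (hD0 : 0 < D)
    (hD : D + p * q ^ 2 = 6 * q * (2 * q * N + q + p) ^ 2 + p ^ 3)
    (hC : V * (N.factorial * q ^ N) * (6 * q * (2 * q * N + q + p) ^ 2) ≤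
      C * (∏ k ∈ range N, ((k + 1) * q + p)) * D) :
    Real.Gamma (1 + (p : ℝ) / q) ≤ (C : ℝ) / E := by
  have hq : 0 < q := by omega
  have hq' : (0 : ℝ) < q := by exact_mod_cast hq
  have hE' : (0 : ℝ) < E := by exact_mod_cast hE
  have hx0 : (0 : ℝ) < (p : ℝ) / q := by
    have : (0 : ℝ) < p := by exact_mod_cast hp
    positivity
  have hx1 : (p : ℝ) / q ≤ 1 := by
    rw [div_le_one hq']; exact_mod_cast hpq
  have h := gamma_upper hx0 hx1 N
  refine le_trans h ?_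
  rw [prod_eq hq, base_eq hq]
  set M : ℕ := 2 * q * N + q + p with hM
  have hM0 : (0 : ℝ) < M := by
    have : 0 < M := by omega
    exact_mod_cast this
  set c : ℝ := ((M : ℕ) : ℝ) / ((2 * q : ℕ) : ℝ) with hc
  have hc0 : 0 < c := by
    rw [hc]; push_cast; positivity
  have hP : (0 : ℝ) < ((∏ k ∈ range N, ((k + 1) * q + p) : ℕ) : ℝ) := by
    have : 0 < ∏ k ∈ range N, ((k + 1) * q + p) := Finset.prod_pos fun k _ => by positivity
    exact_mod_cast this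
  have h1 : c ^ ((p : ℝ) / q) ≤ (V : ℝ) / E := by
    refine le_of_pow_le_pow_left₀ hq.ne' (by positivity) ?_
    rw [rpow_div hc0.le hq, hc, div_pow, div_pow, div_le_div_iff₀ (by positivity) (by positivity)]
    exact_mod_cast hV
  have hDR : (D : ℝ) + p * q ^ 2 = 6 * q * (M : ℝ) ^ 2 + p ^ 3 := by exact_mod_cast hD
  have hD0' : (0 : ℝ) < D := by exact_mod_cast hD0
  have hy : (p : ℝ) / q * (1 - ((p : ℝ) / q) ^ 2) / (24 * c ^ 2) =
      1 - (D : ℝ) / (6 * q * (M : ℝ) ^ 2) := by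
    have hD2 : (D : ℝ) = 6 * q * (M : ℝ) ^ 2 + p ^ 3 - p * q ^ 2 := by linarith
    rw [hc, hD2]
    push_cast
    field_simp
    ring
  have h2 : Real.exp ((p : ℝ) / q * (1 - ((p : ℝ) / q) ^ 2) / (24 * c ^ 2)) ≤
      (6 * q * (M : ℝ) ^ 2) / D := by
    rw [hy]
    have h3 := Real.add_one_le_exp (-(1 - (D : ℝ) / (6 * q * (M : ℝ) ^ 2)))
    have h4 : (D : ℝ) / (6 * q * (M : ℝ) ^ 2) ≤
        Real.exp (-(1 - (D : ℝ) / (6 * q * (M : ℝ) ^ 2))) := by linarith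
    rw [Real.exp_neg] at h4
    have h5 : 0 < (D : ℝ) / (6 * q * (M : ℝ) ^ 2) := by positivity
    have h6 := (le_inv_comm₀ h5 (Real.exp_pos _)).1 h4
    rwa [inv_div] at h6
  have h7 : c ^ ((p : ℝ) / q) * (((N.factorial * q ^ N : ℕ) : ℝ) /
        ((∏ k ∈ range N, ((k + 1) * q + p) : ℕ) : ℝ)) *
      Real.exp ((p : ℝ) / q * (1 - ((p : ℝ) / q) ^ 2) / (24 * c ^ 2)) ≤
      (V : ℝ) / E * (((N.factorial * q ^ N : ℕ) : ℝ) /
        ((∏ k ∈ range N, ((k + 1) * q + p) : ℕ) : ℝ)) * ((6 * q * (M : ℝ) ^ 2) / D) := by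
    refine mul_le_mul (mul_le_mul_of_nonneg_right h1 (by positivity)) h2 (Real.exp_pos _).le
      (by positivity)
  refine h7.trans ?_
  rw [div_mul_div_comm, div_mul_div_comm, div_le_div_iff₀ (by positivity) hE']
  have h8 : (V : ℝ) * ((N.factorial * q ^ N : ℕ) : ℝ) * (6 * q * (M : ℝ) ^ 2) ≤
      C * ((∏ k ∈ range N, ((k + 1) * q + p) : ℕ) : ℝ) * D := by exact_mod_cast hC
  nlinarith

end Pool.Agent.Helper88.Gam
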